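/- MP_5465ec_co, Q2, part CONV: the members of the two families are 2-trade but not 3-trade robust. -/
import Pool.Agent.Helper89.TQ.Spec

set_option autoImplicit false
set_option linter.unusedVariables false

namespace Pool.Agent.Helper81.TQ.CONV

open Finset Pool.Agent.R6.Trade Pool.Agent.Helper89.TQ

/-- F1 -/
theorem core1 (l k1 k2 k3 x0 x1 x2 u0 u1 u2 y0 y1 y2 v0 v1 v2 : ℕ)
    (bx0 : x0 ≤ 2*l+3+k1) (bx1 : x1 ≤ k2+3) (bx2 : x2 ≤ 2*l+5+k3)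
    (bu0 : u0 ≤ 2*l+3+k1) (bu1 : u1 ≤ k2+3) (bu2 : u2 ≤ 2*l+5+k3)
    (by0 : y0 ≤ 2*l+3+k1) (by1 : y1 ≤ k2+3) (by2 : y2 ≤ 2*l+5+k3)
    (bv0 : v0 ≤ 2*l+3+k1) (bv1 : v1 ≤ k2+3) (bv2 : v2 ≤ 2*l+5+k3)
    (s0 : x0 + u0 = y0 + v0) (s1 : x1 + u1 = y1 + v1) (s2 : x2 + u2 = y2 + v2)
    (hx : (l+2+k1 ≤ x0 ∧ l+k1+k2+4 ≤ x0+x1 ∧ 2*l+k1+k2+k3+7 ≤ x0+x1+x2) ∨
      (k1+1 ≤ x0 ∧ k1+k2+3 ≤ x0+x1 ∧ 2*l+k1+k2+k3+8 ≤ x0+x1+x2))
    (hu : (l+2+k1 ≤ u0 ∧ l+k1+k2+4 ≤ u0+u1 ∧ 2*l+k1+k2+k3+7 ≤ u0+u1+u2) ∨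
      (k1+1 ≤ u0 ∧ k1+k2+3 ≤ u0+u1 ∧ 2*l+k1+k2+k3+8 ≤ u0+u1+u2))
    (hy : ¬ (l+2+k1 ≤ y0 ∧ l+k1+k2+4 ≤ y0+y1 ∧ 2*l+k1+k2+k3+7 ≤ y0+y1+y2))
    (hy' : ¬ (k1+1 ≤ y0 ∧ k1+k2+3 ≤ y0+y1 ∧ 2*l+k1+k2+k3+8 ≤ y0+y1+y2))
    (hv : ¬ (l+2+k1 ≤ v0 ∧ l+k1+k2+4 ≤ v0+v1 ∧ 2*l+k1+k2+k3+7 ≤ v0+v1+v2))
    (hv' : ¬ (k1+1 ≤ v0 ∧ k1+k2+3 ≤ v0+v1 ∧ 2*l+k1+k2+k3+8 ≤ v0+v1+v2)) : False := by
  simp only [not_and_or, not_le] at hy hy' hv hv'
  rcases hx with ⟨a1, a2, a3⟩ | ⟨a1, a2, a3⟩ <;> rcases hu with ⟨c1, c2, c3⟩ | ⟨c1, c2, c3⟩ <;>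
  rcases hy with d | d | d <;> rcases hv with e | e | e <;>
  rcases hy' with f | f | f <;> omega

/-- F2 -/
theorem core2 (l k1 k2 x0 x1 x2 u0 u1 u2 y0 y1 y2 v0 v1 v2 : ℕ)
    (bx0 : x0 ≤ 2*l+3+k1) (bx1 : x1 ≤ k2+3) (bx2 : x2 ≤ 2*l+5)
    (bu0 : u0 ≤ 2*l+3+k1) (bu1 : u1 ≤ k2+3) (bu2 : u2 ≤ 2*l+5)
    (by0 : y0 ≤ 2*l+3+k1) (by1 : y1 ≤ k2+3) (by2 : y2 ≤ 2*l+5)
    (bv0 : v0 ≤ 2*l+3+k1) (bv1 : v1 ≤ k2+3) (bv2 : v2 ≤ 2*l+5)
    (s0 : x0 + u0 = y0 + v0) (s1 : x1 + u1 = y1 + v1) (s2 : x2 + u2 = y2 + v2)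
    (hx : (l+1 ≤ x0 ∧ l+2 ≤ x0+x1 ∧ 2*l+4 ≤ x0+x1+x2) ∨ (0 ≤ x0 ∧ 1 ≤ x0+x1 ∧ 2*l+5 ≤ x0+x1+x2))
    (hu : (l+1 ≤ u0 ∧ l+2 ≤ u0+u1 ∧ 2*l+4 ≤ u0+u1+u2) ∨ (0 ≤ u0 ∧ 1 ≤ u0+u1 ∧ 2*l+5 ≤ u0+u1+u2))
    (hy : ¬ (l+1 ≤ y0 ∧ l+2 ≤ y0+y1 ∧ 2*l+4 ≤ y0+y1+y2))
    (hy' : ¬ (0 ≤ y0 ∧ 1 ≤ y0+y1 ∧ 2*l+5 ≤ y0+y1+y2))
    (hv : ¬ (l+1 ≤ v0 ∧ l+2 ≤ v0+v1 ∧ 2*l+4 ≤ v0+v1+v2))
    (hv' : ¬ (0 ≤ v0 ∧ 1 ≤ v0+v1 ∧ 2*l+5 ≤ v0+v1+v2)) : False := by
  simp only [not_and_or, not_le] at hy hy' hv hv'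
  rcases hx with ⟨a1, a2, a3⟩ | ⟨a1, a2, a3⟩ <;> rcases hu with ⟨c1, c2, c3⟩ | ⟨c1, c2, c3⟩ <;>
  rcases hy with d | d | d <;> rcases hv with e | e | e <;>
  rcases hy' with f | f | f <;> omega

section
variable {N : Type} [Fintype N] [DecidableEq N] {W : Finset N → Prop} {τ : N → Fin 3}
  {a b : Fin 3 → ℕ}

/-- a trade of length at most two fails if no pair of winning vectors has the sum of a pair of losing
ones -/
theorem robust_two (hW : ∀ S, W S ↔ Win a b (vec τ S))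
    (h : ∀ x u y v : Fin 3 → ℕ, (∀ i, x i ≤ nn τ i) → (∀ i, u i ≤ nn τ i) → (∀ i, y i ≤ nn τ i) →
      (∀ i, v i ≤ nn τ i) → (∀ i, x i + u i = y i + v i) → Win a b x → Win a b u →
        ¬ Win a b y → ¬ Win a b v → False) : TradeRobust W 2 := by
  intro j hj1 hj2 X Y hX hXY
  have hs : ∀ i, ∑ k, vec τ (X k) i = ∑ k, vec τ (Y k) i := by
    intro i
    rw [sum_vec, sum_vec]
    exact sum_congr rfl (fun v _ => hXY v)
  obtain rfl | rfl : j = 1 ∨ j = 2 := by omega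
  · have h1 : vec τ (X 0) = vec τ (Y 0) := by
      funext i
      have h2 := hs i
      rw [Fin.sum_univ_one, Fin.sum_univ_one] at h2
      exact h2
    refine ⟨0, (hW _).2 ?_⟩
    rw [← h1]
    exact (hW _).1 (hX 0)
  · by_contra hcon
    push Not at hcon
    refine h (vec τ (X 0)) (vec τ (X 1)) (vec τ (Y 0)) (vec τ (Y 1)) (vec_le τ _) (vec_le τ _)
      (vec_le τ _) (vec_le τ _) (fun i => ?_) ((hW _).1 (hX 0)) ((hW _).1 (hX 1))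
      (fun hy => hcon 0 ((hW _).2 hy)) (fun hy => hcon 1 ((hW _).2 hy))
    have h2 := hs i
    rw [Fin.sum_univ_two, Fin.sum_univ_two] at h2
    exact h2

/-- a trade of vectors of length three gives a trade of coalitions -/
theorem not_robust_three (hW : ∀ S, W S ↔ Win a b (vec τ S)) (ha : ∀ i, a i ≤ nn τ i)
    (y : Fin 3 → Fin 3 → ℕ) (hy : ∀ k i, y k i ≤ nn τ i) (hl : ∀ k, ¬ Win a b (y k))
    (hs : ∀ i, a i + a i + a i = y 0 i + y 1 i + y 2 i) : ¬ TradeRobust W 3 := by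
  intro h3
  obtain ⟨g, hg⟩ := realize τ
  obtain ⟨X, hX1, hX2⟩ := hg 3 (fun _ => a) (fun _ i => ha i)
  obtain ⟨Y, hY1, hY2⟩ := hg 3 y hy
  obtain ⟨k, hk⟩ := h3 3 (by norm_num) le_rfl X Y (fun k => by
    rw [hW, hX1]
    exact Or.inl ⟨le_rfl, le_rfl, le_rfl⟩) (fun v => by
    rw [hX2, hY2, Fin.sum_univ_three, Fin.sum_univ_three, hs])
  rw [hW, hY1] at hk
  exact hl k hk

end

theorem main : S_CONV := by
  intro N _ _ W τ a b hW hM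
  obtain ⟨k₁, k₂, k₃, l, ⟨hn, ha, hb⟩ | ⟨hn, ha, hb⟩⟩ := hM
  · have hn0 : nn τ 0 = 2 * l + 3 + k₁ := by rw [hn]; rfl
    have hn1 : nn τ 1 = k₂ + 3 := by rw [hn]; rfl
    have hn2 : nn τ 2 = 2 * l + 5 + k₃ := by rw [hn]; rfl
    have ha0 : a 0 = nn τ 0 - l - 1 := by rw [ha]; rfl
    have ha1 : a 1 = nn τ 1 - 1 := by rw [ha]; rfl
    have ha2 : a 2 = nn τ 2 - l - 2 := by rw [ha]; rfl
    have hb0 : b 0 = nn τ 0 - 2 * l - 2 := by rw [hb]; rfl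
    have hb1 : b 1 = nn τ 1 - 1 := by rw [hb]; rfl
    have hb2 : b 2 = nn τ 2 := by rw [hb]; rfl
    clear hn ha hb
    constructor
    · apply robust_two hW
      intro x u y v hx hu hy hv hs hwx hwu hwy hwv
      have x0 := hx 0
      have x1 := hx 1
      have x2 := hx 2
      have u0 := hu 0
      have u1 := hu 1
      have u2 := hu 2
      have y0 := hy 0
      have y1 := hy 1
      have y2 := hy 2
      have v0 := hv 0
      have v1 := hv 1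
      have v2 := hv 2
      refine core1 l k₁ k₂ k₃ (x 0) (x 1) (x 2) (u 0) (u 1) (u 2) (y 0) (y 1) (y 2) (v 0) (v 1) (v 2)
        (by omega) (by omega) (by omega) (by omega) (by omega) (by omega) (by omega) (by omega)
        (by omega) (by omega) (by omega) (by omega) (hs 0) (hs 1) (hs 2) ?_ ?_
        (fun h => hwy (Or.inl ⟨by omega, by omega, by omega⟩))
        (fun h => hwy (Or.inr ⟨by omega, by omega, by omega⟩))
        (fun h => hwv (Or.inl ⟨by omega, by omega, by omega⟩))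
        (fun h => hwv (Or.inr ⟨by omega, by omega, by omega⟩))
      · rcases hwx with ⟨h1, h2, h3⟩ | ⟨h1, h2, h3⟩
        · exact Or.inl ⟨by omega, by omega, by omega⟩
        · exact Or.inr ⟨by omega, by omega, by omega⟩
      · rcases hwu with ⟨h1, h2, h3⟩ | ⟨h1, h2, h3⟩
        · exact Or.inl ⟨by omega, by omega, by omega⟩
        · exact Or.inr ⟨by omega, by omega, by omega⟩
    · refine not_robust_three hW ?_ ![![nn τ 0 - 2 * l - 3, nn τ 1, nn τ 2],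
        ![nn τ 0 - l, nn τ 1 - 3, nn τ 2 - l - 1], ![nn τ 0, nn τ 1, nn τ 2 - 2 * l - 5]] ?_ ?_ ?_
      · intro i
        fin_cases i <;> simp only [Fin.zero_eta, Fin.mk_one, Fin.reduceFinMk] <;> omega
      · intro k i
        fin_cases k <;> fin_cases i <;> simp <;> omega
      · intro k
        fin_cases k <;> simp [Win, GE] <;> omega
      · intro i
        fin_cases i <;> simp <;> omega
  · have hn0 : nn τ 0 = 2 * l + 3 + k₁ := by rw [hn]; rfl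
    have hn1 : nn τ 1 = k₂ + 3 := by rw [hn]; rfl
    have hn2 : nn τ 2 = 2 * l + 5 := by rw [hn]; rfl
    have ha0 : a 0 = l + 1 := by rw [ha]; rfl
    have ha1 : a 1 = 1 := by rw [ha]; rfl
    have ha2 : a 2 = l + 2 := by rw [ha]; rfl
    have hb0 : b 0 = 0 := by rw [hb]; rfl
    have hb1 : b 1 = 1 := by rw [hb]; rfl
    have hb2 : b 2 = 2 * l + 4 := by rw [hb]; rfl
    clear hn ha hb
    constructor
    · apply robust_two hW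
      intro x u y v hx hu hy hv hs hwx hwu hwy hwv
      have x0 := hx 0
      have x1 := hx 1
      have x2 := hx 2
      have u0 := hu 0
      have u1 := hu 1
      have u2 := hu 2
      have y0 := hy 0
      have y1 := hy 1
      have y2 := hy 2
      have v0 := hv 0
      have v1 := hv 1
      have v2 := hv 2
      refine core2 l k₁ k₂ (x 0) (x 1) (x 2) (u 0) (u 1) (u 2) (y 0) (y 1) (y 2) (v 0) (v 1) (v 2)
        (by omega) (by omega) (by omega) (by omega) (by omega) (by omega) (by omega) (by omega)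
        (by omega) (by omega) (by omega) (by omega) (hs 0) (hs 1) (hs 2) ?_ ?_
        (fun h => hwy (Or.inl ⟨by omega, by omega, by omega⟩))
        (fun h => hwy (Or.inr ⟨by omega, by omega, by omega⟩))
        (fun h => hwv (Or.inl ⟨by omega, by omega, by omega⟩))
        (fun h => hwv (Or.inr ⟨by omega, by omega, by omega⟩))
      · rcases hwx with ⟨h1, h2, h3⟩ | ⟨h1, h2, h3⟩
        · exact Or.inl ⟨by omega, by omega, by omega⟩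
        · exact Or.inr ⟨by omega, by omega, by omega⟩
      · rcases hwu with ⟨h1, h2, h3⟩ | ⟨h1, h2, h3⟩
        · exact Or.inl ⟨by omega, by omega, by omega⟩
        · exact Or.inr ⟨by omega, by omega, by omega⟩
    · refine not_robust_three hW ?_ ![![0, 0, 2 * l + 5],
        ![l, 3, l + 1], ![2 * l + 3, 0, 0]] ?_ ?_ ?_
      · intro i
        fin_cases i <;> simp only [Fin.zero_eta, Fin.mk_one, Fin.reduceFinMk] <;> omega
      · intro k i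
        fin_cases k <;> fin_cases i <;> simp <;> omega
      · intro k
        fin_cases k <;> simp [Win, GE] <;> omega
      · intro i
        fin_cases i <;> simp <;> omega

end Pool.Agent.Helper81.TQ.CONV
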