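/- MP_5465ec_co, Q2: the hard integer lemmas (generated: case splitting, rational certificates). -/
import Pool.Agent.Helper89.TQ.Ctx

set_option autoImplicit false
set_option linter.all false
set_option maxHeartbeats 4000000

namespace Pool.Agent.Helper81.TQ

open Pool.Agent.Helper89.TQ

theorem c0_11_11_33_k0 {n1 n2 n3 A1 A2 A3 B1 B2 B3 m11_1 m11_2 m11_3 m13_1 m13_2 m13_3 m22_1 m22_2 m22_3 m23_1 m23_2 m23_3 m33_1 m33_2 m33_3 : ℤ}
    (C : Ctx0 n1 n2 n3 A1 A2 A3 B1 B2 B3 m11_1 m11_2 m11_3 m13_1 m13_2 m13_3 m22_1 m22_2 m22_3 m23_1 m23_2 m23_3 m33_1 m33_2 m33_3)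
    (e0 : 0 < B1)
    (e1 : 0 < A3)
    (s1 : 0 * A1 + 3 * B1 ≤ m11_1 + m11_1 + m33_1)
    (s2 : 0 * A2 + 3 * B2 ≤ m11_2 + m11_2 + m33_2)
    (s3 : 0 * A3 + 3 * B3 ≤ m11_3 + m11_3 + m33_3) : False := by
  have h_t12 : (1 ≤ A1 ∧ A2 + 1 ≤ A1 + n2) ∨ (1 ≤ B1 ∧ B2 + 1 ≤ B1 + n2) := by
    have t := C.t12
    clear s1 s2 s3
    omega
  have h_t23 : (A1 + 1 ≤ A2 ∧ A3 + 1 ≤ A2 + n3) ∨ (B1 + 1 ≤ B2 ∧ B3 + 1 ≤ B2 + n3) := by
    have t := C.t23
    clear s1 s2 s3
    omega
  have h_f13_2 : (m13_1 + 1 = A1) ∨ (m13_1 + 1 = B3) := by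
    have t := C.f13_2
    clear s1 s2 s3
    omega
  have h_f13_5 : (m13_2 = m13_1 + n2) ∨ (m13_2 + 1 = B3) := by
    have t := C.f13_5
    clear s1 s2 s3
    omega
  have h_f13_8 : (m13_3 = m13_2 + n3) ∨ (m13_3 + 1 = B3) := by
    have t := C.f13_8
    clear s1 s2 s3
    omega
  have h_f22_2 : (m22_1 = n1) ∨ (m22_1 + 1 = B2) := by
    have t := C.f22_2
    clear s1 s2 s3
    omega
  have h_f22_5 : (m22_2 = m22_1 + n2) ∨ (m22_2 + 1 = B2) := by
    have t := C.f22_5
    clear s1 s2 s3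
    omega
  have h_f23_3 : (m23_1 = n1) ∨ (m23_1 + 1 = A2) ∨ (m23_1 + 1 = B3) := by
    have t := C.f23_3
    clear s1 s2 s3
    omega
  have h_f23_7 : (m23_2 = m23_1 + n2) ∨ (m23_2 + 1 = A2) ∨ (m23_2 + 1 = B3) := by
    have t := C.f23_7
    clear s1 s2 s3
    omega
  have h_f23_10 : (m23_3 = m23_2 + n3) ∨ (m23_3 + 1 = B3) := by
    have t := C.f23_10
    clear s1 s2 s3
    omega
  have h_f33_2 : (m33_1 = n1) ∨ (m33_1 + 1 = A3) := by
    have t := C.f33_2
    clear s1 s2 s3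
    omega
  have h_f33_5 : (m33_2 = m33_1 + n2) ∨ (m33_2 + 1 = A3) := by
    have t := C.f33_5
    clear s1 s2 s3
    omega
  have h_f33_8 : (m33_3 = m33_2 + n3) ∨ (m33_3 + 1 = A3) := by
    have t := C.f33_8
    clear s1 s2 s3
    omega
  have h_p11_13B : (B1 ≤ 0) ∨ (A1 ≤ 0) ∨ (B3 ≤ 0) ∨ (m11_1 + m13_1 + 1 ≤ 2 * B1) ∨ (m11_2 + m13_2 + 1 ≤ 2 * B2) ∨ (m11_3 + m13_3 + 1 ≤ 2 * B3) := by
    have t := C.p11_13B
    clear s1 s2 s3
    omega
  have h_p11_22B : (B1 ≤ 0) ∨ (B2 ≤ 0) ∨ (m11_1 + m22_1 + 1 ≤ 2 * B1) ∨ (m11_2 + m22_2 + 1 ≤ 2 * B2) ∨ (m11_3 + m22_3 + 1 ≤ 2 * B3) := by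
    have t := C.p11_22B
    clear s1 s2 s3
    omega
  have h_p11_23B : (B1 ≤ 0) ∨ (A2 ≤ 0) ∨ (B3 ≤ 0) ∨ (m11_1 + m23_1 + 1 ≤ 2 * B1) ∨ (m11_2 + m23_2 + 1 ≤ 2 * B2) ∨ (m11_3 + m23_3 + 1 ≤ 2 * B3) := by
    have t := C.p11_23B
    clear s1 s2 s3
    omega
  have h_p11_33B : (B1 ≤ 0) ∨ (A3 ≤ 0) ∨ (m11_1 + m33_1 + 1 ≤ 2 * B1) ∨ (m11_2 + m33_2 + 1 ≤ 2 * B2) ∨ (m11_3 + m33_3 + 1 ≤ 2 * B3) := by
    have t := C.p11_33B
    clear s1 s2 s3
    omega
  have h_p13_22A : (A1 ≤ 0) ∨ (B3 ≤ 0) ∨ (B2 ≤ 0) ∨ (m13_1 + m22_1 + 1 ≤ 2 * A1) ∨ (m13_2 + m22_2 + 1 ≤ 2 * A2) ∨ (m13_3 + m22_3 + 1 ≤ 2 * A3) := by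
    have t := C.p13_22A
    clear s1 s2 s3
    omega
  have h_p13_22B : (A1 ≤ 0) ∨ (B3 ≤ 0) ∨ (B2 ≤ 0) ∨ (m13_1 + m22_1 + 1 ≤ 2 * B1) ∨ (m13_2 + m22_2 + 1 ≤ 2 * B2) ∨ (m13_3 + m22_3 + 1 ≤ 2 * B3) := by
    have t := C.p13_22B
    clear s1 s2 s3
    omega
  have h_p13_23A : (A1 ≤ 0) ∨ (B3 ≤ 0) ∨ (A2 ≤ 0) ∨ (m13_1 + m23_1 + 1 ≤ 2 * A1) ∨ (m13_2 + m23_2 + 1 ≤ 2 * A2) ∨ (m13_3 + m23_3 + 1 ≤ 2 * A3) := by
    have t := C.p13_23A
    clear s1 s2 s3
    omega
  have h_p22_33A : (B2 ≤ 0) ∨ (A3 ≤ 0) ∨ (m22_1 + m33_1 + 1 ≤ 2 * A1) ∨ (m22_2 + m33_2 + 1 ≤ 2 * A2) ∨ (m22_3 + m33_3 + 1 ≤ 2 * A3) := by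
    have t := C.p22_33A
    clear s1 s2 s3
    omega
  have h_tmzp : (n1 ≤ A1) ∨ (A2 ≤ A1) ∨ (A3 ≤ A2) ∨ (B1 ≤ 0) ∨ (B1 + n2 ≤ B2) ∨ (B2 + n3 ≤ B3) := by
    have t := C.tmzp
    clear s1 s2 s3
    omega
  have h_tzmp : (A1 + n2 ≤ A2) ∨ (A3 ≤ A2 + 1) ∨ (B2 ≤ B1) ∨ (B2 + n3 ≤ B3 + 1) := by
    have t := C.tzmp
    clear s1 s2 s3
    omega
  have h_tzpm : (A2 ≤ A1) ∨ (A2 + n3 ≤ A3 + 1) ∨ (B1 + n2 ≤ B2) ∨ (B3 ≤ B2 + 1) ∨ (B2 + 1 ≤ A2 ∧ B3 ≤ A3 + 1) := by
    have t := C.tzpm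
    clear s1 s2 s3
    omega
  have h_tpmz : (A1 ≤ 0) ∨ (A1 + n2 ≤ A2 + 1) ∨ (A3 ≤ A2) ∨ (n1 ≤ B1) ∨ (B2 ≤ B1 + 1) ∨ (B2 + n3 ≤ B3) := by
    have t := C.tpmz
    clear s1 s2 s3
    omega
  have h_a0 := C.a0
  have h_a1 := C.a1
  have h_a2 := C.a2
  have h_a3 := C.a3
  have h_a4 := C.a4
  have h_a5 := C.a5
  have h_b3 := C.b3
  have h_b4 := C.b4
  have h_b5 := C.b5
  have h_o0 := C.o0
  have h_o1 := C.o1
  have h_o2 := C.o2
  have h_f11_0 := C.f11_0
  have h_f11_1 := C.f11_1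
  have h_f11_2 := C.f11_2
  have h_f13_0 := C.f13_0
  have h_f13_3 := C.f13_3
  have h_f13_4 := C.f13_4
  have h_f13_7 := C.f13_7
  have h_f22_1 := C.f22_1
  have h_f22_4 := C.f22_4
  have h_f22_6 := C.f22_6
  have h_f23_0 := C.f23_0
  have h_f23_1 := C.f23_1
  have h_f23_5 := C.f23_5
  have h_f23_9 := C.f23_9
  have h_f33_0 := C.f33_0
  have h_f33_1 := C.f33_1
  have h_f33_3 := C.f33_3
  have h_f33_4 := C.f33_4
  have h_f33_7 := C.f33_7
  clear C
  rcases h_f13_2 with h_f13_2_0_0 | h_f13_2_1_0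
  · rcases h_f13_5 with h_f13_5_0_0 | h_f13_5_1_0
    · rcases h_t23 with ⟨h_t23_0_0, h_t23_0_1⟩ | ⟨h_t23_1_0, h_t23_1_1⟩
      · rcases h_f33_2 with h_f33_2_0_0 | h_f33_2_1_0
        · rcases h_f13_8 with h_f13_8_0_0 | h_f13_8_1_0
          · linarith only [h_f11_0, h_f11_1, h_f11_2, h_f13_2_0_0, h_f13_5_0_0, h_f13_7, h_f13_8_0_0, h_f33_7, h_o0, h_o2, s3]
          · rcases h_f23_3 with h_f23_3_0_0 | h_f23_3_1_0 | h_f23_3_2_0
            · rcases h_p11_23B with h_p11_23B_0_0 | h_p11_23B_1_0 | h_p11_23B_2_0 | h_p11_23B_3_0 | h_p11_23B_4_0 | h_p11_23B_5_0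
              · linarith only [e0, h_p11_23B_0_0]
              · linarith only [h_a0, h_p11_23B_1_0, h_t23_0_0]
              · linarith only [e0, h_f11_0, h_f33_1, h_o2, h_p11_23B_2_0, s1]
              · linarith only [h_f11_0, h_f23_3_0_0, h_f33_0, h_p11_23B_3_0, s1]
              · rcases h_f23_7 with h_f23_7_0_0 | h_f23_7_1_0 | h_f23_7_2_0
                · linarith only [h_b3, h_f11_0, h_f11_1, h_f23_3_0_0, h_f23_7_0_0, h_f33_0, h_p11_23B_4_0, s1]
                · rcases h_tpmz with h_tpmz_0_0 | h_tpmz_1_0 | h_tpmz_2_0 | h_tpmz_3_0 | h_tpmz_4_0 | h_tpmz_5_0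
                  · linarith only [e0, h_o0, h_tpmz_0_0]
                  · rcases h_tzmp with h_tzmp_0_0 | h_tzmp_1_0 | h_tzmp_2_0 | h_tzmp_3_0
                    · rcases h_t12 with ⟨h_t12_0_0, h_t12_0_1⟩ | ⟨h_t12_1_0, h_t12_1_1⟩
                      · linarith only [h_t12_0_1, h_tzmp_0_0]
                      · linarith only [h_f11_0, h_f11_1, h_f23_7_1_0, h_o0, h_p11_23B_4_0, h_t12_1_1, h_tzmp_0_0]
                    · linarith only [h_f11_0, h_f11_1, h_f23_7_1_0, h_f33_4, h_o0, h_p11_23B_4_0, h_tpmz_1_0, h_tzmp_1_0, s2]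
                    · linarith only [h_a1, h_a3, h_f11_0, h_f11_1, h_f23_1, h_f23_3_0_0, h_f23_7_1_0, h_f33_0, h_p11_23B_4_0, h_tzmp_2_0, s1]
                    · linarith only [h_f11_0, h_f11_1, h_f11_2, h_f23_7_1_0, h_f33_7, h_o0, h_o2, h_p11_23B_4_0, h_tpmz_1_0, h_tzmp_3_0, s3]
                  · linarith only [h_f23_7_1_0, h_f33_4, h_o1, h_p11_23B_4_0, h_tpmz_2_0, s2]
                  · linarith only [h_f11_0, h_f33_0, h_tpmz_3_0, s1]
                  · linarith only [h_a1, h_a3, h_f11_0, h_f11_1, h_f23_1, h_f23_3_0_0, h_f23_7_1_0, h_f33_0, h_p11_23B_4_0, h_tpmz_4_0, s1]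
                  · linarith only [h_f11_2, h_f23_7_1_0, h_f33_7, h_o1, h_p11_23B_4_0, h_t23_0_1, h_tpmz_5_0, s3]
                · linarith only [h_a4, h_f23_5, h_f23_7_2_0, h_o2]
              · rcases h_f23_10 with h_f23_10_0_0 | h_f23_10_1_0
                · rcases h_f23_7 with h_f23_7_0_0 | h_f23_7_1_0 | h_f23_7_2_0
                  · linarith only [h_f11_0, h_f11_1, h_f11_2, h_f23_10_0_0, h_f23_3_0_0, h_f23_7_0_0, h_f33_0, h_f33_7, h_o2, h_p11_23B_5_0, s1, s3]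
                  · linarith only [h_b5, h_f23_10_0_0, h_f23_7_1_0, h_f33_7, h_o1, h_p11_23B_5_0, h_t23_0_1, s3]
                  · linarith only [h_a3, h_f11_0, h_f11_1, h_f11_2, h_f13_2_0_0, h_f13_4, h_f13_5_0_0, h_f23_10_0_0, h_f23_7_2_0, h_f33_7, h_o0, h_p11_23B_5_0, h_t23_0_1, s3]
                · linarith only [h_f23_10_1_0, h_f33_7, h_o2, h_p11_23B_5_0, s3]
            · rcases h_f23_7 with h_f23_7_0_0 | h_f23_7_1_0 | h_f23_7_2_0
              · linarith only [h_a3, h_f23_3_1_0, h_f23_5, h_f23_7_0_0, h_t23_0_0]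
              · rcases h_f23_10 with h_f23_10_0_0 | h_f23_10_1_0
                · rcases h_p11_23B with h_p11_23B_0_0 | h_p11_23B_1_0 | h_p11_23B_2_0 | h_p11_23B_3_0 | h_p11_23B_4_0 | h_p11_23B_5_0
                  · linarith only [e0, h_p11_23B_0_0]
                  · linarith only [e0, h_o0, h_p11_23B_1_0, h_t23_0_0]
                  · linarith only [e0, h_f11_0, h_f11_1, h_f11_2, h_f13_2_0_0, h_f13_4, h_f13_5_0_0, h_f23_10_0_0, h_f23_7_1_0, h_f23_9, h_f33_7, h_o0, h_o2, h_p11_23B_2_0, h_t23_0_0, s3]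
                  · linarith only [h_f11_0, h_f23_3_1_0, h_o0, h_p11_23B_3_0, h_t23_0_0]
                  · linarith only [h_f11_2, h_f23_10_0_0, h_f23_7_1_0, h_f23_9, h_f33_7, h_o1, h_o2, h_p11_23B_4_0, s3]
                  · linarith only [h_b5, h_f23_10_0_0, h_f23_7_1_0, h_f33_7, h_o1, h_p11_23B_5_0, h_t23_0_1, s3]
                · rcases h_f22_2 with h_f22_2_0_0 | h_f22_2_1_0
                  · rcases h_p11_23B with h_p11_23B_0_0 | h_p11_23B_1_0 | h_p11_23B_2_0 | h_p11_23B_3_0 | h_p11_23B_4_0 | h_p11_23B_5_0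
                    · linarith only [e0, h_p11_23B_0_0]
                    · linarith only [e0, h_o0, h_p11_23B_1_0, h_t23_0_0]
                    · linarith only [e0, h_a3, h_f13_2_0_0, h_f13_4, h_f13_5_0_0, h_o0, h_p11_23B_2_0, h_t23_0_0]
                    · linarith only [h_f11_0, h_f23_3_1_0, h_o0, h_p11_23B_3_0, h_t23_0_0]
                    · rcases h_f22_5 with h_f22_5_0_0 | h_f22_5_1_0
                      · linarith only [h_b3, h_f11_0, h_f22_2_0_0, h_f22_4, h_f22_5_0_0, h_f33_0, s1]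
                      · rcases h_tzmp with h_tzmp_0_0 | h_tzmp_1_0 | h_tzmp_2_0 | h_tzmp_3_0
                        · linarith only [h_b3, h_f22_1, h_f22_2_0_0, h_f23_0, h_f23_3_1_0, h_o0, h_tzmp_0_0]
                        · rcases h_p13_22A with h_p13_22A_0_0 | h_p13_22A_1_0 | h_p13_22A_2_0 | h_p13_22A_3_0 | h_p13_22A_4_0 | h_p13_22A_5_0
                          · linarith only [e0, h_o0, h_p13_22A_0_0]
                          · linarith only [e1, h_o2, h_p13_22A_1_0]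
                          · linarith only [e0, h_a0, h_a3, h_f11_0, h_f11_1, h_f23_7_1_0, h_p11_23B_4_0, h_p13_22A_2_0, h_t23_0_0]
                          · rcases h_p11_13B with h_p11_13B_0_0 | h_p11_13B_1_0 | h_p11_13B_2_0 | h_p11_13B_3_0 | h_p11_13B_4_0 | h_p11_13B_5_0
                            · linarith only [e0, h_p11_13B_0_0]
                            · linarith only [e0, h_f11_0, h_f13_2_0_0, h_f22_2_0_0, h_f33_0, h_p11_13B_1_0, h_p13_22A_3_0, s1]
                            · linarith only [e0, h_f11_0, h_f11_1, h_f13_2_0_0, h_f13_4, h_f13_5_0_0, h_f22_1, h_f22_2_0_0, h_f23_7_1_0, h_f33_0, h_f33_4, h_p11_13B_2_0, h_p11_23B_4_0, h_p13_22A_3_0, h_tzmp_1_0, s1, s2]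
                            · linarith only [h_f11_0, h_f13_2_0_0, h_f22_2_0_0, h_f33_0, h_p11_13B_3_0, h_p13_22A_3_0, s1]
                            · linarith only [h_f11_0, h_f11_1, h_f13_2_0_0, h_f13_5_0_0, h_f22_2_0_0, h_f23_7_1_0, h_f33_0, h_f33_4, h_p11_13B_4_0, h_p11_23B_4_0, h_p13_22A_3_0, h_tzmp_1_0, s1, s2]
                            · linarith only [h_f11_0, h_f11_1, h_f13_2_0_0, h_f13_4, h_f13_5_0_0, h_f13_8_1_0, h_f22_2_0_0, h_f23_7_1_0, h_f33_0, h_f33_4, h_f33_7, h_p11_13B_5_0, h_p11_23B_4_0, h_p13_22A_3_0, h_tzmp_1_0, s1, s2, s3]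
                          · linarith only [h_f11_0, h_f11_1, h_f13_2_0_0, h_f13_5_0_0, h_f22_5_1_0, h_f23_7_1_0, h_f33_4, h_o0, h_p11_23B_4_0, h_p13_22A_4_0, h_tzmp_1_0, s2]
                          · linarith only [h_f11_0, h_f11_1, h_f11_2, h_f13_2_0_0, h_f13_4, h_f13_5_0_0, h_f13_8_1_0, h_f22_5_1_0, h_f22_6, h_f23_7_1_0, h_f33_4, h_f33_7, h_o0, h_p11_23B_4_0, h_p13_22A_5_0, h_tzmp_1_0, s2, s3]
                        · linarith only [h_f11_0, h_f22_1, h_f22_2_0_0, h_f33_0, h_tzmp_2_0, s1]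
                        · rcases h_p11_13B with h_p11_13B_0_0 | h_p11_13B_1_0 | h_p11_13B_2_0 | h_p11_13B_3_0 | h_p11_13B_4_0 | h_p11_13B_5_0
                          · linarith only [e0, h_p11_13B_0_0]
                          · linarith only [e0, h_o0, h_p11_13B_1_0]
                          · linarith only [e0, h_a0, h_f11_0, h_f11_1, h_f13_2_0_0, h_f13_4, h_f13_5_0_0, h_f22_1, h_f22_2_0_0, h_f33_0, h_f33_4, h_o2, h_p11_13B_2_0, s1, s2]
                          · rcases h_p13_22A with h_p13_22A_0_0 | h_p13_22A_1_0 | h_p13_22A_2_0 | h_p13_22A_3_0 | h_p13_22A_4_0 | h_p13_22A_5_0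
                            · linarith only [e0, h_o0, h_p13_22A_0_0]
                            · linarith only [e1, h_o2, h_p13_22A_1_0]
                            · linarith only [e0, h_f11_0, h_f22_1, h_f22_2_0_0, h_f33_0, h_p13_22A_2_0, s1]
                            · linarith only [h_f11_0, h_f13_2_0_0, h_f22_2_0_0, h_f33_0, h_p11_13B_3_0, h_p13_22A_3_0, s1]
                            · linarith only [h_f11_0, h_f11_1, h_f11_2, h_f13_2_0_0, h_f13_5_0_0, h_f22_5_1_0, h_f23_7_1_0, h_f33_7, h_o0, h_o2, h_p11_23B_4_0, h_p13_22A_4_0, h_tzmp_3_0, s3]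
                            · linarith only [h_f11_2, h_f13_8_1_0, h_f22_5_1_0, h_f22_6, h_f23_7_1_0, h_f33_7, h_o2, h_p11_23B_4_0, h_p13_22A_5_0, h_t23_0_1, s3]
                          · linarith only [h_f11_0, h_f11_1, h_f11_2, h_f13_2_0_0, h_f13_5_0_0, h_f33_7, h_o0, h_o2, h_p11_13B_4_0, h_tzmp_3_0, s3]
                          · linarith only [h_f13_8_1_0, h_f33_7, h_o2, h_p11_13B_5_0, s3]
                    · linarith only [h_f23_10_1_0, h_f33_7, h_o2, h_p11_23B_5_0, s3]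
                  · rcases h_f22_5 with h_f22_5_0_0 | h_f22_5_1_0
                    · linarith only [h_a3, h_f22_2_1_0, h_f22_4, h_f22_5_0_0, h_t23_0_0]
                    · rcases h_p11_23B with h_p11_23B_0_0 | h_p11_23B_1_0 | h_p11_23B_2_0 | h_p11_23B_3_0 | h_p11_23B_4_0 | h_p11_23B_5_0
                      · linarith only [e0, h_p11_23B_0_0]
                      · linarith only [e0, h_o0, h_p11_23B_1_0, h_t23_0_0]
                      · linarith only [e1, h_o2, h_p11_23B_2_0]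
                      · linarith only [h_f11_0, h_f23_3_1_0, h_o0, h_p11_23B_3_0, h_t23_0_0]
                      · rcases h_t12 with ⟨h_t12_0_0, h_t12_0_1⟩ | ⟨h_t12_1_0, h_t12_1_1⟩
                        · rcases h_tpmz with h_tpmz_0_0 | h_tpmz_1_0 | h_tpmz_2_0 | h_tpmz_3_0 | h_tpmz_4_0 | h_tpmz_5_0
                          · linarith only [h_t12_0_0, h_tpmz_0_0]
                          · rcases h_p13_22B with h_p13_22B_0_0 | h_p13_22B_1_0 | h_p13_22B_2_0 | h_p13_22B_3_0 | h_p13_22B_4_0 | h_p13_22B_5_0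
                            · linarith only [h_p13_22B_0_0, h_t12_0_0]
                            · linarith only [e0, h_f11_0, h_f11_1, h_f23_7_1_0, h_f33_4, h_o0, h_o2, h_p11_23B_4_0, h_p13_22B_1_0, h_t23_0_0, h_tpmz_1_0, s2]
                            · linarith only [e0, h_f11_0, h_f11_1, h_f23_7_1_0, h_o0, h_p11_23B_4_0, h_p13_22B_2_0, h_t12_0_1, h_t23_0_0]
                            · linarith only [h_f11_0, h_f11_1, h_f13_2_0_0, h_f22_2_1_0, h_f23_7_1_0, h_o0, h_p11_23B_4_0, h_p13_22B_3_0, h_t12_0_1, h_t23_0_0]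
                            · rcases h_p22_33A with h_p22_33A_0_0 | h_p22_33A_1_0 | h_p22_33A_2_0 | h_p22_33A_3_0 | h_p22_33A_4_0
                              · linarith only [e0, h_f13_2_0_0, h_f13_5_0_0, h_f22_5_1_0, h_o0, h_p13_22B_4_0, h_p22_33A_0_0, h_t12_0_1, h_t23_0_0]
                              · linarith only [e1, h_p22_33A_1_0]
                              · linarith only [h_a1, h_f13_2_0_0, h_f13_5_0_0, h_f22_2_1_0, h_f22_5_1_0, h_f33_2_0_0, h_p13_22B_4_0, h_p22_33A_2_0, h_t12_0_1, h_t23_0_0]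
                              · linarith only [h_f11_0, h_f11_1, h_f13_2_0_0, h_f13_5_0_0, h_f22_5_1_0, h_o0, h_p13_22B_4_0, h_p22_33A_3_0, h_t12_0_1, s2]
                              · rcases h_f33_8 with h_f33_8_0_0 | h_f33_8_1_0
                                · linarith only [h_f11_0, h_f11_1, h_f11_2, h_f13_2_0_0, h_f13_5_0_0, h_f22_5_1_0, h_f33_7, h_f33_8_0_0, h_o0, h_o2, h_p13_22B_4_0, s2, s3]
                                · linarith only [h_f11_0, h_f11_1, h_f11_2, h_f13_2_0_0, h_f13_5_0_0, h_f22_5_1_0, h_f22_6, h_f33_8_1_0, h_o0, h_o2, h_p13_22B_4_0, h_p22_33A_4_0, s3]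
                            · linarith only [h_f11_0, h_f11_1, h_f11_2, h_f13_8_1_0, h_f22_5_1_0, h_f22_6, h_f23_7_1_0, h_f33_7, h_o0, h_o2, h_p11_23B_4_0, h_p13_22B_5_0, h_tpmz_1_0, s3]
                          · linarith only [h_f23_7_1_0, h_f33_4, h_o1, h_p11_23B_4_0, h_tpmz_2_0, s2]
                          · linarith only [h_f11_0, h_f33_0, h_tpmz_3_0, s1]
                          · linarith only [h_f11_0, h_f11_1, h_f23_7_1_0, h_o0, h_p11_23B_4_0, h_t12_0_1, h_t23_0_0, h_tpmz_4_0]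
                          · linarith only [h_f11_2, h_f23_7_1_0, h_f33_7, h_o1, h_p11_23B_4_0, h_t23_0_1, h_tpmz_5_0, s3]
                        · rcases h_tmzp with h_tmzp_0_0 | h_tmzp_1_0 | h_tmzp_2_0 | h_tmzp_3_0 | h_tmzp_4_0 | h_tmzp_5_0
                          · rcases h_p11_13B with h_p11_13B_0_0 | h_p11_13B_1_0 | h_p11_13B_2_0 | h_p11_13B_3_0 | h_p11_13B_4_0 | h_p11_13B_5_0
                            · linarith only [e0, h_p11_13B_0_0]
                            · linarith only [e0, h_f11_0, h_f33_0, h_p11_13B_1_0, h_tmzp_0_0, s1]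
                            · linarith only [e1, h_o2, h_p11_13B_2_0]
                            · linarith only [h_f11_0, h_f13_2_0_0, h_f33_0, h_p11_13B_3_0, h_tmzp_0_0, s1]
                            · linarith only [h_f11_0, h_f11_1, h_f13_2_0_0, h_f13_5_0_0, h_f33_0, h_p11_13B_4_0, h_t12_1_1, h_tmzp_0_0, s1]
                            · linarith only [h_f13_8_1_0, h_f33_7, h_o2, h_p11_13B_5_0, s3]
                          · linarith only [h_t23_0_0, h_tmzp_1_0]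
                          · linarith only [h_f23_7_1_0, h_f33_4, h_o1, h_p11_23B_4_0, h_tmzp_2_0, s2]
                          · linarith only [e0, h_tmzp_3_0]
                          · linarith only [h_t12_1_1, h_tmzp_4_0]
                          · linarith only [h_f11_2, h_f23_7_1_0, h_f33_7, h_o1, h_o2, h_p11_23B_4_0, h_tmzp_5_0, s3]
                      · linarith only [h_f23_10_1_0, h_f33_7, h_o2, h_p11_23B_5_0, s3]
              · linarith only [h_a4, h_f23_5, h_f23_7_2_0, h_o2]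
            · linarith only [h_f23_0, h_f23_3_2_0, h_f33_1, h_f33_2_0_0, h_o2]
        · rcases h_tzpm with h_tzpm_0_0 | h_tzpm_1_0 | h_tzpm_2_0 | h_tzpm_3_0 | ⟨h_tzpm_4_0, h_tzpm_4_1⟩
          · linarith only [h_t23_0_0, h_tzpm_0_0]
          · rcases h_f23_7 with h_f23_7_0_0 | h_f23_7_1_0 | h_f23_7_2_0
            · rcases h_f23_3 with h_f23_3_0_0 | h_f23_3_1_0 | h_f23_3_2_0
              · linarith only [h_a3, h_f11_0, h_f11_1, h_f11_2, h_f13_2_0_0, h_f13_4, h_f13_5_0_0, h_f23_3_0_0, h_f23_5, h_f23_7_0_0, h_f33_0, h_f33_2_1_0, h_f33_7, h_t23_0_0, h_tzpm_1_0, s1, s3]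
              · linarith only [h_f11_0, h_f11_1, h_f11_2, h_f23_3_1_0, h_f23_5, h_f23_7_0_0, h_f33_7, h_o0, h_o2, h_t23_0_0, h_tzpm_1_0, s3]
              · linarith only [h_f11_0, h_f11_1, h_f11_2, h_f13_2_0_0, h_f13_4, h_f13_5_0_0, h_f23_3_2_0, h_f23_5, h_f23_7_0_0, h_f33_7, h_o0, h_o2, h_t23_0_0, h_tzpm_1_0, s3]
            · rcases h_f23_3 with h_f23_3_0_0 | h_f23_3_1_0 | h_f23_3_2_0
              · linarith only [h_f11_0, h_f11_1, h_f11_2, h_f13_2_0_0, h_f13_4, h_f13_5_0_0, h_f23_1, h_f23_3_0_0, h_f33_0, h_f33_2_1_0, h_f33_7, h_o0, h_o2, h_tzpm_1_0, s3]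
              · rcases h_p11_23B with h_p11_23B_0_0 | h_p11_23B_1_0 | h_p11_23B_2_0 | h_p11_23B_3_0 | h_p11_23B_4_0 | h_p11_23B_5_0
                · linarith only [e0, h_p11_23B_0_0]
                · linarith only [e0, h_o0, h_p11_23B_1_0, h_t23_0_0]
                · linarith only [e0, h_f11_0, h_f11_1, h_f11_2, h_f13_2_0_0, h_f13_4, h_f13_5_0_0, h_f33_7, h_o0, h_o2, h_p11_23B_2_0, h_t23_0_0, h_tzpm_1_0, s3]
                · linarith only [h_f11_0, h_f23_3_1_0, h_o0, h_p11_23B_3_0, h_t23_0_0]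
                · linarith only [h_f11_2, h_f23_7_1_0, h_f33_7, h_o1, h_o2, h_p11_23B_4_0, h_tzpm_1_0, s3]
                · rcases h_f23_10 with h_f23_10_0_0 | h_f23_10_1_0
                  · linarith only [h_b5, h_f23_10_0_0, h_f23_7_1_0, h_f33_7, h_o1, h_p11_23B_5_0, h_t23_0_1, s3]
                  · linarith only [h_f23_10_1_0, h_f33_7, h_o2, h_p11_23B_5_0, s3]
              · linarith only [h_f11_0, h_f11_1, h_f11_2, h_f13_2_0_0, h_f13_4, h_f13_5_0_0, h_f23_1, h_f23_3_2_0, h_f33_7, h_o0, h_o2, h_tzpm_1_0, s3]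
            · linarith only [h_f11_0, h_f11_1, h_f11_2, h_f13_2_0_0, h_f13_4, h_f13_5_0_0, h_f23_5, h_f23_7_2_0, h_f33_7, h_o0, h_o2, h_tzpm_1_0, s3]
          · rcases h_f13_8 with h_f13_8_0_0 | h_f13_8_1_0
            · linarith only [h_f11_0, h_f11_1, h_f11_2, h_f13_2_0_0, h_f13_5_0_0, h_f13_7, h_f13_8_0_0, h_f33_7, h_o0, h_o2, s3]
            · rcases h_tzmp with h_tzmp_0_0 | h_tzmp_1_0 | h_tzmp_2_0 | h_tzmp_3_0
              · rcases h_t12 with ⟨h_t12_0_0, h_t12_0_1⟩ | ⟨h_t12_1_0, h_t12_1_1⟩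
                · linarith only [h_t12_0_1, h_tzmp_0_0]
                · linarith only [h_t12_1_1, h_tzpm_2_0]
              · rcases h_t12 with ⟨h_t12_0_0, h_t12_0_1⟩ | ⟨h_t12_1_0, h_t12_1_1⟩
                · rcases h_p11_13B with h_p11_13B_0_0 | h_p11_13B_1_0 | h_p11_13B_2_0 | h_p11_13B_3_0 | h_p11_13B_4_0 | h_p11_13B_5_0
                  · linarith only [e0, h_p11_13B_0_0]
                  · linarith only [h_p11_13B_1_0, h_t12_0_0]
                  · linarith only [e1, h_o2, h_p11_13B_2_0]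
                  · linarith only [h_f11_0, h_f11_1, h_f13_2_0_0, h_f33_4, h_p11_13B_3_0, h_t12_0_1, h_tzmp_1_0, h_tzpm_2_0, s2]
                  · linarith only [h_f11_0, h_f11_1, h_f13_2_0_0, h_f13_5_0_0, h_f33_4, h_p11_13B_4_0, h_t12_0_1, h_tzmp_1_0, h_tzpm_2_0, s2]
                  · linarith only [h_f13_8_1_0, h_f33_7, h_o2, h_p11_13B_5_0, s3]
                · linarith only [h_t12_1_1, h_tzpm_2_0]
              · linarith only [h_a3, h_t23_0_0, h_tzmp_2_0, h_tzpm_2_0]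
              · linarith only [h_f11_0, h_f11_1, h_f11_2, h_f33_7, h_o2, h_tzmp_3_0, h_tzpm_2_0, s3]
          · linarith only [h_f11_0, h_f11_1, h_f13_2_0_0, h_f13_4, h_f13_5_0_0, h_f33_4, h_o0, h_o2, h_tzpm_3_0, s2]
          · rcases h_p11_13B with h_p11_13B_0_0 | h_p11_13B_1_0 | h_p11_13B_2_0 | h_p11_13B_3_0 | h_p11_13B_4_0 | h_p11_13B_5_0
            · linarith only [e0, h_p11_13B_0_0]
            · linarith only [e0, h_o0, h_p11_13B_1_0]
            · linarith only [e1, h_o2, h_p11_13B_2_0]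
            · rcases h_f23_3 with h_f23_3_0_0 | h_f23_3_1_0 | h_f23_3_2_0
              · rcases h_f23_7 with h_f23_7_0_0 | h_f23_7_1_0 | h_f23_7_2_0
                · linarith only [h_a1, h_a3, h_f23_3_0_0, h_f23_5, h_f23_7_0_0]
                · rcases h_p11_23B with h_p11_23B_0_0 | h_p11_23B_1_0 | h_p11_23B_2_0 | h_p11_23B_3_0 | h_p11_23B_4_0 | h_p11_23B_5_0
                  · linarith only [e0, h_p11_23B_0_0]
                  · linarith only [e0, h_o0, h_p11_23B_1_0, h_t23_0_0]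
                  · linarith only [e0, h_f11_0, h_f33_1, h_o2, h_p11_23B_2_0, s1]
                  · linarith only [h_f11_0, h_f23_3_0_0, h_f33_0, h_p11_23B_3_0, s1]
                  · linarith only [h_f23_1, h_f23_3_0_0, h_f23_7_1_0, h_f33_0, h_f33_2_1_0, h_f33_4, h_p11_23B_4_0, h_tzpm_4_0, s2]
                  · rcases h_f23_10 with h_f23_10_0_0 | h_f23_10_1_0
                    · linarith only [h_f23_10_0_0, h_f23_7_1_0, h_f33_7, h_p11_23B_5_0, h_t23_0_1, h_tzpm_4_1, s3]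
                    · linarith only [h_f23_10_1_0, h_f33_7, h_o2, h_p11_23B_5_0, s3]
                · linarith only [h_a4, h_f23_5, h_f23_7_2_0, h_o2]
              · rcases h_f23_10 with h_f23_10_0_0 | h_f23_10_1_0
                · rcases h_f23_7 with h_f23_7_0_0 | h_f23_7_1_0 | h_f23_7_2_0
                  · linarith only [h_f11_0, h_f11_1, h_f11_2, h_f23_10_0_0, h_f23_3_1_0, h_f23_7_0_0, h_f23_9, h_f33_7, h_o0, h_o2, h_t23_0_0, s3]
                  · linarith only [h_b5, h_f23_10_0_0, h_f23_7_1_0, h_f23_9, h_tzpm_4_0]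
                  · linarith only [h_f11_0, h_f11_1, h_f11_2, h_f13_2_0_0, h_f13_4, h_f13_5_0_0, h_f23_10_0_0, h_f23_7_2_0, h_f23_9, h_f33_7, h_o0, h_o2, s3]
                · rcases h_f23_7 with h_f23_7_0_0 | h_f23_7_1_0 | h_f23_7_2_0
                  · linarith only [h_a3, h_f23_3_1_0, h_f23_5, h_f23_7_0_0, h_t23_0_0]
                  · rcases h_p11_23B with h_p11_23B_0_0 | h_p11_23B_1_0 | h_p11_23B_2_0 | h_p11_23B_3_0 | h_p11_23B_4_0 | h_p11_23B_5_0
                    · linarith only [e0, h_p11_23B_0_0]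
                    · linarith only [h_a0, h_p11_23B_1_0, h_t23_0_0]
                    · linarith only [e0, h_f11_0, h_f33_1, h_o2, h_p11_23B_2_0, s1]
                    · linarith only [h_f11_0, h_f23_3_1_0, h_o0, h_p11_23B_3_0, h_t23_0_0]
                    · rcases h_t12 with ⟨h_t12_0_0, h_t12_0_1⟩ | ⟨h_t12_1_0, h_t12_1_1⟩
                      · linarith only [h_f11_0, h_f11_1, h_f13_2_0_0, h_f23_7_1_0, h_p11_13B_3_0, h_p11_23B_4_0, h_t12_0_1, h_tzpm_4_0]
                      · linarith only [h_f11_0, h_f11_1, h_f23_7_1_0, h_p11_23B_4_0, h_t12_1_1, h_tzpm_4_0]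
                    · linarith only [h_f23_10_1_0, h_f33_7, h_o2, h_p11_23B_5_0, s3]
                  · linarith only [h_a4, h_f23_5, h_f23_7_2_0, h_o2]
              · linarith only [h_a4, h_f23_1, h_f23_3_2_0, h_o2]
            · rcases h_t12 with ⟨h_t12_0_0, h_t12_0_1⟩ | ⟨h_t12_1_0, h_t12_1_1⟩
              · linarith only [h_b3, h_f11_0, h_f11_1, h_f13_2_0_0, h_f13_5_0_0, h_p11_13B_4_0, h_t12_0_1, h_tzpm_4_0]
              · linarith only [h_a3, h_f11_0, h_f11_1, h_f13_2_0_0, h_f13_5_0_0, h_p11_13B_4_0, h_t12_1_1, h_tzpm_4_0]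
            · rcases h_f13_8 with h_f13_8_0_0 | h_f13_8_1_0
              · linarith only [h_a3, h_f13_2_0_0, h_f13_5_0_0, h_f13_8_0_0, h_f33_7, h_p11_13B_5_0, h_t23_0_1, h_tzpm_4_1, s3]
              · linarith only [h_f13_8_1_0, h_f33_7, h_o2, h_p11_13B_5_0, s3]
      · rcases h_f13_8 with h_f13_8_0_0 | h_f13_8_1_0
        · linarith only [h_f11_0, h_f11_1, h_f11_2, h_f13_2_0_0, h_f13_5_0_0, h_f13_7, h_f13_8_0_0, h_f33_7, h_o0, h_o2, s3]
        · rcases h_p11_23B with h_p11_23B_0_0 | h_p11_23B_1_0 | h_p11_23B_2_0 | h_p11_23B_3_0 | h_p11_23B_4_0 | h_p11_23B_5_0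
          · linarith only [e0, h_p11_23B_0_0]
          · linarith only [e0, h_a2, h_o0, h_p11_23B_1_0]
          · linarith only [e0, h_f11_0, h_f33_1, h_o2, h_p11_23B_2_0, s1]
          · rcases h_f23_3 with h_f23_3_0_0 | h_f23_3_1_0 | h_f23_3_2_0
            · linarith only [h_f11_0, h_f23_3_0_0, h_f33_0, h_p11_23B_3_0, s1]
            · rcases h_tzmp with h_tzmp_0_0 | h_tzmp_1_0 | h_tzmp_2_0 | h_tzmp_3_0
              · linarith only [h_b3, h_f11_0, h_f23_3_1_0, h_o0, h_p11_23B_3_0, h_t23_1_0, h_tzmp_0_0]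
              · linarith only [h_f11_0, h_f23_3_1_0, h_f33_1, h_p11_23B_3_0, h_tzmp_1_0, s1]
              · linarith only [h_t23_1_0, h_tzmp_2_0]
              · rcases h_f22_2 with h_f22_2_0_0 | h_f22_2_1_0
                · linarith only [h_f11_0, h_f22_1, h_f22_2_0_0, h_f23_3_1_0, h_f33_0, h_o1, h_p11_23B_3_0, s1]
                · rcases h_p22_33A with h_p22_33A_0_0 | h_p22_33A_1_0 | h_p22_33A_2_0 | h_p22_33A_3_0 | h_p22_33A_4_0
                  · linarith only [e0, h_p22_33A_0_0, h_t23_1_0]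
                  · linarith only [e1, h_p22_33A_1_0]
                  · linarith only [h_a2, h_f22_2_1_0, h_f23_3_1_0, h_p11_23B_3_0, h_p22_33A_2_0, h_t23_1_0, s1]
                  · rcases h_f33_5 with h_f33_5_0_0 | h_f33_5_1_0
                    · rcases h_f22_5 with h_f22_5_0_0 | h_f22_5_1_0
                      · linarith only [h_f11_0, h_f11_1, h_f11_2, h_f22_2_1_0, h_f22_5_0_0, h_f23_3_1_0, h_f33_5_0_0, h_f33_7, h_o2, h_p11_23B_3_0, h_p22_33A_3_0, h_t23_1_0, h_tzmp_3_0, s1, s3]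
                      · linarith only [h_f11_0, h_f11_1, h_f11_2, h_f22_5_1_0, h_f23_3_1_0, h_f33_5_0_0, h_f33_7, h_o2, h_p11_23B_3_0, h_p22_33A_3_0, h_t23_1_0, h_tzmp_3_0, s1, s3]
                    · rcases h_f22_5 with h_f22_5_0_0 | h_f22_5_1_0
                      · linarith only [h_a4, h_f11_0, h_f11_1, h_f22_2_1_0, h_f22_5_0_0, h_f23_3_1_0, h_f33_5_1_0, h_p11_23B_3_0, h_p22_33A_3_0, h_t23_1_0, s2]
                      · linarith only [h_f22_5_1_0, h_f23_3_1_0, h_f33_1, h_f33_5_1_0, h_p11_23B_3_0, h_p22_33A_3_0, h_t23_1_0, s1]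
                  · rcases h_f22_5 with h_f22_5_0_0 | h_f22_5_1_0
                    · linarith only [h_f11_0, h_f11_1, h_f11_2, h_f22_2_1_0, h_f22_4, h_f22_5_0_0, h_f33_7, h_o2, h_t23_1_0, h_tzmp_3_0, s3]
                    · rcases h_f33_8 with h_f33_8_0_0 | h_f33_8_1_0
                      · rcases h_f33_5 with h_f33_5_0_0 | h_f33_5_1_0
                        · linarith only [h_f11_0, h_f11_1, h_f22_5_1_0, h_f22_6, h_f33_5_0_0, h_f33_8_0_0, h_o2, h_p22_33A_4_0, h_t23_1_1, s1, s2]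
                        · linarith only [h_f11_0, h_f11_1, h_f13_2_0_0, h_f13_4, h_f13_5_0_0, h_f22_5_1_0, h_f22_6, h_f33_5_1_0, h_f33_8_0_0, h_o0, h_o2, h_p22_33A_4_0, h_t23_1_1, s2]
                      · linarith only [h_f22_5_1_0, h_f22_6, h_f33_8_1_0, h_o2, h_p22_33A_4_0, h_t23_1_1]
            · linarith only [h_f11_0, h_f23_3_2_0, h_f33_1, h_o2, h_p11_23B_3_0, s1]
          · rcases h_f22_5 with h_f22_5_0_0 | h_f22_5_1_0
            · rcases h_f22_2 with h_f22_2_0_0 | h_f22_2_1_0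
              · linarith only [h_f11_0, h_f11_1, h_f22_2_0_0, h_f22_4, h_f22_5_0_0, h_f33_0, h_f33_3, s1, s2]
              · linarith only [h_b3, h_f22_2_1_0, h_f22_4, h_f22_5_0_0, h_t23_1_0]
            · rcases h_t12 with ⟨h_t12_0_0, h_t12_0_1⟩ | ⟨h_t12_1_0, h_t12_1_1⟩
              · rcases h_f22_2 with h_f22_2_0_0 | h_f22_2_1_0
                · rcases h_tzpm with h_tzpm_0_0 | h_tzpm_1_0 | h_tzpm_2_0 | h_tzpm_3_0 | ⟨h_tzpm_4_0, h_tzpm_4_1⟩
                  · linarith only [h_a1, h_f22_1, h_f22_2_0_0, h_o1, h_tzpm_0_0]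
                  · linarith only [h_o1, h_o2, h_t23_1_1, h_tzpm_1_0]
                  · rcases h_p13_22B with h_p13_22B_0_0 | h_p13_22B_1_0 | h_p13_22B_2_0 | h_p13_22B_3_0 | h_p13_22B_4_0 | h_p13_22B_5_0
                    · linarith only [h_p13_22B_0_0, h_t12_0_0]
                    · linarith only [e0, h_f11_0, h_f11_1, h_f22_1, h_f22_2_0_0, h_f33_0, h_f33_4, h_o2, h_p13_22B_1_0, h_tzpm_2_0, s1, s2]
                    · linarith only [e0, h_f11_0, h_f22_1, h_f22_2_0_0, h_f33_0, h_p13_22B_2_0, s1]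
                    · linarith only [h_f11_0, h_f13_2_0_0, h_f22_2_0_0, h_f33_0, h_o1, h_p13_22B_3_0, h_t12_0_1, h_tzpm_2_0, s1]
                    · rcases h_p22_33A with h_p22_33A_0_0 | h_p22_33A_1_0 | h_p22_33A_2_0 | h_p22_33A_3_0 | h_p22_33A_4_0
                      · linarith only [e0, h_f11_0, h_f22_1, h_f22_2_0_0, h_f33_0, h_p22_33A_0_0, s1]
                      · linarith only [e1, h_p22_33A_1_0]
                      · linarith only [h_b3, h_f11_0, h_f13_2_0_0, h_f13_5_0_0, h_f22_2_0_0, h_f22_5_1_0, h_f33_0, h_p13_22B_4_0, h_p22_33A_2_0, s1]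
                      · linarith only [h_f11_0, h_f11_1, h_f13_2_0_0, h_f13_5_0_0, h_f22_5_1_0, h_p13_22B_4_0, h_p22_33A_3_0, h_t12_0_1, h_tzpm_2_0, s2]
                      · rcases h_f33_8 with h_f33_8_0_0 | h_f33_8_1_0
                        · linarith only [h_f11_0, h_f11_1, h_f11_2, h_f22_5_1_0, h_f22_6, h_f33_8_0_0, h_o2, h_p22_33A_4_0, h_tzpm_2_0, s2, s3]
                        · linarith only [h_f11_0, h_f11_1, h_f11_2, h_f22_5_1_0, h_f22_6, h_f33_8_1_0, h_o2, h_p22_33A_4_0, h_tzpm_2_0, s3]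
                    · linarith only [h_f11_0, h_f11_1, h_f11_2, h_f13_8_1_0, h_f22_5_1_0, h_f22_6, h_f33_7, h_o2, h_p13_22B_5_0, h_tzpm_2_0, s3]
                  · linarith only [h_f11_0, h_f11_1, h_f13_2_0_0, h_f13_4, h_f13_5_0_0, h_f33_4, h_o0, h_o2, h_tzpm_3_0, s2]
                  · rcases h_p11_13B with h_p11_13B_0_0 | h_p11_13B_1_0 | h_p11_13B_2_0 | h_p11_13B_3_0 | h_p11_13B_4_0 | h_p11_13B_5_0
                    · linarith only [e0, h_p11_13B_0_0]
                    · linarith only [h_p11_13B_1_0, h_t12_0_0]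
                    · linarith only [e1, h_o2, h_p11_13B_2_0]
                    · rcases h_f23_3 with h_f23_3_0_0 | h_f23_3_1_0 | h_f23_3_2_0
                      · rcases h_f23_7 with h_f23_7_0_0 | h_f23_7_1_0 | h_f23_7_2_0
                        · linarith only [h_f11_0, h_f11_1, h_f13_2_0_0, h_f23_3_0_0, h_f23_7_0_0, h_f33_0, h_p11_13B_3_0, h_p11_23B_4_0, h_t12_0_1, h_tzpm_4_0, s1]
                        · linarith only [h_f11_0, h_f11_1, h_f13_2_0_0, h_f23_7_1_0, h_p11_13B_3_0, h_p11_23B_4_0, h_t12_0_1, h_tzpm_4_0]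
                        · linarith only [h_a4, h_f23_7_2_0, h_f33_4, h_o2, h_p11_23B_4_0, h_tzpm_4_0, s2]
                      · linarith only [h_f22_1, h_f22_2_0_0, h_f23_0, h_f23_3_1_0, h_tzpm_4_0]
                      · linarith only [h_a4, h_f22_1, h_f22_2_0_0, h_f23_0, h_f23_3_2_0, h_o2, h_tzpm_4_0]
                    · linarith only [h_b3, h_f11_0, h_f11_1, h_f13_2_0_0, h_f13_5_0_0, h_p11_13B_4_0, h_t12_0_1, h_tzpm_4_0]
                    · linarith only [h_f13_8_1_0, h_f33_7, h_o2, h_p11_13B_5_0, s3]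
                · rcases h_p13_22A with h_p13_22A_0_0 | h_p13_22A_1_0 | h_p13_22A_2_0 | h_p13_22A_3_0 | h_p13_22A_4_0 | h_p13_22A_5_0
                  · linarith only [h_p13_22A_0_0, h_t12_0_0]
                  · linarith only [e1, h_o2, h_p13_22A_1_0]
                  · linarith only [e0, h_p13_22A_2_0, h_t23_1_0]
                  · rcases h_f33_5 with h_f33_5_0_0 | h_f33_5_1_0
                    · rcases h_f33_2 with h_f33_2_0_0 | h_f33_2_1_0
                      · rcases h_tzmp with h_tzmp_0_0 | h_tzmp_1_0 | h_tzmp_2_0 | h_tzmp_3_0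
                        · linarith only [h_t12_0_1, h_tzmp_0_0]
                        · linarith only [h_a1, h_f33_2_0_0, h_f33_4, h_f33_5_0_0, h_t12_0_1, h_tzmp_1_0]
                        · linarith only [h_t23_1_0, h_tzmp_2_0]
                        · rcases h_p11_13B with h_p11_13B_0_0 | h_p11_13B_1_0 | h_p11_13B_2_0 | h_p11_13B_3_0 | h_p11_13B_4_0 | h_p11_13B_5_0
                          · linarith only [e0, h_p11_13B_0_0]
                          · linarith only [h_p11_13B_1_0, h_t12_0_0]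
                          · linarith only [e0, h_f11_0, h_f11_1, h_f33_4, h_f33_5_0_0, h_o2, h_p11_13B_2_0, h_t23_1_0, s1, s2]
                          · rcases h_f23_3 with h_f23_3_0_0 | h_f23_3_1_0 | h_f23_3_2_0
                            · rcases h_f23_7 with h_f23_7_0_0 | h_f23_7_1_0 | h_f23_7_2_0
                              · linarith only [h_f11_0, h_f11_1, h_f23_3_0_0, h_f23_7_0_0, h_f33_0, h_f33_3, h_p11_23B_4_0, s1, s2]
                              · linarith only [h_f11_1, h_f13_2_0_0, h_f22_2_1_0, h_f23_1, h_f23_3_0_0, h_f23_7_1_0, h_f33_0, h_p11_13B_3_0, h_p11_23B_4_0, h_p13_22A_3_0, h_t12_0_1, s1]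
                              · linarith only [h_f11_0, h_f11_1, h_f13_2_0_0, h_f22_2_1_0, h_f23_1, h_f23_3_0_0, h_f23_7_2_0, h_f33_0, h_f33_4, h_f33_5_0_0, h_o2, h_p11_13B_3_0, h_p11_23B_4_0, h_p13_22A_3_0, h_t12_0_1, s1]
                            · rcases h_f23_7 with h_f23_7_0_0 | h_f23_7_1_0 | h_f23_7_2_0
                              · linarith only [h_a2, h_f23_3_1_0, h_f23_5, h_f23_7_0_0, h_t12_0_1]
                              · rcases h_p22_33A with h_p22_33A_0_0 | h_p22_33A_1_0 | h_p22_33A_2_0 | h_p22_33A_3_0 | h_p22_33A_4_0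
                                · linarith only [e0, h_p22_33A_0_0, h_t23_1_0]
                                · linarith only [e1, h_p22_33A_1_0]
                                · linarith only [h_a2, h_f11_0, h_f11_2, h_f13_2_0_0, h_f22_2_1_0, h_f23_7_1_0, h_f33_7, h_o2, h_p11_13B_3_0, h_p11_23B_4_0, h_p22_33A_2_0, h_tzmp_3_0, s1, s3]
                                · linarith only [h_f11_0, h_f11_1, h_f11_2, h_f22_5_1_0, h_f23_7_1_0, h_f33_5_0_0, h_f33_7, h_o2, h_p11_23B_4_0, h_p22_33A_3_0, h_tzmp_3_0, s1, s3]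
                                · linarith only [h_f11_2, h_f22_5_1_0, h_f22_6, h_f23_7_1_0, h_o1, h_o2, h_p11_23B_4_0, h_p22_33A_4_0, h_tzmp_3_0, s3]
                              · linarith only [h_f11_0, h_f11_1, h_f23_7_2_0, h_f33_4, h_f33_5_0_0, h_o2, h_p11_23B_4_0, s1, s2]
                            · linarith only [h_a1, h_f23_1, h_f23_3_2_0, h_f33_2_0_0, h_f33_4, h_f33_5_0_0, h_o2, h_t12_0_1]
                          · linarith only [h_f11_0, h_f11_1, h_f11_2, h_f13_2_0_0, h_f13_5_0_0, h_f33_7, h_o0, h_o2, h_p11_13B_4_0, h_tzmp_3_0, s3]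
                          · linarith only [h_f13_8_1_0, h_f33_7, h_o2, h_p11_13B_5_0, s3]
                      · linarith only [h_a2, h_f33_2_1_0, h_f33_4, h_f33_5_0_0, h_t12_0_1]
                    · rcases h_f33_8 with h_f33_8_0_0 | h_f33_8_1_0
                      · linarith only [h_f13_2_0_0, h_f13_4, h_f13_5_0_0, h_f33_5_1_0, h_f33_7, h_f33_8_0_0, h_o1, h_t12_0_1, h_t23_1_1]
                      · rcases h_tzpm with h_tzpm_0_0 | h_tzpm_1_0 | h_tzpm_2_0 | h_tzpm_3_0 | ⟨h_tzpm_4_0, h_tzpm_4_1⟩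
                        · rcases h_f23_3 with h_f23_3_0_0 | h_f23_3_1_0 | h_f23_3_2_0
                          · linarith only [h_a1, h_f23_1, h_f23_3_0_0, h_tzpm_0_0]
                          · rcases h_f23_7 with h_f23_7_0_0 | h_f23_7_1_0 | h_f23_7_2_0
                            · linarith only [h_a2, h_f23_3_1_0, h_f23_5, h_f23_7_0_0, h_t12_0_1]
                            · rcases h_p22_33A with h_p22_33A_0_0 | h_p22_33A_1_0 | h_p22_33A_2_0 | h_p22_33A_3_0 | h_p22_33A_4_0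
                              · linarith only [e0, h_p22_33A_0_0, h_t23_1_0]
                              · linarith only [e1, h_p22_33A_1_0]
                              · rcases h_p11_13B with h_p11_13B_0_0 | h_p11_13B_1_0 | h_p11_13B_2_0 | h_p11_13B_3_0 | h_p11_13B_4_0 | h_p11_13B_5_0
                                · linarith only [e0, h_p11_13B_0_0]
                                · linarith only [h_p11_13B_1_0, h_t12_0_0]
                                · linarith only [e0, h_f11_0, h_f33_1, h_o2, h_p11_13B_2_0, s1]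
                                · linarith only [h_a2, h_f11_1, h_f13_2_0_0, h_f22_2_1_0, h_f23_7_1_0, h_p11_13B_3_0, h_p11_23B_4_0, h_p22_33A_2_0, h_t12_0_1, s1]
                                · linarith only [h_a2, h_b3, h_f11_1, h_f13_2_0_0, h_f13_5_0_0, h_f22_2_1_0, h_p11_13B_4_0, h_p22_33A_2_0, h_t12_0_1, s1]
                                · linarith only [h_f13_8_1_0, h_f33_7, h_o2, h_p11_13B_5_0, s3]
                              · rcases h_p11_13B with h_p11_13B_0_0 | h_p11_13B_1_0 | h_p11_13B_2_0 | h_p11_13B_3_0 | h_p11_13B_4_0 | h_p11_13B_5_0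
                                · linarith only [e0, h_p11_13B_0_0]
                                · linarith only [h_p11_13B_1_0, h_t12_0_0]
                                · linarith only [e1, h_o2, h_p11_13B_2_0]
                                · linarith only [h_f13_2_0_0, h_f22_5_1_0, h_f33_1, h_f33_5_1_0, h_p11_13B_3_0, h_p22_33A_3_0, h_t23_1_0, h_tzpm_0_0, s1]
                                · linarith only [h_f13_2_0_0, h_f13_5_0_0, h_f22_5_1_0, h_p11_13B_4_0, h_p22_33A_3_0, h_t12_0_1, s2]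
                                · linarith only [h_f13_8_1_0, h_f33_7, h_o2, h_p11_13B_5_0, s3]
                              · linarith only [h_f22_5_1_0, h_f22_6, h_f33_8_1_0, h_o2, h_p22_33A_4_0, h_t23_1_1]
                            · linarith only [h_a4, h_f23_5, h_f23_7_2_0, h_o2]
                          · linarith only [h_f13_2_0_0, h_f13_4, h_f13_5_0_0, h_f23_1, h_f23_3_2_0, h_t12_0_1]
                        · linarith only [h_o1, h_o2, h_t23_1_1, h_tzpm_1_0]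
                        · rcases h_p13_22B with h_p13_22B_0_0 | h_p13_22B_1_0 | h_p13_22B_2_0 | h_p13_22B_3_0 | h_p13_22B_4_0 | h_p13_22B_5_0
                          · linarith only [h_p13_22B_0_0, h_t12_0_0]
                          · linarith only [e0, h_f11_0, h_f11_1, h_f33_4, h_o2, h_p13_22B_1_0, h_t23_1_0, h_tzpm_2_0, s2]
                          · linarith only [e0, h_p13_22B_2_0, h_t23_1_0]
                          · linarith only [h_f13_2_0_0, h_f22_2_1_0, h_o0, h_p13_22B_3_0, h_t23_1_0]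
                          · rcases h_p22_33A with h_p22_33A_0_0 | h_p22_33A_1_0 | h_p22_33A_2_0 | h_p22_33A_3_0 | h_p22_33A_4_0
                            · linarith only [e0, h_p22_33A_0_0, h_t23_1_0]
                            · linarith only [e1, h_p22_33A_1_0]
                            · linarith only [h_b3, h_f11_0, h_f13_2_0_0, h_f13_5_0_0, h_f22_2_1_0, h_f22_5_1_0, h_p13_22B_4_0, h_p22_33A_2_0, h_t23_1_0, s1]
                            · linarith only [h_f11_0, h_f11_1, h_f13_2_0_0, h_f13_5_0_0, h_f22_5_1_0, h_p13_22B_4_0, h_p22_33A_3_0, h_t12_0_1, h_tzpm_2_0, s2]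
                            · linarith only [h_f11_0, h_f11_1, h_f11_2, h_f22_5_1_0, h_f22_6, h_f33_8_1_0, h_o2, h_p22_33A_4_0, h_tzpm_2_0, s3]
                          · linarith only [h_f11_0, h_f11_1, h_f11_2, h_f13_8_1_0, h_f22_5_1_0, h_f22_6, h_f33_7, h_o2, h_p13_22B_5_0, h_tzpm_2_0, s3]
                        · linarith only [h_f11_0, h_f11_1, h_f13_2_0_0, h_f13_4, h_f13_5_0_0, h_f33_4, h_o0, h_o2, h_tzpm_3_0, s2]
                        · rcases h_p11_13B with h_p11_13B_0_0 | h_p11_13B_1_0 | h_p11_13B_2_0 | h_p11_13B_3_0 | h_p11_13B_4_0 | h_p11_13B_5_0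
                          · linarith only [e0, h_p11_13B_0_0]
                          · linarith only [h_p11_13B_1_0, h_t12_0_0]
                          · linarith only [e1, h_o2, h_p11_13B_2_0]
                          · rcases h_f23_7 with h_f23_7_0_0 | h_f23_7_1_0 | h_f23_7_2_0
                            · rcases h_f23_3 with h_f23_3_0_0 | h_f23_3_1_0 | h_f23_3_2_0
                              · linarith only [h_b3, h_f11_0, h_f11_1, h_f23_3_0_0, h_f23_7_0_0, h_f33_0, h_p11_23B_4_0, s1]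
                              · linarith only [h_f11_0, h_f11_1, h_f13_2_0_0, h_f23_3_1_0, h_f23_7_0_0, h_p11_13B_3_0, h_p11_23B_4_0, h_t12_0_1, h_t23_1_0, h_tzpm_4_0]
                              · linarith only [h_f11_0, h_f11_1, h_f23_3_2_0, h_f23_7_0_0, h_f33_4, h_o2, h_p11_23B_4_0, h_t23_1_0, s2]
                            · linarith only [h_f11_0, h_f11_1, h_f13_2_0_0, h_f23_7_1_0, h_p11_13B_3_0, h_p11_23B_4_0, h_t12_0_1, h_tzpm_4_0]
                            · linarith only [h_a4, h_f23_7_2_0, h_f33_4, h_o2, h_p11_23B_4_0, h_tzpm_4_0, s2]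
                          · linarith only [h_b3, h_f11_0, h_f11_1, h_f13_2_0_0, h_f13_5_0_0, h_p11_13B_4_0, h_t12_0_1, h_tzpm_4_0]
                          · linarith only [h_f13_8_1_0, h_f33_7, h_o2, h_p11_13B_5_0, s3]
                  · rcases h_f23_3 with h_f23_3_0_0 | h_f23_3_1_0 | h_f23_3_2_0
                    · rcases h_f23_7 with h_f23_7_0_0 | h_f23_7_1_0 | h_f23_7_2_0
                      · linarith only [h_b3, h_f11_0, h_f11_1, h_f23_3_0_0, h_f23_7_0_0, h_f33_0, h_p11_23B_4_0, s1]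
                      · rcases h_p13_22B with h_p13_22B_0_0 | h_p13_22B_1_0 | h_p13_22B_2_0 | h_p13_22B_3_0 | h_p13_22B_4_0 | h_p13_22B_5_0
                        · linarith only [h_p13_22B_0_0, h_t12_0_0]
                        · linarith only [e0, h_f11_0, h_f11_1, h_f13_2_0_0, h_f13_5_0_0, h_f22_5_1_0, h_f23_1, h_f23_3_0_0, h_f23_7_1_0, h_f33_0, h_f33_4, h_o0, h_o2, h_p11_23B_4_0, h_p13_22A_4_0, h_p13_22B_1_0, s1, s2]
                        · linarith only [e0, h_a1, h_f11_0, h_f11_1, h_f23_1, h_f23_3_0_0, h_f23_7_1_0, h_f33_0, h_p11_23B_4_0, h_p13_22B_2_0, h_t12_0_1, s1]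
                        · linarith only [h_f11_0, h_f11_1, h_f13_2_0_0, h_f22_2_1_0, h_f23_1, h_f23_3_0_0, h_f23_7_1_0, h_f33_0, h_o0, h_p11_23B_4_0, h_p13_22B_3_0, h_t12_0_1, s1]
                        · rcases h_p22_33A with h_p22_33A_0_0 | h_p22_33A_1_0 | h_p22_33A_2_0 | h_p22_33A_3_0 | h_p22_33A_4_0
                          · linarith only [e0, h_f11_0, h_f13_2_0_0, h_f13_5_0_0, h_f22_5_1_0, h_f23_1, h_f23_3_0_0, h_f33_0, h_p13_22B_4_0, h_p22_33A_0_0, h_t12_0_1, s1]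
                          · linarith only [e1, h_p22_33A_1_0]
                          · linarith only [h_a1, h_b3, h_f11_0, h_f13_2_0_0, h_f13_5_0_0, h_f22_2_1_0, h_f22_5_1_0, h_f23_1, h_f23_3_0_0, h_p13_22B_4_0, h_p22_33A_2_0, h_t12_0_1, s1]
                          · linarith only [h_f11_0, h_f11_1, h_f13_2_0_0, h_f13_5_0_0, h_f22_5_1_0, h_o0, h_p13_22B_4_0, h_p22_33A_3_0, h_t12_0_1, s2]
                          · rcases h_f33_8 with h_f33_8_0_0 | h_f33_8_1_0
                            · linarith only [h_f11_0, h_f11_1, h_f11_2, h_f13_2_0_0, h_f13_5_0_0, h_f22_5_1_0, h_f22_6, h_f33_8_0_0, h_o0, h_o2, h_p13_22B_4_0, h_p22_33A_4_0, s2, s3]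
                            · linarith only [h_f11_0, h_f11_1, h_f11_2, h_f13_2_0_0, h_f13_5_0_0, h_f22_5_1_0, h_f22_6, h_f33_8_1_0, h_o0, h_o2, h_p13_22B_4_0, h_p22_33A_4_0, s3]
                        · linarith only [h_f11_0, h_f11_1, h_f11_2, h_f13_2_0_0, h_f13_5_0_0, h_f13_8_1_0, h_f22_5_1_0, h_f22_6, h_f23_7_1_0, h_f33_7, h_o0, h_o2, h_p11_23B_4_0, h_p13_22A_4_0, h_p13_22B_5_0, s3]
                      · linarith only [h_b4, h_f23_7_2_0, h_f33_4, h_o2, h_p11_23B_4_0, s2]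
                    · rcases h_f33_8 with h_f33_8_0_0 | h_f33_8_1_0
                      · rcases h_f23_7 with h_f23_7_0_0 | h_f23_7_1_0 | h_f23_7_2_0
                        · linarith only [h_a2, h_f11_0, h_f11_1, h_f23_3_1_0, h_f23_7_0_0, h_f33_7, h_f33_8_0_0, h_o0, h_o2, h_p11_23B_4_0, h_t23_1_1, s2]
                        · linarith only [h_f11_0, h_f11_1, h_f13_2_0_0, h_f13_5_0_0, h_f22_5_1_0, h_f23_7_1_0, h_f33_7, h_f33_8_0_0, h_o0, h_o2, h_p11_23B_4_0, h_p13_22A_4_0, h_t23_1_1, s2]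
                        · linarith only [h_f11_0, h_f11_1, h_f13_2_0_0, h_f13_4, h_f13_5_0_0, h_f23_7_2_0, h_f33_7, h_f33_8_0_0, h_o0, h_o2, h_p11_23B_4_0, h_t23_1_1, s2]
                      · rcases h_f23_7 with h_f23_7_0_0 | h_f23_7_1_0 | h_f23_7_2_0
                        · linarith only [h_a2, h_f23_3_1_0, h_f23_5, h_f23_7_0_0, h_t12_0_1]
                        · rcases h_p13_22B with h_p13_22B_0_0 | h_p13_22B_1_0 | h_p13_22B_2_0 | h_p13_22B_3_0 | h_p13_22B_4_0 | h_p13_22B_5_0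
                          · linarith only [h_p13_22B_0_0, h_t12_0_0]
                          · linarith only [e0, h_f11_0, h_f33_1, h_o2, h_p13_22B_1_0, s1]
                          · linarith only [e0, h_a2, h_f11_0, h_f11_1, h_f23_7_1_0, h_o0, h_p11_23B_4_0, h_p13_22B_2_0, h_t12_0_1]
                          · linarith only [h_f13_2_0_0, h_f22_2_1_0, h_o0, h_p13_22B_3_0, h_t23_1_0]
                          · rcases h_p22_33A with h_p22_33A_0_0 | h_p22_33A_1_0 | h_p22_33A_2_0 | h_p22_33A_3_0 | h_p22_33A_4_0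
                            · linarith only [e0, h_p22_33A_0_0, h_t23_1_0]
                            · linarith only [e1, h_p22_33A_1_0]
                            · linarith only [h_a2, h_b3, h_f11_0, h_f13_2_0_0, h_f13_5_0_0, h_f22_2_1_0, h_f22_5_1_0, h_p13_22B_4_0, h_p22_33A_2_0, h_t12_0_1, s1]
                            · linarith only [h_f11_0, h_f11_1, h_f13_2_0_0, h_f13_5_0_0, h_f22_5_1_0, h_o0, h_p13_22B_4_0, h_p22_33A_3_0, h_t12_0_1, s2]
                            · linarith only [h_f11_0, h_f11_1, h_f11_2, h_f13_2_0_0, h_f13_5_0_0, h_f22_5_1_0, h_f22_6, h_f33_8_1_0, h_o0, h_o2, h_p13_22B_4_0, h_p22_33A_4_0, s3]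
                          · linarith only [h_f11_0, h_f11_1, h_f11_2, h_f13_2_0_0, h_f13_5_0_0, h_f13_8_1_0, h_f22_5_1_0, h_f22_6, h_f23_7_1_0, h_f33_7, h_o0, h_o2, h_p11_23B_4_0, h_p13_22A_4_0, h_p13_22B_5_0, s3]
                        · linarith only [h_a4, h_f11_0, h_f11_1, h_f13_2_0_0, h_f13_5_0_0, h_f22_5_1_0, h_f23_7_2_0, h_f33_4, h_o0, h_o2, h_p11_23B_4_0, h_p13_22A_4_0, s2]
                    · linarith only [h_a4, h_f23_1, h_f23_3_2_0, h_o2]
                  · linarith only [h_f13_8_1_0, h_f22_5_1_0, h_f22_6, h_o2, h_p13_22A_5_0, h_t23_1_1]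
              · rcases h_p22_33A with h_p22_33A_0_0 | h_p22_33A_1_0 | h_p22_33A_2_0 | h_p22_33A_3_0 | h_p22_33A_4_0
                · linarith only [e0, h_p22_33A_0_0, h_t23_1_0]
                · linarith only [e1, h_p22_33A_1_0]
                · rcases h_p11_13B with h_p11_13B_0_0 | h_p11_13B_1_0 | h_p11_13B_2_0 | h_p11_13B_3_0 | h_p11_13B_4_0 | h_p11_13B_5_0
                  · linarith only [e0, h_p11_13B_0_0]
                  · linarith only [e0, h_o0, h_p11_13B_1_0]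
                  · linarith only [e1, h_o2, h_p11_13B_2_0]
                  · rcases h_f22_2 with h_f22_2_0_0 | h_f22_2_1_0
                    · linarith only [h_a1, h_f11_0, h_f13_2_0_0, h_f22_2_0_0, h_p11_13B_3_0, h_p22_33A_2_0, s1]
                    · linarith only [h_f13_2_0_0, h_f22_2_1_0, h_p11_13B_3_0, h_p22_33A_2_0, h_t23_1_0, s1]
                  · linarith only [h_f11_0, h_f11_1, h_f13_2_0_0, h_f13_5_0_0, h_o0, h_p11_13B_4_0, h_t12_1_1]
                  · linarith only [h_f13_8_1_0, h_f33_7, h_o2, h_p11_13B_5_0, s3]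
                · rcases h_f22_2 with h_f22_2_0_0 | h_f22_2_1_0
                  · rcases h_p11_13B with h_p11_13B_0_0 | h_p11_13B_1_0 | h_p11_13B_2_0 | h_p11_13B_3_0 | h_p11_13B_4_0 | h_p11_13B_5_0
                    · linarith only [e0, h_p11_13B_0_0]
                    · linarith only [e0, h_o0, h_p11_13B_1_0]
                    · linarith only [e0, h_a3, h_f11_0, h_f13_2_0_0, h_f13_4, h_f13_5_0_0, h_f22_1, h_f22_2_0_0, h_f33_0, h_o1, h_p11_13B_2_0, s1]
                    · rcases h_p13_22A with h_p13_22A_0_0 | h_p13_22A_1_0 | h_p13_22A_2_0 | h_p13_22A_3_0 | h_p13_22A_4_0 | h_p13_22A_5_0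
                      · linarith only [e0, h_o0, h_p13_22A_0_0]
                      · linarith only [e0, h_f11_0, h_f13_2_0_0, h_f13_4, h_f13_5_0_0, h_f22_1, h_f22_2_0_0, h_f33_0, h_o0, h_p13_22A_1_0, h_t12_1_1, s1]
                      · linarith only [e0, h_f11_0, h_f22_1, h_f22_2_0_0, h_f33_0, h_p13_22A_2_0, s1]
                      · linarith only [h_f11_0, h_f13_2_0_0, h_f22_2_0_0, h_f33_0, h_p11_13B_3_0, h_p13_22A_3_0, s1]
                      · rcases h_f23_7 with h_f23_7_0_0 | h_f23_7_1_0 | h_f23_7_2_0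
                        · rcases h_f23_3 with h_f23_3_0_0 | h_f23_3_1_0 | h_f23_3_2_0
                          · linarith only [h_f11_0, h_f11_1, h_f23_3_0_0, h_f23_7_0_0, h_f33_0, h_p11_23B_4_0, h_t12_1_1, s1]
                          · linarith only [h_a3, h_f11_0, h_f11_1, h_f13_2_0_0, h_f13_5_0_0, h_f22_1, h_f22_2_0_0, h_f22_5_1_0, h_f23_3_1_0, h_f23_7_0_0, h_f33_0, h_p11_23B_4_0, h_p13_22A_4_0, h_t12_1_1, s1]
                          · linarith only [h_f11_0, h_f11_1, h_f22_1, h_f22_2_0_0, h_f23_3_2_0, h_f23_7_0_0, h_f33_0, h_f33_4, h_o2, h_p11_23B_4_0, s1, s2]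
                        · linarith only [h_f11_0, h_f11_1, h_f13_2_0_0, h_f13_5_0_0, h_f22_5_1_0, h_f23_7_1_0, h_o0, h_p11_23B_4_0, h_p13_22A_4_0, h_t12_1_1]
                        · linarith only [h_a4, h_f11_0, h_f11_1, h_f13_2_0_0, h_f13_5_0_0, h_f22_5_1_0, h_f23_7_2_0, h_f33_4, h_o0, h_o2, h_p11_23B_4_0, h_p13_22A_4_0, s2]
                      · linarith only [h_f13_8_1_0, h_f22_5_1_0, h_f22_6, h_o2, h_p13_22A_5_0, h_t23_1_1]
                    · linarith only [h_f11_0, h_f11_1, h_f13_2_0_0, h_f13_5_0_0, h_o0, h_p11_13B_4_0, h_t12_1_1]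
                    · linarith only [h_f11_0, h_f11_1, h_f11_2, h_f13_8_1_0, h_p11_13B_5_0, h_t12_1_1, h_t23_1_1]
                  · rcases h_f23_3 with h_f23_3_0_0 | h_f23_3_1_0 | h_f23_3_2_0
                    · rcases h_f23_7 with h_f23_7_0_0 | h_f23_7_1_0 | h_f23_7_2_0
                      · linarith only [h_f11_0, h_f11_1, h_f23_3_0_0, h_f23_7_0_0, h_f33_0, h_p11_23B_4_0, h_t12_1_1, s1]
                      · rcases h_p13_22A with h_p13_22A_0_0 | h_p13_22A_1_0 | h_p13_22A_2_0 | h_p13_22A_3_0 | h_p13_22A_4_0 | h_p13_22A_5_0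
                        · linarith only [e0, h_o0, h_p13_22A_0_0]
                        · linarith only [e0, h_f11_0, h_f23_1, h_f23_3_0_0, h_f23_7_1_0, h_f33_0, h_f33_4, h_o1, h_o2, h_p11_23B_4_0, h_p13_22A_1_0, s1, s2]
                        · linarith only [e0, h_a1, h_a3, h_f11_0, h_f11_1, h_f23_1, h_f23_3_0_0, h_f23_7_1_0, h_f33_0, h_p11_23B_4_0, h_p13_22A_2_0, s1]
                        · rcases h_f33_5 with h_f33_5_0_0 | h_f33_5_1_0
                          · linarith only [h_f11_1, h_f22_5_1_0, h_f23_7_1_0, h_f33_5_0_0, h_p11_23B_4_0, h_p22_33A_3_0, h_t12_1_1, s1]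
                          · rcases h_p11_13B with h_p11_13B_0_0 | h_p11_13B_1_0 | h_p11_13B_2_0 | h_p11_13B_3_0 | h_p11_13B_4_0 | h_p11_13B_5_0
                            · linarith only [e0, h_p11_13B_0_0]
                            · linarith only [e0, h_f11_0, h_f11_1, h_f13_2_0_0, h_f22_2_1_0, h_f23_1, h_f23_3_0_0, h_f23_7_1_0, h_f33_0, h_p11_13B_1_0, h_p11_23B_4_0, h_p13_22A_3_0, h_t12_1_1, s1]
                            · linarith only [e0, h_f11_0, h_f11_1, h_f13_2_0_0, h_f13_4, h_f13_5_0_0, h_f22_2_1_0, h_f23_1, h_f23_3_0_0, h_f23_7_1_0, h_f33_0, h_p11_13B_2_0, h_p11_23B_4_0, h_p13_22A_3_0, h_t12_1_1, s1]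
                            · linarith only [h_f11_1, h_f13_2_0_0, h_f22_2_1_0, h_f23_1, h_f23_3_0_0, h_f23_7_1_0, h_f33_0, h_p11_13B_3_0, h_p11_23B_4_0, h_p13_22A_3_0, h_t12_1_1, s1]
                            · linarith only [h_f11_1, h_f13_2_0_0, h_f13_5_0_0, h_f22_2_1_0, h_f23_1, h_f23_3_0_0, h_f23_7_1_0, h_f33_0, h_p11_13B_4_0, h_p11_23B_4_0, h_p13_22A_3_0, h_t12_1_1, s1]
                            · linarith only [h_f11_0, h_f11_1, h_f13_2_0_0, h_f13_4, h_f13_5_0_0, h_f13_8_1_0, h_f22_2_1_0, h_f22_5_1_0, h_f23_1, h_f23_3_0_0, h_f23_7_1_0, h_f33_0, h_f33_5_1_0, h_f33_7, h_p11_13B_5_0, h_p11_23B_4_0, h_p13_22A_3_0, h_p22_33A_3_0, h_t12_1_1, s1, s3]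
                        · linarith only [h_f11_0, h_f11_1, h_f13_2_0_0, h_f13_5_0_0, h_f22_5_1_0, h_f23_7_1_0, h_o0, h_p11_23B_4_0, h_p13_22A_4_0, h_t12_1_1]
                        · linarith only [h_f13_8_1_0, h_f22_5_1_0, h_f22_6, h_o2, h_p13_22A_5_0, h_t23_1_1]
                      · linarith only [h_a4, h_f23_5, h_f23_7_2_0, h_o2]
                    · rcases h_p11_13B with h_p11_13B_0_0 | h_p11_13B_1_0 | h_p11_13B_2_0 | h_p11_13B_3_0 | h_p11_13B_4_0 | h_p11_13B_5_0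
                      · linarith only [e0, h_p11_13B_0_0]
                      · linarith only [e0, h_o0, h_p11_13B_1_0]
                      · linarith only [h_a0, h_f13_2_0_0, h_f13_4, h_f13_5_0_0, h_p11_13B_2_0, h_t12_1_1, h_t23_1_0]
                      · rcases h_tzpm with h_tzpm_0_0 | h_tzpm_1_0 | h_tzpm_2_0 | h_tzpm_3_0 | ⟨h_tzpm_4_0, h_tzpm_4_1⟩
                        · rcases h_f33_5 with h_f33_5_0_0 | h_f33_5_1_0
                          · linarith only [h_f11_1, h_f13_2_0_0, h_f22_5_1_0, h_f33_5_0_0, h_p11_13B_3_0, h_p22_33A_3_0, h_t23_1_0, h_tzpm_0_0, s1, s2]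
                          · linarith only [h_f13_2_0_0, h_f22_5_1_0, h_f33_1, h_f33_5_1_0, h_p11_13B_3_0, h_p22_33A_3_0, h_t23_1_0, h_tzpm_0_0, s1]
                        · linarith only [h_o1, h_o2, h_t23_1_1, h_tzpm_1_0]
                        · linarith only [h_t12_1_1, h_tzpm_2_0]
                        · linarith only [h_a4, h_f11_0, h_f11_1, h_f13_2_0_0, h_f13_4, h_f13_5_0_0, h_f22_5_1_0, h_o0, h_o2, h_p22_33A_3_0, h_tzpm_3_0, s2]
                        · rcases h_f23_7 with h_f23_7_0_0 | h_f23_7_1_0 | h_f23_7_2_0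
                          · linarith only [h_f11_0, h_f11_1, h_f23_3_1_0, h_f23_7_0_0, h_p11_23B_4_0, h_t12_1_1, h_t23_1_0, h_tzpm_4_0]
                          · linarith only [h_f11_0, h_f11_1, h_f23_7_1_0, h_p11_23B_4_0, h_t12_1_1, h_tzpm_4_0]
                          · linarith only [h_a4, h_f23_7_2_0, h_f33_4, h_o2, h_p11_23B_4_0, h_tzpm_4_0, s2]
                      · linarith only [h_f11_0, h_f11_1, h_f13_2_0_0, h_f13_5_0_0, h_o0, h_p11_13B_4_0, h_t12_1_1]
                      · linarith only [h_f11_0, h_f11_1, h_f11_2, h_f13_8_1_0, h_p11_13B_5_0, h_t12_1_1, h_t23_1_1]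
                    · linarith only [h_a4, h_f23_1, h_f23_3_2_0, h_o2]
                · rcases h_f33_8 with h_f33_8_0_0 | h_f33_8_1_0
                  · rcases h_f33_5 with h_f33_5_0_0 | h_f33_5_1_0
                    · linarith only [h_f11_0, h_f11_1, h_f22_5_1_0, h_f22_6, h_f33_5_0_0, h_f33_8_0_0, h_o2, h_p22_33A_4_0, h_t23_1_1, s1, s2]
                    · linarith only [h_a4, h_a5, h_f22_5_1_0, h_f22_6, h_f33_5_1_0, h_f33_8_0_0, h_o2, h_p22_33A_4_0, h_t23_1_1]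
                  · linarith only [h_f22_5_1_0, h_f22_6, h_f33_8_1_0, h_o2, h_p22_33A_4_0, h_t23_1_1]
          · rcases h_f23_10 with h_f23_10_0_0 | h_f23_10_1_0
            · rcases h_f23_3 with h_f23_3_0_0 | h_f23_3_1_0 | h_f23_3_2_0
              · rcases h_f23_7 with h_f23_7_0_0 | h_f23_7_1_0 | h_f23_7_2_0
                · linarith only [h_b3, h_f11_0, h_f11_1, h_f11_2, h_f23_10_0_0, h_f23_3_0_0, h_f23_7_0_0, h_f33_0, h_p11_23B_5_0, h_t23_1_1, s1]
                · linarith only [h_b3, h_f11_0, h_f11_1, h_f11_2, h_f23_10_0_0, h_f23_7_1_0, h_o1, h_p11_23B_5_0, h_t23_1_1]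
                · linarith only [h_a4, h_f11_2, h_f23_10_0_0, h_f23_7_2_0, h_f33_4, h_o1, h_o2, h_p11_23B_5_0, h_t23_1_1, s2]
              · rcases h_f23_7 with h_f23_7_0_0 | h_f23_7_1_0 | h_f23_7_2_0
                · linarith only [h_a2, h_a3, h_b3, h_f11_0, h_f11_1, h_f11_2, h_f23_10_0_0, h_f23_3_1_0, h_f23_7_0_0, h_o1, h_p11_23B_5_0, h_t23_1_1]
                · linarith only [h_b3, h_f11_0, h_f11_1, h_f11_2, h_f23_10_0_0, h_f23_7_1_0, h_o1, h_p11_23B_5_0, h_t23_1_1]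
                · linarith only [h_a4, h_f11_2, h_f23_10_0_0, h_f23_7_2_0, h_f33_4, h_o1, h_o2, h_p11_23B_5_0, h_t23_1_1, s2]
              · linarith only [h_a4, h_f23_1, h_f23_3_2_0, h_o2]
            · linarith only [h_f23_10_1_0, h_f33_7, h_o2, h_p11_23B_5_0, s3]
    · rcases h_t23 with ⟨h_t23_0_0, h_t23_0_1⟩ | ⟨h_t23_1_0, h_t23_1_1⟩
      · rcases h_f23_10 with h_f23_10_0_0 | h_f23_10_1_0
        · rcases h_f23_7 with h_f23_7_0_0 | h_f23_7_1_0 | h_f23_7_2_0
          · rcases h_f23_3 with h_f23_3_0_0 | h_f23_3_1_0 | h_f23_3_2_0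
            · linarith only [h_f11_0, h_f11_1, h_f11_2, h_f23_10_0_0, h_f23_3_0_0, h_f23_7_0_0, h_f23_9, h_f33_0, h_f33_7, h_o2, s1, s3]
            · linarith only [h_f11_0, h_f11_1, h_f11_2, h_f23_10_0_0, h_f23_3_1_0, h_f23_7_0_0, h_f23_9, h_f33_7, h_o0, h_o2, h_t23_0_0, s3]
            · linarith only [h_f11_0, h_f11_1, h_f11_2, h_f23_10_0_0, h_f23_3_2_0, h_f23_7_0_0, h_f23_9, h_f33_1, h_f33_7, h_o2, s1, s3]
          · rcases h_f23_3 with h_f23_3_0_0 | h_f23_3_1_0 | h_f23_3_2_0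
            · rcases h_p11_23B with h_p11_23B_0_0 | h_p11_23B_1_0 | h_p11_23B_2_0 | h_p11_23B_3_0 | h_p11_23B_4_0 | h_p11_23B_5_0
              · linarith only [e0, h_p11_23B_0_0]
              · linarith only [e0, h_f11_0, h_f23_1, h_f23_3_0_0, h_f33_0, h_p11_23B_1_0, s1]
              · linarith only [e0, h_f11_0, h_f33_1, h_o2, h_p11_23B_2_0, s1]
              · linarith only [h_f11_0, h_f23_3_0_0, h_f33_0, h_p11_23B_3_0, s1]
              · linarith only [h_f11_2, h_f23_10_0_0, h_f23_7_1_0, h_f23_9, h_f33_7, h_o1, h_o2, h_p11_23B_4_0, s3]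
              · linarith only [h_b5, h_f23_10_0_0, h_f23_7_1_0, h_f33_7, h_o1, h_p11_23B_5_0, h_t23_0_1, s3]
            · rcases h_p11_23B with h_p11_23B_0_0 | h_p11_23B_1_0 | h_p11_23B_2_0 | h_p11_23B_3_0 | h_p11_23B_4_0 | h_p11_23B_5_0
              · linarith only [e0, h_p11_23B_0_0]
              · linarith only [e0, h_o0, h_p11_23B_1_0, h_t23_0_0]
              · linarith only [e0, h_f11_0, h_f33_1, h_o2, h_p11_23B_2_0, s1]
              · linarith only [h_f11_0, h_f23_3_1_0, h_o0, h_p11_23B_3_0, h_t23_0_0]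
              · linarith only [h_f11_2, h_f23_10_0_0, h_f23_7_1_0, h_f23_9, h_f33_7, h_o1, h_o2, h_p11_23B_4_0, s3]
              · linarith only [h_b5, h_f23_10_0_0, h_f23_7_1_0, h_f33_7, h_o1, h_p11_23B_5_0, h_t23_0_1, s3]
            · linarith only [h_a4, h_f23_1, h_f23_3_2_0, h_o2]
          · linarith only [h_a4, h_f23_5, h_f23_7_2_0, h_o2]
        · rcases h_f23_7 with h_f23_7_0_0 | h_f23_7_1_0 | h_f23_7_2_0
          · rcases h_f23_3 with h_f23_3_0_0 | h_f23_3_1_0 | h_f23_3_2_0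
            · linarith only [h_a1, h_a3, h_f23_3_0_0, h_f23_5, h_f23_7_0_0]
            · linarith only [h_a4, h_f13_0, h_f13_3, h_f13_5_1_0, h_f23_3_1_0, h_f23_5, h_f23_7_0_0, h_o2, h_t23_0_0]
            · linarith only [h_a4, h_f13_0, h_f13_3, h_f13_5_1_0, h_f23_3_2_0, h_f23_5, h_f23_7_0_0, h_o2, h_t23_0_0]
          · rcases h_f23_3 with h_f23_3_0_0 | h_f23_3_1_0 | h_f23_3_2_0
            · rcases h_f13_8 with h_f13_8_0_0 | h_f13_8_1_0
              · linarith only [h_a4, h_f13_5_1_0, h_f13_7, h_f13_8_0_0, h_t23_0_1]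
              · rcases h_p11_23B with h_p11_23B_0_0 | h_p11_23B_1_0 | h_p11_23B_2_0 | h_p11_23B_3_0 | h_p11_23B_4_0 | h_p11_23B_5_0
                · linarith only [e0, h_p11_23B_0_0]
                · linarith only [e0, h_o0, h_p11_23B_1_0, h_t23_0_0]
                · linarith only [e0, h_f11_0, h_f33_1, h_o2, h_p11_23B_2_0, s1]
                · linarith only [h_f11_0, h_f23_3_0_0, h_f33_0, h_p11_23B_3_0, s1]
                · rcases h_p13_23A with h_p13_23A_0_0 | h_p13_23A_1_0 | h_p13_23A_2_0 | h_p13_23A_3_0 | h_p13_23A_4_0 | h_p13_23A_5_0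
                  · linarith only [e0, h_o0, h_p13_23A_0_0]
                  · linarith only [e0, h_f11_0, h_f23_1, h_f23_3_0_0, h_f23_7_1_0, h_f33_0, h_f33_4, h_o1, h_o2, h_p11_23B_4_0, h_p13_23A_1_0, s1, s2]
                  · linarith only [e0, h_f11_0, h_f23_1, h_f23_3_0_0, h_f33_0, h_p13_23A_2_0, s1]
                  · rcases h_p11_13B with h_p11_13B_0_0 | h_p11_13B_1_0 | h_p11_13B_2_0 | h_p11_13B_3_0 | h_p11_13B_4_0 | h_p11_13B_5_0
                    · linarith only [e0, h_p11_13B_0_0]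
                    · linarith only [e0, h_f11_0, h_f13_2_0_0, h_f23_3_0_0, h_f33_0, h_p11_13B_1_0, h_p13_23A_3_0, s1]
                    · linarith only [e1, h_o2, h_p11_13B_2_0]
                    · linarith only [h_f11_0, h_f13_2_0_0, h_f23_3_0_0, h_f33_0, h_p11_13B_3_0, h_p13_23A_3_0, s1]
                    · linarith only [h_b4, h_f13_5_1_0, h_f33_4, h_o2, h_p11_13B_4_0, s2]
                    · linarith only [h_f13_8_1_0, h_f33_7, h_o2, h_p11_13B_5_0, s3]
                  · linarith only [h_f13_5_1_0, h_f23_7_1_0, h_f33_4, h_o1, h_o2, h_p11_23B_4_0, h_p13_23A_4_0, s2]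
                  · linarith only [h_f13_8_1_0, h_f23_10_1_0, h_o2, h_p13_23A_5_0]
                · linarith only [h_f23_10_1_0, h_f33_7, h_o2, h_p11_23B_5_0, s3]
            · rcases h_p11_23B with h_p11_23B_0_0 | h_p11_23B_1_0 | h_p11_23B_2_0 | h_p11_23B_3_0 | h_p11_23B_4_0 | h_p11_23B_5_0
              · linarith only [e0, h_p11_23B_0_0]
              · linarith only [e0, h_o0, h_p11_23B_1_0, h_t23_0_0]
              · linarith only [e0, h_f11_0, h_f33_1, h_o2, h_p11_23B_2_0, s1]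
              · linarith only [h_f11_0, h_f23_3_1_0, h_o0, h_p11_23B_3_0, h_t23_0_0]
              · rcases h_tpmz with h_tpmz_0_0 | h_tpmz_1_0 | h_tpmz_2_0 | h_tpmz_3_0 | h_tpmz_4_0 | h_tpmz_5_0
                · linarith only [e0, h_o0, h_tpmz_0_0]
                · linarith only [h_f11_0, h_f11_1, h_f13_0, h_f13_3, h_f13_5_1_0, h_f23_7_1_0, h_f33_4, h_o0, h_o2, h_p11_23B_4_0, h_tpmz_1_0, s2]
                · linarith only [h_f23_7_1_0, h_f33_4, h_o1, h_p11_23B_4_0, h_tpmz_2_0, s2]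
                · linarith only [h_f11_0, h_f33_0, h_tpmz_3_0, s1]
                · linarith only [h_f11_0, h_f11_1, h_f13_0, h_f13_3, h_f13_5_1_0, h_f23_7_1_0, h_f33_4, h_o0, h_o2, h_p11_23B_4_0, h_t23_0_0, h_tpmz_4_0, s2]
                · linarith only [h_f11_2, h_f23_7_1_0, h_f33_7, h_o1, h_p11_23B_4_0, h_t23_0_1, h_tpmz_5_0, s3]
              · linarith only [h_f23_10_1_0, h_f33_7, h_o2, h_p11_23B_5_0, s3]
            · linarith only [h_a4, h_f23_1, h_f23_3_2_0, h_o2]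
          · linarith only [h_a4, h_f23_5, h_f23_7_2_0, h_o2]
      · rcases h_f22_2 with h_f22_2_0_0 | h_f22_2_1_0
        · rcases h_f23_7 with h_f23_7_0_0 | h_f23_7_1_0 | h_f23_7_2_0
          · rcases h_f23_3 with h_f23_3_0_0 | h_f23_3_1_0 | h_f23_3_2_0
            · linarith only [h_a1, h_a3, h_f23_3_0_0, h_f23_5, h_f23_7_0_0]
            · linarith only [h_a1, h_f11_0, h_f11_1, h_f13_0, h_f13_3, h_f13_5_1_0, h_f22_1, h_f22_2_0_0, h_f23_3_1_0, h_f23_5, h_f23_7_0_0, h_f33_0, h_f33_4, h_o2, s1, s2]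
            · linarith only [h_a1, h_a4, h_f11_0, h_f11_1, h_f13_0, h_f13_3, h_f13_5_1_0, h_f22_1, h_f22_2_0_0, h_f23_3_2_0, h_f23_5, h_f23_7_0_0, h_f33_0, h_f33_4, h_o2, s1, s2]
          · rcases h_f23_10 with h_f23_10_0_0 | h_f23_10_1_0
            · linarith only [h_f23_10_0_0, h_f23_7_1_0, h_f23_9, h_o1, h_t23_1_1]
            · rcases h_f13_8 with h_f13_8_0_0 | h_f13_8_1_0
              · linarith only [h_a4, h_f13_5_1_0, h_f13_7, h_f13_8_0_0, h_o1, h_o2, h_t23_1_1]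
              · rcases h_p11_22B with h_p11_22B_0_0 | h_p11_22B_1_0 | h_p11_22B_2_0 | h_p11_22B_3_0 | h_p11_22B_4_0
                · linarith only [e0, h_p11_22B_0_0]
                · linarith only [e0, h_p11_22B_1_0, h_t23_1_0]
                · linarith only [h_f11_0, h_f22_2_0_0, h_f33_0, h_p11_22B_2_0, s1]
                · rcases h_f22_5 with h_f22_5_0_0 | h_f22_5_1_0
                  · linarith only [h_a1, h_f11_0, h_f11_1, h_f13_0, h_f13_3, h_f13_5_1_0, h_f22_2_0_0, h_f22_4, h_f22_5_0_0, h_f33_0, h_f33_4, h_o2, s1, s2]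
                  · rcases h_p11_13B with h_p11_13B_0_0 | h_p11_13B_1_0 | h_p11_13B_2_0 | h_p11_13B_3_0 | h_p11_13B_4_0 | h_p11_13B_5_0
                    · linarith only [e0, h_p11_13B_0_0]
                    · linarith only [e0, h_o0, h_p11_13B_1_0]
                    · linarith only [e0, h_a4, h_f11_0, h_f22_1, h_f22_2_0_0, h_f33_0, h_o1, h_o2, h_p11_13B_2_0, s1]
                    · rcases h_p13_22A with h_p13_22A_0_0 | h_p13_22A_1_0 | h_p13_22A_2_0 | h_p13_22A_3_0 | h_p13_22A_4_0 | h_p13_22A_5_0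
                      · linarith only [e0, h_o0, h_p13_22A_0_0]
                      · linarith only [e1, h_o2, h_p13_22A_1_0]
                      · linarith only [e0, h_f11_0, h_f22_1, h_f22_2_0_0, h_f33_0, h_p13_22A_2_0, s1]
                      · linarith only [h_f11_0, h_f13_2_0_0, h_f22_2_0_0, h_f33_0, h_p11_13B_3_0, h_p13_22A_3_0, s1]
                      · rcases h_p11_23B with h_p11_23B_0_0 | h_p11_23B_1_0 | h_p11_23B_2_0 | h_p11_23B_3_0 | h_p11_23B_4_0 | h_p11_23B_5_0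
                        · linarith only [e0, h_p11_23B_0_0]
                        · linarith only [e0, h_f11_0, h_f13_5_1_0, h_f22_1, h_f22_2_0_0, h_f22_5_1_0, h_f33_0, h_f33_4, h_o2, h_p11_22B_3_0, h_p11_23B_1_0, h_p13_22A_4_0, s1, s2]
                        · linarith only [e0, h_f11_0, h_f22_1, h_f22_2_0_0, h_f22_5_1_0, h_f33_0, h_f33_4, h_o2, h_p11_22B_3_0, h_p11_23B_2_0, s1, s2]
                        · rcases h_f23_3 with h_f23_3_0_0 | h_f23_3_1_0 | h_f23_3_2_0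
                          · linarith only [h_f11_0, h_f23_3_0_0, h_f33_0, h_p11_23B_3_0, s1]
                          · linarith only [h_a4, h_f11_0, h_f13_5_1_0, h_f22_1, h_f22_2_0_0, h_f22_5_1_0, h_f23_3_1_0, h_f33_0, h_o2, h_p11_23B_3_0, h_p13_22A_4_0, s1]
                          · linarith only [h_a4, h_f11_0, h_f13_5_1_0, h_f22_1, h_f22_2_0_0, h_f22_5_1_0, h_f23_3_2_0, h_f33_0, h_o2, h_p11_23B_3_0, h_p13_22A_4_0, s1]
                        · linarith only [h_f13_5_1_0, h_f22_5_1_0, h_f23_7_1_0, h_f33_4, h_o2, h_p11_23B_4_0, h_p13_22A_4_0, s2]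
                        · linarith only [h_f23_10_1_0, h_f33_7, h_o2, h_p11_23B_5_0, s3]
                      · linarith only [h_f13_8_1_0, h_f22_5_1_0, h_f22_6, h_o2, h_p13_22A_5_0, h_t23_1_1]
                    · linarith only [h_a4, h_f13_5_1_0, h_f33_4, h_o1, h_o2, h_p11_13B_4_0, s2]
                    · linarith only [h_f13_8_1_0, h_f33_7, h_o2, h_p11_13B_5_0, s3]
                · rcases h_f22_5 with h_f22_5_0_0 | h_f22_5_1_0
                  · linarith only [h_f11_0, h_f11_1, h_f11_2, h_f22_2_0_0, h_f22_5_0_0, h_f22_6, h_f33_0, h_f33_7, h_o2, h_p11_22B_4_0, s1, s3]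
                  · linarith only [h_f22_5_1_0, h_f22_6, h_f33_7, h_o2, h_p11_22B_4_0, h_t23_1_1, s3]
          · linarith only [h_a4, h_f23_5, h_f23_7_2_0, h_o2]
        · rcases h_f22_5 with h_f22_5_0_0 | h_f22_5_1_0
          · linarith only [h_a2, h_a4, h_f13_0, h_f13_3, h_f13_5_1_0, h_f22_2_1_0, h_f22_4, h_f22_5_0_0, h_o2]
          · rcases h_f23_3 with h_f23_3_0_0 | h_f23_3_1_0 | h_f23_3_2_0
            · rcases h_f13_8 with h_f13_8_0_0 | h_f13_8_1_0
              · linarith only [h_a4, h_f13_5_1_0, h_f13_7, h_f13_8_0_0, h_o1, h_o2, h_t23_1_1]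
              · rcases h_p11_22B with h_p11_22B_0_0 | h_p11_22B_1_0 | h_p11_22B_2_0 | h_p11_22B_3_0 | h_p11_22B_4_0
                · linarith only [e0, h_p11_22B_0_0]
                · linarith only [e0, h_p11_22B_1_0, h_t23_1_0]
                · rcases h_f23_7 with h_f23_7_0_0 | h_f23_7_1_0 | h_f23_7_2_0
                  · linarith only [h_a1, h_a4, h_f13_0, h_f13_3, h_f13_5_1_0, h_f23_3_0_0, h_f23_5, h_f23_7_0_0, h_o2]
                  · rcases h_f23_10 with h_f23_10_0_0 | h_f23_10_1_0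
                    · linarith only [h_f11_0, h_f22_2_1_0, h_f23_1, h_f23_10_0_0, h_f23_3_0_0, h_f23_7_1_0, h_f23_9, h_f33_0, h_p11_22B_2_0, h_t23_1_1, s1]
                    · rcases h_p11_23B with h_p11_23B_0_0 | h_p11_23B_1_0 | h_p11_23B_2_0 | h_p11_23B_3_0 | h_p11_23B_4_0 | h_p11_23B_5_0
                      · linarith only [e0, h_p11_23B_0_0]
                      · linarith only [e0, h_f11_0, h_f23_1, h_f23_3_0_0, h_f33_0, h_p11_23B_1_0, s1]
                      · linarith only [e0, h_a4, h_f11_0, h_f23_1, h_f23_3_0_0, h_f33_0, h_o2, h_p11_23B_2_0, s1]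
                      · linarith only [h_f11_0, h_f23_3_0_0, h_f33_0, h_p11_23B_3_0, s1]
                      · linarith only [h_a1, h_f11_1, h_f13_0, h_f13_3, h_f13_5_1_0, h_f22_2_1_0, h_f23_1, h_f23_3_0_0, h_f23_7_1_0, h_f33_0, h_f33_4, h_o2, h_p11_22B_2_0, h_p11_23B_4_0, s1, s2]
                      · linarith only [h_f23_10_1_0, h_f33_7, h_o2, h_p11_23B_5_0, s3]
                  · linarith only [h_a4, h_f23_5, h_f23_7_2_0, h_o2]
                · rcases h_p11_13B with h_p11_13B_0_0 | h_p11_13B_1_0 | h_p11_13B_2_0 | h_p11_13B_3_0 | h_p11_13B_4_0 | h_p11_13B_5_0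
                  · linarith only [e0, h_p11_13B_0_0]
                  · linarith only [e0, h_o0, h_p11_13B_1_0]
                  · linarith only [e0, h_a4, h_f11_0, h_f23_1, h_f23_3_0_0, h_f33_0, h_o2, h_p11_13B_2_0, s1]
                  · rcases h_p11_23B with h_p11_23B_0_0 | h_p11_23B_1_0 | h_p11_23B_2_0 | h_p11_23B_3_0 | h_p11_23B_4_0 | h_p11_23B_5_0
                    · linarith only [e0, h_p11_23B_0_0]
                    · linarith only [e0, h_f11_0, h_f23_1, h_f23_3_0_0, h_f33_0, h_p11_23B_1_0, s1]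
                    · linarith only [e0, h_a4, h_f11_0, h_f23_1, h_f23_3_0_0, h_f33_0, h_o2, h_p11_23B_2_0, s1]
                    · linarith only [h_f11_0, h_f23_3_0_0, h_f33_0, h_p11_23B_3_0, s1]
                    · rcases h_tmzp with h_tmzp_0_0 | h_tmzp_1_0 | h_tmzp_2_0 | h_tmzp_3_0 | h_tmzp_4_0 | h_tmzp_5_0
                      · linarith only [h_f11_0, h_f13_2_0_0, h_f33_0, h_p11_13B_3_0, h_tmzp_0_0, s1]
                      · linarith only [h_a1, h_f23_1, h_f23_3_0_0, h_tmzp_1_0]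
                      · rcases h_f23_7 with h_f23_7_0_0 | h_f23_7_1_0 | h_f23_7_2_0
                        · linarith only [h_a4, h_f11_0, h_f13_3, h_f13_5_1_0, h_f23_3_0_0, h_f23_5, h_f23_7_0_0, h_f33_0, h_o2, h_p11_13B_3_0, s1]
                        · linarith only [h_f23_7_1_0, h_f33_4, h_o1, h_p11_23B_4_0, h_tmzp_2_0, s2]
                        · linarith only [h_b4, h_f23_7_2_0, h_f33_4, h_o2, h_p11_23B_4_0, s2]
                      · linarith only [e0, h_tmzp_3_0]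
                      · linarith only [h_f11_0, h_f11_1, h_f13_3, h_f13_5_1_0, h_f33_4, h_o2, h_p11_13B_3_0, h_tmzp_4_0, s2]
                      · linarith only [h_t23_1_1, h_tmzp_5_0]
                    · rcases h_f23_10 with h_f23_10_0_0 | h_f23_10_1_0
                      · rcases h_f23_7 with h_f23_7_0_0 | h_f23_7_1_0 | h_f23_7_2_0
                        · linarith only [h_f11_0, h_f11_1, h_f11_2, h_f23_10_0_0, h_f23_3_0_0, h_f23_7_0_0, h_f33_0, h_f33_7, h_o2, h_p11_23B_5_0, s1, s3]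
                        · linarith only [h_f23_10_0_0, h_f23_7_1_0, h_f33_7, h_o1, h_o2, h_p11_23B_5_0, h_t23_1_1, s3]
                        · linarith only [h_a4, h_f11_2, h_f23_10_0_0, h_f23_7_2_0, h_f33_4, h_o1, h_o2, h_p11_23B_5_0, h_t23_1_1, s2]
                      · linarith only [h_f23_10_1_0, h_f33_7, h_o2, h_p11_23B_5_0, s3]
                  · linarith only [h_f13_5_1_0, h_f22_5_1_0, h_f33_4, h_o2, h_p11_13B_4_0, h_p11_22B_3_0, s2]
                  · linarith only [h_f13_8_1_0, h_f33_7, h_o2, h_p11_13B_5_0, s3]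
                · linarith only [h_f22_5_1_0, h_f22_6, h_f33_7, h_o2, h_p11_22B_4_0, h_t23_1_1, s3]
            · rcases h_f23_7 with h_f23_7_0_0 | h_f23_7_1_0 | h_f23_7_2_0
              · linarith only [h_b3, h_f23_3_1_0, h_f23_5, h_f23_7_0_0, h_t23_1_0]
              · rcases h_f23_10 with h_f23_10_0_0 | h_f23_10_1_0
                · linarith only [h_f23_10_0_0, h_f23_7_1_0, h_f23_9, h_o1, h_t23_1_1]
                · rcases h_p11_13B with h_p11_13B_0_0 | h_p11_13B_1_0 | h_p11_13B_2_0 | h_p11_13B_3_0 | h_p11_13B_4_0 | h_p11_13B_5_0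
                  · linarith only [e0, h_p11_13B_0_0]
                  · linarith only [e0, h_o0, h_p11_13B_1_0]
                  · linarith only [e0, h_f11_0, h_f33_1, h_o2, h_p11_13B_2_0, s1]
                  · rcases h_f33_8 with h_f33_8_0_0 | h_f33_8_1_0
                    · rcases h_f33_5 with h_f33_5_0_0 | h_f33_5_1_0
                      · linarith only [h_f11_0, h_f11_1, h_f33_5_0_0, h_f33_7, h_f33_8_0_0, h_o2, h_t23_1_1, s1, s2]
                      · linarith only [h_b4, h_f33_5_1_0, h_f33_7, h_f33_8_0_0, h_t23_1_1]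
                    · rcases h_f33_5 with h_f33_5_0_0 | h_f33_5_1_0
                      · linarith only [h_f11_0, h_f13_3, h_f13_5_1_0, h_f33_4, h_f33_5_0_0, h_o2, h_p11_13B_3_0, s1]
                      · rcases h_p11_33B with h_p11_33B_0_0 | h_p11_33B_1_0 | h_p11_33B_2_0 | h_p11_33B_3_0 | h_p11_33B_4_0
                        · linarith only [e0, h_p11_33B_0_0]
                        · linarith only [e1, h_p11_33B_1_0]
                        · linarith only [h_f11_0, h_p11_33B_2_0, s1]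
                        · linarith only [h_a4, h_f33_5_1_0, h_o1, h_p11_33B_3_0, s2]
                        · rcases h_tmzp with h_tmzp_0_0 | h_tmzp_1_0 | h_tmzp_2_0 | h_tmzp_3_0 | h_tmzp_4_0 | h_tmzp_5_0
                          · linarith only [h_f11_0, h_f13_2_0_0, h_f33_0, h_p11_13B_3_0, h_tmzp_0_0, s1]
                          · linarith only [h_f11_0, h_f11_1, h_f11_2, h_f13_2_0_0, h_f13_3, h_f13_5_1_0, h_f33_1, h_f33_8_1_0, h_o1, h_p11_13B_3_0, h_p11_33B_4_0, h_t23_1_1, h_tmzp_1_0, s1]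
                          · rcases h_p11_23B with h_p11_23B_0_0 | h_p11_23B_1_0 | h_p11_23B_2_0 | h_p11_23B_3_0 | h_p11_23B_4_0 | h_p11_23B_5_0
                            · linarith only [e0, h_p11_23B_0_0]
                            · linarith only [e0, h_f11_0, h_f33_1, h_p11_23B_1_0, h_tmzp_2_0, s1]
                            · linarith only [e0, h_f11_0, h_f33_1, h_o2, h_p11_23B_2_0, s1]
                            · linarith only [h_f11_0, h_f23_3_1_0, h_f33_1, h_p11_23B_3_0, h_tmzp_2_0, s1]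
                            · linarith only [h_f23_7_1_0, h_f33_4, h_o1, h_p11_23B_4_0, h_tmzp_2_0, s2]
                            · linarith only [h_a3, h_f11_0, h_f11_1, h_f11_2, h_f13_2_0_0, h_f23_10_1_0, h_f33_4, h_p11_13B_3_0, h_p11_23B_5_0, h_t23_1_1, h_tmzp_2_0, s2]
                          · linarith only [e0, h_tmzp_3_0]
                          · linarith only [h_f11_0, h_f11_1, h_f13_3, h_f13_5_1_0, h_f33_4, h_o2, h_p11_13B_3_0, h_tmzp_4_0, s2]
                          · linarith only [h_t23_1_1, h_tmzp_5_0]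
                  · linarith only [h_a4, h_f13_5_1_0, h_f33_4, h_o1, h_o2, h_p11_13B_4_0, s2]
                  · rcases h_f13_8 with h_f13_8_0_0 | h_f13_8_1_0
                    · linarith only [h_a4, h_a5, h_f11_2, h_f13_5_1_0, h_f13_8_0_0, h_f33_4, h_o2, h_p11_13B_5_0, h_t23_1_1, s2]
                    · linarith only [h_f13_8_1_0, h_f33_7, h_o2, h_p11_13B_5_0, s3]
              · linarith only [h_a4, h_f23_5, h_f23_7_2_0, h_o2]
            · linarith only [h_a4, h_f23_1, h_f23_3_2_0, h_o2]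
  · linarith only [h_a2, h_a4, h_f13_0, h_f13_2_1_0, h_o2]

theorem c0_11_23_33_k3 {n1 n2 n3 A1 A2 A3 B1 B2 B3 m11_1 m11_2 m11_3 m13_1 m13_2 m13_3 m22_1 m22_2 m22_3 m23_1 m23_2 m23_3 m33_1 m33_2 m33_3 : ℤ}
    (C : Ctx0 n1 n2 n3 A1 A2 A3 B1 B2 B3 m11_1 m11_2 m11_3 m13_1 m13_2 m13_3 m22_1 m22_2 m22_3 m23_1 m23_2 m23_3 m33_1 m33_2 m33_3)
    (e0 : 0 < B1)
    (e1 : 0 < A2)
    (e2 : 0 < B3)
    (e3 : 0 < A3)
    (s1 : 3 * A1 + 0 * B1 ≤ m11_1 + m23_1 + m33_1)
    (s2 : 3 * A2 + 0 * B2 ≤ m11_2 + m23_2 + m33_2)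
    (s3 : 3 * A3 + 0 * B3 ≤ m11_3 + m23_3 + m33_3) : F1 n1 n2 n3 A1 A2 A3 B1 B2 B3 ∨ F2 n1 n2 n3 A1 A2 A3 B1 B2 B3 := by
  by_contra hF
  have nF1 : ¬ F1 n1 n2 n3 A1 A2 A3 B1 B2 B3 := fun h => hF (Or.inl h)
  have nF2 : ¬ F2 n1 n2 n3 A1 A2 A3 B1 B2 B3 := fun h => hF (Or.inr h)
  unfold F1 at nF1
  unfold F2 at nF2
  have h_nF1 : (n1 ≤ A1) ∨ (2 * A1 ≤ n1) ∨ (n2 ≤ 2) ∨ (2 * A1 + n3 ≤ 2 * n1 + 2) ∨ (A2 + 2 ≤ A1 + n2) ∨ (A1 + n2 ≤ A2) ∨ (A3 + n1 + 2 ≤ A2 + n3 + A1) ∨ (A2 + n3 + A1 ≤ A3 + n1) ∨ (B1 + n1 + 1 ≤ 2 * A1) ∨ (2 * A1 + 1 ≤ B1 + n1) ∨ (B2 + 2 ≤ B1 + n2) ∨ (B1 + n2 ≤ B2) ∨ (B3 + 1 ≤ B2 + n3) ∨ (B2 + n3 + 1 ≤ B3) := by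
    have t := nF1
    clear s1 s2 s3
    omega
  have h_t12 : (1 ≤ A1 ∧ A2 + 1 ≤ A1 + n2) ∨ (1 ≤ B1 ∧ B2 + 1 ≤ B1 + n2) := by
    have t := C.t12
    clear s1 s2 s3
    omega
  have h_f13_2 : (m13_1 + 1 = A1) ∨ (m13_1 + 1 = B3) := by
    have t := C.f13_2
    clear s1 s2 s3
    omega
  have h_f13_5 : (m13_2 = m13_1 + n2) ∨ (m13_2 + 1 = B3) := by
    have t := C.f13_5
    clear s1 s2 s3
    omega
  have h_f13_8 : (m13_3 = m13_2 + n3) ∨ (m13_3 + 1 = B3) := by
    have t := C.f13_8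
    clear s1 s2 s3
    omega
  have h_f22_2 : (m22_1 = n1) ∨ (m22_1 + 1 = B2) := by
    have t := C.f22_2
    clear s1 s2 s3
    omega
  have h_f22_5 : (m22_2 = m22_1 + n2) ∨ (m22_2 + 1 = B2) := by
    have t := C.f22_5
    clear s1 s2 s3
    omega
  have h_f23_3 : (m23_1 = n1) ∨ (m23_1 + 1 = A2) ∨ (m23_1 + 1 = B3) := by
    have t := C.f23_3
    clear s1 s2 s3
    omega
  have h_f23_7 : (m23_2 = m23_1 + n2) ∨ (m23_2 + 1 = A2) ∨ (m23_2 + 1 = B3) := by
    have t := C.f23_7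
    clear s1 s2 s3
    omega
  have h_f23_10 : (m23_3 = m23_2 + n3) ∨ (m23_3 + 1 = B3) := by
    have t := C.f23_10
    clear s1 s2 s3
    omega
  have h_f33_2 : (m33_1 = n1) ∨ (m33_1 + 1 = A3) := by
    have t := C.f33_2
    clear s1 s2 s3
    omega
  have h_f33_5 : (m33_2 = m33_1 + n2) ∨ (m33_2 + 1 = A3) := by
    have t := C.f33_5
    clear s1 s2 s3
    omega
  have h_f33_8 : (m33_3 = m33_2 + n3) ∨ (m33_3 + 1 = A3) := by
    have t := C.f33_8
    clear s1 s2 s3
    omega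
  have h_p11_22B : (B1 ≤ 0) ∨ (B2 ≤ 0) ∨ (m11_1 + m22_1 + 1 ≤ 2 * B1) ∨ (m11_2 + m22_2 + 1 ≤ 2 * B2) ∨ (m11_3 + m22_3 + 1 ≤ 2 * B3) := by
    have t := C.p11_22B
    clear s1 s2 s3
    omega
  have h_p11_23A : (B1 ≤ 0) ∨ (A2 ≤ 0) ∨ (B3 ≤ 0) ∨ (m11_1 + m23_1 + 1 ≤ 2 * A1) ∨ (m11_2 + m23_2 + 1 ≤ 2 * A2) ∨ (m11_3 + m23_3 + 1 ≤ 2 * A3) := by
    have t := C.p11_23A
    clear s1 s2 s3
    omega
  have h_p11_33A : (B1 ≤ 0) ∨ (A3 ≤ 0) ∨ (m11_1 + m33_1 + 1 ≤ 2 * A1) ∨ (m11_2 + m33_2 + 1 ≤ 2 * A2) ∨ (m11_3 + m33_3 + 1 ≤ 2 * A3) := by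
    have t := C.p11_33A
    clear s1 s2 s3
    omega
  have h_p11_33B : (B1 ≤ 0) ∨ (A3 ≤ 0) ∨ (m11_1 + m33_1 + 1 ≤ 2 * B1) ∨ (m11_2 + m33_2 + 1 ≤ 2 * B2) ∨ (m11_3 + m33_3 + 1 ≤ 2 * B3) := by
    have t := C.p11_33B
    clear s1 s2 s3
    omega
  have h_p13_22A : (A1 ≤ 0) ∨ (B3 ≤ 0) ∨ (B2 ≤ 0) ∨ (m13_1 + m22_1 + 1 ≤ 2 * A1) ∨ (m13_2 + m22_2 + 1 ≤ 2 * A2) ∨ (m13_3 + m22_3 + 1 ≤ 2 * A3) := by
    have t := C.p13_22A
    clear s1 s2 s3
    omega
  have h_p13_23A : (A1 ≤ 0) ∨ (B3 ≤ 0) ∨ (A2 ≤ 0) ∨ (m13_1 + m23_1 + 1 ≤ 2 * A1) ∨ (m13_2 + m23_2 + 1 ≤ 2 * A2) ∨ (m13_3 + m23_3 + 1 ≤ 2 * A3) := by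
    have t := C.p13_23A
    clear s1 s2 s3
    omega
  have h_p13_33A : (A1 ≤ 0) ∨ (B3 ≤ 0) ∨ (A3 ≤ 0) ∨ (m13_1 + m33_1 + 1 ≤ 2 * A1) ∨ (m13_2 + m33_2 + 1 ≤ 2 * A2) ∨ (m13_3 + m33_3 + 1 ≤ 2 * A3) := by
    have t := C.p13_33A
    clear s1 s2 s3
    omega
  have h_p22_33A : (B2 ≤ 0) ∨ (A3 ≤ 0) ∨ (m22_1 + m33_1 + 1 ≤ 2 * A1) ∨ (m22_2 + m33_2 + 1 ≤ 2 * A2) ∨ (m22_3 + m33_3 + 1 ≤ 2 * A3) := by
    have t := C.p22_33A
    clear s1 s2 s3
    omega
  have h_tmpp : (n1 ≤ A1) ∨ (A2 ≤ A1 + 1) ∨ (B1 ≤ 0) ∨ (B1 + n2 ≤ B2 + 1) := by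
    have t := C.tmpp
    clear s1 s2 s3
    omega
  have h_tzpm : (A2 ≤ A1) ∨ (A2 + n3 ≤ A3 + 1) ∨ (B1 + n2 ≤ B2) ∨ (B3 ≤ B2 + 1) ∨ (B2 + 1 ≤ A2 ∧ B3 ≤ A3 + 1) := by
    have t := C.tzpm
    clear s1 s2 s3
    omega
  have h_a1 := C.a1
  have h_a2 := C.a2
  have h_a3 := C.a3
  have h_a4 := C.a4
  have h_a5 := C.a5
  have h_b1 := C.b1
  have h_b2 := C.b2
  have h_b3 := C.b3
  have h_b5 := C.b5
  have h_o0 := C.o0
  have h_o1 := C.o1
  have h_o2 := C.o2
  have h_f11_0 := C.f11_0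
  have h_f11_1 := C.f11_1
  have h_f11_2 := C.f11_2
  have h_f13_0 := C.f13_0
  have h_f13_3 := C.f13_3
  have h_f13_4 := C.f13_4
  have h_f13_7 := C.f13_7
  have h_f22_0 := C.f22_0
  have h_f22_1 := C.f22_1
  have h_f22_4 := C.f22_4
  have h_f22_6 := C.f22_6
  have h_f23_0 := C.f23_0
  have h_f23_1 := C.f23_1
  have h_f23_5 := C.f23_5
  have h_f23_8 := C.f23_8
  have h_f23_9 := C.f23_9
  have h_f33_0 := C.f33_0
  have h_f33_1 := C.f33_1
  have h_f33_3 := C.f33_3
  have h_f33_4 := C.f33_4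
  have h_f33_7 := C.f33_7
  clear C
  rcases h_f13_2 with h_f13_2_0_0 | h_f13_2_1_0
  · rcases h_f13_5 with h_f13_5_0_0 | h_f13_5_1_0
    · rcases h_f22_2 with h_f22_2_0_0 | h_f22_2_1_0
      · rcases h_tmpp with h_tmpp_0_0 | h_tmpp_1_0 | h_tmpp_2_0 | h_tmpp_3_0
        · linarith only [h_f11_0, h_f23_0, h_f33_0, h_o0, h_tmpp_0_0, s1]
        · linarith only [h_f11_0, h_f22_1, h_f22_2_0_0, h_f23_0, h_f33_0, h_o0, h_o1, h_tmpp_1_0, s1]
        · linarith only [e0, h_tmpp_2_0]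
        · rcases h_f13_8 with h_f13_8_0_0 | h_f13_8_1_0
          · linarith only [h_b3, h_b5, h_f13_2_0_0, h_f13_5_0_0, h_f13_7, h_f13_8_0_0, h_o0]
          · rcases h_f22_5 with h_f22_5_0_0 | h_f22_5_1_0
            · linarith only [h_b3, h_f11_0, h_f22_2_0_0, h_f22_4, h_f22_5_0_0, h_f23_0, h_f33_0, h_o0, s1]
            · rcases h_p22_33A with h_p22_33A_0_0 | h_p22_33A_1_0 | h_p22_33A_2_0 | h_p22_33A_3_0 | h_p22_33A_4_0
              · linarith only [e0, h_a1, h_f22_1, h_f22_2_0_0, h_o0, h_p22_33A_0_0]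
              · linarith only [e3, h_p22_33A_1_0]
              · linarith only [h_f11_0, h_f22_2_0_0, h_f23_0, h_o0, h_p22_33A_2_0, s1]
              · linarith only [h_f11_0, h_f11_1, h_f22_5_1_0, h_f23_5, h_p22_33A_3_0, h_tmpp_3_0, s2]
              · rcases h_nF1 with h_nF1_0_0 | h_nF1_1_0 | h_nF1_2_0 | h_nF1_3_0 | h_nF1_4_0 | h_nF1_5_0 | h_nF1_6_0 | h_nF1_7_0 | h_nF1_8_0 | h_nF1_9_0 | h_nF1_10_0 | h_nF1_11_0 | h_nF1_12_0 | h_nF1_13_0
                · linarith only [h_f11_0, h_f23_0, h_f33_0, h_nF1_0_0, h_o0, s1]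
                · rcases h_f33_2 with h_f33_2_0_0 | h_f33_2_1_0
                  · rcases h_f33_8 with h_f33_8_0_0 | h_f33_8_1_0
                    · linarith only [h_a5, h_f11_0, h_f11_1, h_f22_5_1_0, h_f22_6, h_f23_5, h_f33_8_0_0, h_p22_33A_4_0, h_tmpp_3_0, s2]
                    · rcases h_p11_33A with h_p11_33A_0_0 | h_p11_33A_1_0 | h_p11_33A_2_0 | h_p11_33A_3_0 | h_p11_33A_4_0
                      · linarith only [e0, h_p11_33A_0_0]
                      · linarith only [e3, h_p11_33A_1_0]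
                      · linarith only [e0, h_f11_0, h_f33_2_0_0, h_nF1_1_0, h_p11_33A_2_0]
                      · linarith only [h_f23_5, h_p11_33A_3_0, s2]
                      · linarith only [h_b5, h_f22_5_1_0, h_f22_6, h_f23_9, h_f33_8_1_0, h_p11_33A_4_0, h_p22_33A_4_0, s3]
                  · linarith only [h_f11_0, h_f11_1, h_f22_1, h_f22_2_0_0, h_f23_5, h_f33_0, h_f33_2_1_0, h_f33_4, h_o1, h_tmpp_3_0, s2]
                · linarith only [h_b3, h_f11_0, h_f22_1, h_f22_2_0_0, h_f23_0, h_f33_0, h_nF1_2_0, h_o0, s1]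
                · rcases h_f33_8 with h_f33_8_0_0 | h_f33_8_1_0
                  · linarith only [h_a5, h_f11_0, h_f11_1, h_f22_5_1_0, h_f22_6, h_f23_5, h_f33_8_0_0, h_p22_33A_4_0, h_tmpp_3_0, s2]
                  · rcases h_p13_22A with h_p13_22A_0_0 | h_p13_22A_1_0 | h_p13_22A_2_0 | h_p13_22A_3_0 | h_p13_22A_4_0 | h_p13_22A_5_0
                    · linarith only [e0, h_o0, h_p13_22A_0_0]
                    · linarith only [e2, h_p13_22A_1_0]
                    · linarith only [e0, e2, h_b5, h_f22_1, h_f22_2_0_0, h_nF1_3_0, h_o0, h_p13_22A_2_0]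
                    · linarith only [h_b5, h_f11_0, h_f11_1, h_f11_2, h_f13_2_0_0, h_f22_2_0_0, h_f22_5_1_0, h_f22_6, h_f23_5, h_f23_9, h_f33_4, h_nF1_3_0, h_o1, h_p13_22A_3_0, h_p22_33A_4_0, h_tmpp_3_0, s2, s3]
                    · rcases h_tzpm with h_tzpm_0_0 | h_tzpm_1_0 | h_tzpm_2_0 | h_tzpm_3_0 | ⟨h_tzpm_4_0, h_tzpm_4_1⟩
                      · linarith only [h_a1, h_b3, h_f13_2_0_0, h_f13_5_0_0, h_f22_1, h_f22_2_0_0, h_f22_5_1_0, h_o0, h_p13_22A_4_0, h_tzpm_0_0]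
                      · linarith only [h_b5, h_f11_0, h_f11_1, h_f11_2, h_f13_2_0_0, h_f13_5_0_0, h_f22_5_1_0, h_f23_9, h_f33_7, h_o0, h_p13_22A_4_0, h_tzpm_1_0, s3]
                      · linarith only [h_b5, h_f11_0, h_f11_1, h_f11_2, h_f22_5_1_0, h_f22_6, h_f23_9, h_f33_8_1_0, h_p22_33A_4_0, h_tzpm_2_0, s3]
                      · linarith only [h_a4, h_f11_0, h_f11_1, h_f11_2, h_f13_2_0_0, h_f13_5_0_0, h_f22_5_1_0, h_f22_6, h_f23_9, h_o0, h_p13_22A_4_0, h_p22_33A_4_0, h_tmpp_3_0, h_tzpm_3_0, s3]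
                      · rcases h_p13_23A with h_p13_23A_0_0 | h_p13_23A_1_0 | h_p13_23A_2_0 | h_p13_23A_3_0 | h_p13_23A_4_0 | h_p13_23A_5_0
                        · linarith only [e0, h_a3, h_p13_23A_0_0, h_tmpp_3_0, h_tzpm_4_0]
                        · linarith only [e2, h_p13_23A_1_0]
                        · linarith only [e1, h_p13_23A_2_0]
                        · rcases h_f23_3 with h_f23_3_0_0 | h_f23_3_1_0 | h_f23_3_2_0
                          · linarith only [h_f11_0, h_f13_2_0_0, h_f23_3_0_0, h_f33_0, h_o0, h_p13_23A_3_0, s1]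
                          · linarith only [h_f11_0, h_f13_2_0_0, h_f22_1, h_f22_2_0_0, h_f23_3_1_0, h_f33_0, h_o0, h_p13_23A_3_0, h_tzpm_4_0, s1]
                          · linarith only [h_f11_0, h_f11_1, h_f11_2, h_f13_2_0_0, h_f22_1, h_f22_2_0_0, h_f22_5_1_0, h_f22_6, h_f23_3_2_0, h_f23_5, h_f23_9, h_f33_0, h_f33_4, h_o0, h_p13_23A_3_0, h_p22_33A_4_0, h_tmpp_3_0, h_tzpm_4_0, s1, s2, s3]
                        · rcases h_f23_3 with h_f23_3_0_0 | h_f23_3_1_0 | h_f23_3_2_0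
                          · rcases h_p11_33A with h_p11_33A_0_0 | h_p11_33A_1_0 | h_p11_33A_2_0 | h_p11_33A_3_0 | h_p11_33A_4_0
                            · linarith only [e0, h_p11_33A_0_0]
                            · linarith only [e3, h_p11_33A_1_0]
                            · rcases h_f33_2 with h_f33_2_0_0 | h_f33_2_1_0
                              · rcases h_f23_7 with h_f23_7_0_0 | h_f23_7_1_0 | h_f23_7_2_0
                                · linarith only [h_b5, h_f11_1, h_f11_2, h_f13_2_0_0, h_f13_5_0_0, h_f22_5_1_0, h_f22_6, h_f23_3_0_0, h_f23_7_0_0, h_f23_9, h_f33_2_0_0, h_f33_4, h_f33_7, h_nF1_3_0, h_p11_33A_2_0, h_p13_23A_4_0, h_p22_33A_4_0, h_tzpm_4_0, s2, s3]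
                                · linarith only [h_b5, h_f11_1, h_f11_2, h_f13_2_0_0, h_f13_5_0_0, h_f22_5_1_0, h_f22_6, h_f23_7_1_0, h_f23_9, h_f33_2_0_0, h_f33_4, h_nF1_3_0, h_p11_33A_2_0, h_p13_23A_4_0, h_p22_33A_4_0, s2, s3]
                                · linarith only [h_f11_1, h_f11_2, h_f13_2_0_0, h_f13_5_0_0, h_f23_0, h_f23_7_2_0, h_f23_9, h_f33_2_0_0, h_f33_4, h_f33_7, h_nF1_3_0, h_p11_33A_2_0, h_p13_23A_4_0, s1, s2, s3]
                              · linarith only [h_f11_1, h_f13_2_0_0, h_f13_5_0_0, h_f22_1, h_f22_2_0_0, h_f23_0, h_f33_2_1_0, h_f33_4, h_p11_33A_2_0, h_p13_23A_4_0, h_tzpm_4_0, s1, s2]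
                            · linarith only [h_a3, h_f13_2_0_0, h_f13_5_0_0, h_p11_33A_3_0, h_p13_23A_4_0, s2]
                            · linarith only [h_b5, h_f22_5_1_0, h_f22_6, h_f23_9, h_f33_8_1_0, h_p11_33A_4_0, h_p22_33A_4_0, s3]
                          · linarith only [h_f22_1, h_f22_2_0_0, h_f23_0, h_f23_3_1_0, h_tzpm_4_0]
                          · linarith only [h_f11_0, h_f11_1, h_f11_2, h_f22_1, h_f22_2_0_0, h_f22_5_1_0, h_f22_6, h_f23_0, h_f23_3_2_0, h_f23_5, h_f23_9, h_f33_4, h_p22_33A_4_0, h_tmpp_3_0, h_tzpm_4_0, s2, s3]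
                        · linarith only [h_f11_0, h_f11_1, h_f11_2, h_f13_8_1_0, h_f22_5_1_0, h_f22_6, h_f23_9, h_p13_23A_5_0, h_p22_33A_4_0, h_tmpp_3_0, s3]
                    · linarith only [h_f11_0, h_f11_1, h_f11_2, h_f13_8_1_0, h_f22_5_1_0, h_f22_6, h_f23_9, h_f33_7, h_p13_22A_5_0, h_tmpp_3_0, s3]
                · rcases h_f23_7 with h_f23_7_0_0 | h_f23_7_1_0 | h_f23_7_2_0
                  · rcases h_f23_3 with h_f23_3_0_0 | h_f23_3_1_0 | h_f23_3_2_0
                    · linarith only [h_f11_0, h_f23_3_0_0, h_f23_5, h_f23_7_0_0, h_f33_0, h_nF1_4_0, h_o0, s1]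
                    · linarith only [h_f11_0, h_f22_1, h_f22_2_0_0, h_f23_3_1_0, h_f23_5, h_f23_7_0_0, h_f33_0, h_nF1_4_0, h_o0, h_o1, s1]
                    · linarith only [h_a4, h_f11_0, h_f11_1, h_f11_2, h_f22_1, h_f22_2_0_0, h_f22_5_1_0, h_f22_6, h_f23_3_2_0, h_f23_5, h_f23_7_0_0, h_f23_9, h_f33_0, h_nF1_4_0, h_o0, h_p22_33A_4_0, s1, s3]
                  · rcases h_p13_22A with h_p13_22A_0_0 | h_p13_22A_1_0 | h_p13_22A_2_0 | h_p13_22A_3_0 | h_p13_22A_4_0 | h_p13_22A_5_0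
                    · linarith only [e0, h_nF1_4_0, h_o1, h_p13_22A_0_0, h_tmpp_3_0]
                    · linarith only [e2, h_p13_22A_1_0]
                    · linarith only [e0, h_b1, h_f22_1, h_f22_2_0_0, h_p13_22A_2_0]
                    · linarith only [h_f11_0, h_f13_2_0_0, h_f22_2_0_0, h_f23_0, h_f33_0, h_nF1_4_0, h_o1, h_p13_22A_3_0, h_tmpp_3_0, s1]
                    · rcases h_p13_23A with h_p13_23A_0_0 | h_p13_23A_1_0 | h_p13_23A_2_0 | h_p13_23A_3_0 | h_p13_23A_4_0 | h_p13_23A_5_0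
                      · linarith only [e0, h_f13_2_0_0, h_f13_5_0_0, h_f22_5_1_0, h_nF1_4_0, h_p13_22A_4_0, h_p13_23A_0_0, h_tmpp_3_0]
                      · linarith only [e2, h_p13_23A_1_0]
                      · linarith only [e1, h_p13_23A_2_0]
                      · rcases h_f23_3 with h_f23_3_0_0 | h_f23_3_1_0 | h_f23_3_2_0
                        · linarith only [h_f11_0, h_f13_2_0_0, h_f13_5_0_0, h_f22_5_1_0, h_f23_3_0_0, h_f33_0, h_nF1_4_0, h_p13_22A_4_0, h_p13_23A_3_0, h_tmpp_3_0, s1]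
                        · linarith only [h_f11_0, h_f13_2_0_0, h_f13_5_0_0, h_f22_1, h_f22_2_0_0, h_f22_5_1_0, h_f23_3_1_0, h_f33_0, h_nF1_4_0, h_p13_22A_4_0, h_p13_23A_3_0, h_tmpp_3_0, s1]
                        · linarith only [h_f11_0, h_f11_1, h_f11_2, h_f13_2_0_0, h_f13_5_0_0, h_f22_1, h_f22_2_0_0, h_f22_5_1_0, h_f22_6, h_f23_3_2_0, h_f23_5, h_f23_9, h_f33_0, h_f33_4, h_nF1_4_0, h_p13_22A_4_0, h_p13_23A_3_0, h_p22_33A_4_0, h_tmpp_3_0, s1, s2, s3]
                      · linarith only [h_f13_2_0_0, h_f13_5_0_0, h_f23_7_1_0, h_nF1_4_0, h_p13_23A_4_0]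
                      · linarith only [h_f11_0, h_f11_1, h_f11_2, h_f13_8_1_0, h_f22_5_1_0, h_f22_6, h_f23_9, h_p13_23A_5_0, h_p22_33A_4_0, h_tmpp_3_0, s3]
                    · linarith only [h_b5, h_f11_0, h_f11_1, h_f11_2, h_f13_8_1_0, h_f22_5_1_0, h_f22_6, h_f23_9, h_p13_22A_5_0, h_p22_33A_4_0, h_tmpp_3_0, s3]
                  · linarith only [h_a4, h_f11_0, h_f11_1, h_f11_2, h_f22_5_1_0, h_f22_6, h_f23_5, h_f23_7_2_0, h_f23_9, h_p22_33A_4_0, h_tmpp_3_0, s3]
                · rcases h_t12 with ⟨h_t12_0_0, h_t12_0_1⟩ | ⟨h_t12_1_0, h_t12_1_1⟩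
                  · linarith only [h_nF1_5_0, h_t12_0_1]
                  · rcases h_f33_8 with h_f33_8_0_0 | h_f33_8_1_0
                    · linarith only [h_a5, h_f11_0, h_f11_1, h_f22_5_1_0, h_f22_6, h_f23_5, h_f33_8_0_0, h_p22_33A_4_0, h_tmpp_3_0, s2]
                    · rcases h_p11_33A with h_p11_33A_0_0 | h_p11_33A_1_0 | h_p11_33A_2_0 | h_p11_33A_3_0 | h_p11_33A_4_0
                      · linarith only [e0, h_p11_33A_0_0]
                      · linarith only [e3, h_p11_33A_1_0]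
                      · linarith only [h_f11_1, h_f23_5, h_f33_3, h_nF1_5_0, h_p11_33A_2_0, s2]
                      · linarith only [h_f23_5, h_p11_33A_3_0, s2]
                      · linarith only [h_b5, h_f11_0, h_f11_1, h_f11_2, h_f23_9, h_f33_8_1_0, h_p11_33A_4_0, h_t12_1_1, s3]
                · rcases h_f33_8 with h_f33_8_0_0 | h_f33_8_1_0
                  · linarith only [h_f11_0, h_f11_1, h_f23_0, h_f23_5, h_f33_0, h_f33_7, h_f33_8_0_0, h_nF1_6_0, h_o0, h_o1, h_tmpp_3_0, s1, s2]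
                  · rcases h_p13_23A with h_p13_23A_0_0 | h_p13_23A_1_0 | h_p13_23A_2_0 | h_p13_23A_3_0 | h_p13_23A_4_0 | h_p13_23A_5_0
                    · linarith only [e0, h_f11_0, h_f11_1, h_f22_5_1_0, h_f22_6, h_f23_0, h_f23_5, h_f33_0, h_f33_3, h_f33_8_1_0, h_nF1_6_0, h_p13_23A_0_0, h_p22_33A_4_0, h_tmpp_3_0, s1, s2]
                    · linarith only [e2, h_p13_23A_1_0]
                    · linarith only [e1, h_p13_23A_2_0]
                    · linarith only [h_f11_0, h_f11_1, h_f13_2_0_0, h_f22_5_1_0, h_f22_6, h_f23_5, h_f33_0, h_f33_3, h_f33_8_1_0, h_nF1_6_0, h_p13_23A_3_0, h_p22_33A_4_0, h_tmpp_3_0, s1, s2]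
                    · linarith only [h_f11_0, h_f11_1, h_f13_2_0_0, h_f13_5_0_0, h_f22_5_1_0, h_f22_6, h_f33_0, h_f33_3, h_f33_8_1_0, h_nF1_6_0, h_p13_23A_4_0, h_p22_33A_4_0, h_tmpp_3_0, s2]
                    · linarith only [h_f11_0, h_f11_1, h_f11_2, h_f13_8_1_0, h_f22_5_1_0, h_f22_6, h_f23_9, h_p13_23A_5_0, h_p22_33A_4_0, h_tmpp_3_0, s3]
                · rcases h_p11_33A with h_p11_33A_0_0 | h_p11_33A_1_0 | h_p11_33A_2_0 | h_p11_33A_3_0 | h_p11_33A_4_0
                  · linarith only [e0, h_p11_33A_0_0]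
                  · linarith only [e3, h_p11_33A_1_0]
                  · rcases h_p13_23A with h_p13_23A_0_0 | h_p13_23A_1_0 | h_p13_23A_2_0 | h_p13_23A_3_0 | h_p13_23A_4_0 | h_p13_23A_5_0
                    · linarith only [e0, h_o0, h_p13_23A_0_0]
                    · linarith only [e2, h_p13_23A_1_0]
                    · linarith only [e1, h_p13_23A_2_0]
                    · linarith only [h_f13_2_0_0, h_p11_33A_2_0, h_p13_23A_3_0, s1]
                    · rcases h_f23_7 with h_f23_7_0_0 | h_f23_7_1_0 | h_f23_7_2_0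
                      · linarith only [h_a3, h_f13_2_0_0, h_f13_5_0_0, h_f23_7_0_0, h_p11_33A_2_0, h_p13_23A_4_0, s1]
                      · rcases h_f33_2 with h_f33_2_0_0 | h_f33_2_1_0
                        · linarith only [h_b5, h_f11_1, h_f11_2, h_f13_2_0_0, h_f13_5_0_0, h_f22_5_1_0, h_f22_6, h_f23_7_1_0, h_f23_9, h_f33_2_0_0, h_nF1_7_0, h_p11_33A_2_0, h_p13_23A_4_0, h_p22_33A_4_0, s3]
                        · linarith only [h_f11_1, h_f13_2_0_0, h_f13_5_0_0, h_f23_1, h_f33_2_1_0, h_f33_4, h_p11_33A_2_0, h_p13_23A_4_0, s1, s2]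
                      · linarith only [h_a3, h_f11_0, h_f11_1, h_f11_2, h_f13_2_0_0, h_f13_5_0_0, h_f22_5_1_0, h_f22_6, h_f23_7_2_0, h_f23_9, h_f33_4, h_o0, h_p13_23A_4_0, h_p22_33A_4_0, h_tmpp_3_0, s2, s3]
                    · linarith only [h_f11_0, h_f11_1, h_f11_2, h_f13_8_1_0, h_f22_5_1_0, h_f22_6, h_f23_9, h_p13_23A_5_0, h_p22_33A_4_0, h_tmpp_3_0, s3]
                  · linarith only [h_f23_5, h_p11_33A_3_0, s2]
                  · rcases h_f33_8 with h_f33_8_0_0 | h_f33_8_1_0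
                    · linarith only [h_b5, h_f11_2, h_f23_5, h_f23_9, h_f33_8_0_0, h_o1, h_p11_33A_4_0, s2, s3]
                    · linarith only [h_b3, h_b5, h_f11_0, h_f11_1, h_f11_2, h_f23_9, h_f33_8_1_0, h_p11_33A_4_0, s3]
                · rcases h_p13_23A with h_p13_23A_0_0 | h_p13_23A_1_0 | h_p13_23A_2_0 | h_p13_23A_3_0 | h_p13_23A_4_0 | h_p13_23A_5_0
                  · linarith only [e0, h_f11_0, h_f23_0, h_f33_0, h_nF1_8_0, h_p13_23A_0_0, s1]
                  · linarith only [e2, h_p13_23A_1_0]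
                  · linarith only [e1, h_p13_23A_2_0]
                  · linarith only [h_f11_0, h_f13_2_0_0, h_f33_0, h_nF1_8_0, h_p13_23A_3_0, s1]
                  · rcases h_f23_7 with h_f23_7_0_0 | h_f23_7_1_0 | h_f23_7_2_0
                    · linarith only [h_a3, h_f11_0, h_f13_2_0_0, h_f13_5_0_0, h_f23_7_0_0, h_f33_0, h_nF1_8_0, h_p13_23A_4_0, s1]
                    · linarith only [h_f11_0, h_f11_1, h_f13_2_0_0, h_f13_5_0_0, h_f23_7_1_0, h_f33_0, h_f33_3, h_nF1_8_0, h_p13_23A_4_0, s2]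
                    · linarith only [h_f11_0, h_f11_1, h_f11_2, h_f13_2_0_0, h_f13_5_0_0, h_f22_5_1_0, h_f22_6, h_f23_0, h_f23_5, h_f23_7_2_0, h_f23_9, h_f33_0, h_f33_4, h_nF1_8_0, h_p13_23A_4_0, h_p22_33A_4_0, h_tmpp_3_0, s1, s2, s3]
                  · linarith only [h_f11_0, h_f11_1, h_f11_2, h_f13_8_1_0, h_f22_5_1_0, h_f22_6, h_f23_9, h_p13_23A_5_0, h_p22_33A_4_0, h_tmpp_3_0, s3]
                · rcases h_p11_33A with h_p11_33A_0_0 | h_p11_33A_1_0 | h_p11_33A_2_0 | h_p11_33A_3_0 | h_p11_33A_4_0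
                  · linarith only [e0, h_p11_33A_0_0]
                  · linarith only [e3, h_p11_33A_1_0]
                  · rcases h_f33_2 with h_f33_2_0_0 | h_f33_2_1_0
                    · linarith only [h_f11_0, h_f33_2_0_0, h_nF1_9_0, h_p11_33A_2_0]
                    · linarith only [h_a4, h_f11_0, h_f22_1, h_f22_2_0_0, h_f33_2_1_0, h_nF1_9_0, h_o1, h_p11_33A_2_0]
                  · linarith only [h_f23_5, h_p11_33A_3_0, s2]
                  · rcases h_f33_8 with h_f33_8_0_0 | h_f33_8_1_0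
                    · linarith only [h_b5, h_f11_2, h_f23_5, h_f23_9, h_f33_8_0_0, h_o1, h_p11_33A_4_0, s2, s3]
                    · linarith only [h_b3, h_b5, h_f11_0, h_f11_1, h_f11_2, h_f23_9, h_f33_8_1_0, h_p11_33A_4_0, s3]
                · linarith only [h_nF1_10_0, h_tmpp_3_0]
                · rcases h_f33_8 with h_f33_8_0_0 | h_f33_8_1_0
                  · linarith only [h_b5, h_f11_0, h_f11_1, h_f23_5, h_f33_7, h_f33_8_0_0, h_nF1_11_0, h_o1, h_o2, s2]
                  · linarith only [h_b5, h_f11_0, h_f11_1, h_f11_2, h_f22_5_1_0, h_f22_6, h_f23_9, h_f33_8_1_0, h_nF1_11_0, h_p22_33A_4_0, s3]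
                · rcases h_f33_8 with h_f33_8_0_0 | h_f33_8_1_0
                  · linarith only [h_f11_0, h_f11_1, h_f11_2, h_f22_5_1_0, h_f22_6, h_f23_5, h_f23_9, h_f33_8_0_0, h_nF1_12_0, h_o1, h_p22_33A_4_0, h_tmpp_3_0, s2, s3]
                  · linarith only [h_f11_0, h_f11_1, h_f11_2, h_f22_5_1_0, h_f22_6, h_f23_9, h_f33_8_1_0, h_nF1_12_0, h_p22_33A_4_0, h_tmpp_3_0, s3]
                · linarith only [h_b5, h_nF1_13_0]
      · rcases h_f33_8 with h_f33_8_0_0 | h_f33_8_1_0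
        · rcases h_p11_23A with h_p11_23A_0_0 | h_p11_23A_1_0 | h_p11_23A_2_0 | h_p11_23A_3_0 | h_p11_23A_4_0 | h_p11_23A_5_0
          · linarith only [e0, h_p11_23A_0_0]
          · linarith only [e1, h_p11_23A_1_0]
          · linarith only [e2, h_p11_23A_2_0]
          · rcases h_f33_5 with h_f33_5_0_0 | h_f33_5_1_0
            · linarith only [h_b5, h_f11_0, h_f11_1, h_f23_5, h_f33_5_0_0, h_f33_7, h_f33_8_0_0, h_o0, h_o1, h_o2, h_p11_23A_3_0, s1, s2]
            · linarith only [h_b5, h_f11_0, h_f11_1, h_f13_2_0_0, h_f13_4, h_f13_5_0_0, h_f23_5, h_f33_5_1_0, h_f33_7, h_f33_8_0_0, h_o0, h_o1, h_o2, s2]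
          · linarith only [h_a5, h_f33_7, h_f33_8_0_0, h_p11_23A_4_0, s2]
          · linarith only [h_f33_7, h_p11_23A_5_0, s3]
        · rcases h_f33_2 with h_f33_2_0_0 | h_f33_2_1_0
          · rcases h_f13_8 with h_f13_8_0_0 | h_f13_8_1_0
            · linarith only [h_b3, h_b5, h_f13_2_0_0, h_f13_5_0_0, h_f13_7, h_f13_8_0_0, h_o0]
            · rcases h_p11_33A with h_p11_33A_0_0 | h_p11_33A_1_0 | h_p11_33A_2_0 | h_p11_33A_3_0 | h_p11_33A_4_0
              · linarith only [e0, h_p11_33A_0_0]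
              · linarith only [e3, h_p11_33A_1_0]
              · rcases h_p13_33A with h_p13_33A_0_0 | h_p13_33A_1_0 | h_p13_33A_2_0 | h_p13_33A_3_0 | h_p13_33A_4_0 | h_p13_33A_5_0
                · linarith only [e0, h_o0, h_p13_33A_0_0]
                · linarith only [e2, h_p13_33A_1_0]
                · linarith only [e3, h_p13_33A_2_0]
                · linarith only [h_f11_0, h_f13_2_0_0, h_f23_0, h_f33_2_0_0, h_o0, h_p13_33A_3_0, s1]
                · linarith only [h_f11_0, h_f11_1, h_f13_2_0_0, h_f13_5_0_0, h_f23_5, h_o0, h_p13_33A_4_0, s2]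
                · rcases h_p22_33A with h_p22_33A_0_0 | h_p22_33A_1_0 | h_p22_33A_2_0 | h_p22_33A_3_0 | h_p22_33A_4_0
                  · linarith only [e0, h_b2, h_p22_33A_0_0]
                  · linarith only [e3, h_p22_33A_1_0]
                  · rcases h_p11_33B with h_p11_33B_0_0 | h_p11_33B_1_0 | h_p11_33B_2_0 | h_p11_33B_3_0 | h_p11_33B_4_0
                    · linarith only [e0, h_p11_33B_0_0]
                    · linarith only [e3, h_p11_33B_1_0]
                    · linarith only [h_a1, h_f11_0, h_f33_2_0_0, h_o0, h_p11_33B_2_0]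
                    · linarith only [h_f11_0, h_f22_2_1_0, h_f23_1, h_f23_5, h_o0, h_p11_33B_3_0, h_p22_33A_2_0, s1, s2]
                    · linarith only [h_b2, h_b5, h_f11_0, h_f11_1, h_f11_2, h_f13_8_1_0, h_f22_2_1_0, h_f23_1, h_f23_5, h_f33_3, h_f33_8_1_0, h_p11_33B_4_0, h_p13_33A_5_0, h_p22_33A_2_0, s1, s2]
                  · rcases h_tmpp with h_tmpp_0_0 | h_tmpp_1_0 | h_tmpp_2_0 | h_tmpp_3_0
                    · linarith only [h_f11_0, h_f23_0, h_f33_0, h_o0, h_tmpp_0_0, s1]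
                    · linarith only [h_f23_1, h_p11_33A_2_0, h_tmpp_1_0, s1]
                    · linarith only [e0, h_tmpp_2_0]
                    · rcases h_f22_5 with h_f22_5_0_0 | h_f22_5_1_0
                      · linarith only [h_a3, h_f22_2_1_0, h_f22_4, h_f22_5_0_0, h_f23_1, h_p11_33A_2_0, s1]
                      · linarith only [h_f11_0, h_f11_1, h_f22_5_1_0, h_f23_5, h_p22_33A_3_0, h_tmpp_3_0, s2]
                  · rcases h_tmpp with h_tmpp_0_0 | h_tmpp_1_0 | h_tmpp_2_0 | h_tmpp_3_0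
                    · linarith only [h_f11_0, h_f23_0, h_f33_0, h_o0, h_tmpp_0_0, s1]
                    · linarith only [h_f23_1, h_p11_33A_2_0, h_tmpp_1_0, s1]
                    · linarith only [e0, h_tmpp_2_0]
                    · rcases h_f22_5 with h_f22_5_0_0 | h_f22_5_1_0
                      · linarith only [h_a3, h_f22_2_1_0, h_f22_4, h_f22_5_0_0, h_f23_1, h_p11_33A_2_0, s1]
                      · rcases h_nF1 with h_nF1_0_0 | h_nF1_1_0 | h_nF1_2_0 | h_nF1_3_0 | h_nF1_4_0 | h_nF1_5_0 | h_nF1_6_0 | h_nF1_7_0 | h_nF1_8_0 | h_nF1_9_0 | h_nF1_10_0 | h_nF1_11_0 | h_nF1_12_0 | h_nF1_13_0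
                        · linarith only [h_f11_0, h_f11_1, h_f22_0, h_f22_2_1_0, h_f23_1, h_f23_5, h_f33_0, h_f33_3, h_nF1_0_0, h_o0, h_tmpp_3_0, s1, s2]
                        · linarith only [e0, h_f11_0, h_f33_2_0_0, h_nF1_1_0, h_p11_33A_2_0]
                        · linarith only [h_f11_1, h_f23_1, h_f23_5, h_f33_3, h_nF1_2_0, h_p11_33A_2_0, s1, s2]
                        · rcases h_p13_23A with h_p13_23A_0_0 | h_p13_23A_1_0 | h_p13_23A_2_0 | h_p13_23A_3_0 | h_p13_23A_4_0 | h_p13_23A_5_0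
                          · linarith only [e0, h_o0, h_p13_23A_0_0]
                          · linarith only [e2, h_p13_23A_1_0]
                          · linarith only [e1, h_p13_23A_2_0]
                          · linarith only [h_f13_2_0_0, h_p11_33A_2_0, h_p13_23A_3_0, s1]
                          · rcases h_f23_7 with h_f23_7_0_0 | h_f23_7_1_0 | h_f23_7_2_0
                            · linarith only [h_a3, h_f13_2_0_0, h_f13_5_0_0, h_f23_7_0_0, h_p11_33A_2_0, h_p13_23A_4_0, s1]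
                            · linarith only [h_b5, h_f11_1, h_f11_2, h_f13_2_0_0, h_f13_5_0_0, h_f22_5_1_0, h_f22_6, h_f23_7_1_0, h_f23_9, h_f33_2_0_0, h_f33_4, h_nF1_3_0, h_p11_33A_2_0, h_p13_23A_4_0, h_p22_33A_4_0, s2, s3]
                            · linarith only [h_f11_1, h_f11_2, h_f13_2_0_0, h_f13_5_0_0, h_f23_7_2_0, h_f23_8, h_f23_9, h_f33_2_0_0, h_f33_4, h_f33_7, h_nF1_3_0, h_p11_33A_2_0, h_p13_23A_4_0, s2, s3]
                          · linarith only [h_f11_0, h_f11_1, h_f11_2, h_f13_8_1_0, h_f22_5_1_0, h_f22_6, h_f23_9, h_p13_23A_5_0, h_p22_33A_4_0, h_tmpp_3_0, s3]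
                        · rcases h_f23_7 with h_f23_7_0_0 | h_f23_7_1_0 | h_f23_7_2_0
                          · linarith only [h_f23_5, h_f23_7_0_0, h_nF1_4_0, h_p11_33A_2_0, s1]
                          · rcases h_p13_23A with h_p13_23A_0_0 | h_p13_23A_1_0 | h_p13_23A_2_0 | h_p13_23A_3_0 | h_p13_23A_4_0 | h_p13_23A_5_0
                            · linarith only [e0, h_a1, h_f11_0, h_f33_2_0_0, h_p11_33A_2_0, h_p13_23A_0_0]
                            · linarith only [e2, h_p13_23A_1_0]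
                            · linarith only [e1, h_p13_23A_2_0]
                            · linarith only [h_f13_2_0_0, h_p11_33A_2_0, h_p13_23A_3_0, s1]
                            · linarith only [h_f13_2_0_0, h_f13_5_0_0, h_f23_7_1_0, h_nF1_4_0, h_p13_23A_4_0]
                            · linarith only [h_f11_0, h_f11_1, h_f11_2, h_f13_8_1_0, h_f22_5_1_0, h_f22_6, h_f23_9, h_p13_23A_5_0, h_p22_33A_4_0, h_tmpp_3_0, s3]
                          · linarith only [h_a4, h_f11_0, h_f11_1, h_f11_2, h_f22_5_1_0, h_f22_6, h_f23_5, h_f23_7_2_0, h_f23_9, h_p22_33A_4_0, h_tmpp_3_0, s3]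
                        · linarith only [h_f11_1, h_f23_5, h_f33_3, h_nF1_5_0, h_p11_33A_2_0, s2]
                        · rcases h_p13_23A with h_p13_23A_0_0 | h_p13_23A_1_0 | h_p13_23A_2_0 | h_p13_23A_3_0 | h_p13_23A_4_0 | h_p13_23A_5_0
                          · linarith only [e0, h_f11_0, h_f11_1, h_f22_5_1_0, h_f22_6, h_f23_0, h_f23_5, h_f33_0, h_f33_3, h_f33_8_1_0, h_nF1_6_0, h_p13_23A_0_0, h_p22_33A_4_0, h_tmpp_3_0, s1, s2]
                          · linarith only [e2, h_p13_23A_1_0]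
                          · linarith only [e1, h_p13_23A_2_0]
                          · linarith only [h_f11_0, h_f11_1, h_f13_2_0_0, h_f22_5_1_0, h_f22_6, h_f23_5, h_f33_0, h_f33_3, h_f33_8_1_0, h_nF1_6_0, h_p13_23A_3_0, h_p22_33A_4_0, h_tmpp_3_0, s1, s2]
                          · linarith only [h_f11_0, h_f11_1, h_f13_2_0_0, h_f13_5_0_0, h_f22_5_1_0, h_f22_6, h_f33_0, h_f33_3, h_f33_8_1_0, h_nF1_6_0, h_p13_23A_4_0, h_p22_33A_4_0, h_tmpp_3_0, s2]
                          · linarith only [h_f11_0, h_f11_1, h_f11_2, h_f13_8_1_0, h_f22_5_1_0, h_f22_6, h_f23_9, h_p13_23A_5_0, h_p22_33A_4_0, h_tmpp_3_0, s3]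
                        · rcases h_p13_23A with h_p13_23A_0_0 | h_p13_23A_1_0 | h_p13_23A_2_0 | h_p13_23A_3_0 | h_p13_23A_4_0 | h_p13_23A_5_0
                          · linarith only [e0, h_a1, h_f11_0, h_f33_2_0_0, h_p11_33A_2_0, h_p13_23A_0_0]
                          · linarith only [e2, h_p13_23A_1_0]
                          · linarith only [e1, h_p13_23A_2_0]
                          · linarith only [h_f13_2_0_0, h_p11_33A_2_0, h_p13_23A_3_0, s1]
                          · rcases h_f23_7 with h_f23_7_0_0 | h_f23_7_1_0 | h_f23_7_2_0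
                            · linarith only [h_f11_1, h_f13_2_0_0, h_f13_5_0_0, h_f23_7_0_0, h_f33_3, h_p11_33A_2_0, h_p13_23A_4_0, s1, s2]
                            · linarith only [h_b5, h_f11_1, h_f11_2, h_f13_2_0_0, h_f13_5_0_0, h_f22_5_1_0, h_f22_6, h_f23_7_1_0, h_f23_9, h_f33_2_0_0, h_nF1_7_0, h_p11_33A_2_0, h_p13_23A_4_0, h_p22_33A_4_0, s3]
                            · linarith only [h_f11_1, h_f11_2, h_f13_2_0_0, h_f13_5_0_0, h_f23_7_2_0, h_f23_8, h_f23_9, h_f33_2_0_0, h_f33_4, h_f33_7, h_nF1_7_0, h_p11_33A_2_0, h_p13_23A_4_0, s2, s3]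
                          · linarith only [h_f11_0, h_f11_1, h_f11_2, h_f13_8_1_0, h_f22_5_1_0, h_f22_6, h_f23_9, h_p13_23A_5_0, h_p22_33A_4_0, h_tmpp_3_0, s3]
                        · rcases h_f23_7 with h_f23_7_0_0 | h_f23_7_1_0 | h_f23_7_2_0
                          · linarith only [h_a3, h_f11_0, h_f23_5, h_f23_7_0_0, h_f33_0, h_nF1_8_0, s1]
                          · rcases h_p13_23A with h_p13_23A_0_0 | h_p13_23A_1_0 | h_p13_23A_2_0 | h_p13_23A_3_0 | h_p13_23A_4_0 | h_p13_23A_5_0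
                            · linarith only [e0, h_f11_0, h_f23_0, h_f33_0, h_nF1_8_0, h_p13_23A_0_0, s1]
                            · linarith only [e2, h_p13_23A_1_0]
                            · linarith only [e1, h_p13_23A_2_0]
                            · linarith only [h_f11_0, h_f13_2_0_0, h_f33_0, h_nF1_8_0, h_p13_23A_3_0, s1]
                            · linarith only [h_f11_0, h_f11_1, h_f13_2_0_0, h_f13_5_0_0, h_f23_7_1_0, h_f33_0, h_f33_3, h_nF1_8_0, h_p13_23A_4_0, s2]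
                            · linarith only [h_f11_0, h_f11_1, h_f11_2, h_f13_8_1_0, h_f22_5_1_0, h_f22_6, h_f23_9, h_p13_23A_5_0, h_p22_33A_4_0, h_tmpp_3_0, s3]
                          · linarith only [h_f11_0, h_f11_1, h_f11_2, h_f13_2_0_0, h_f13_4, h_f13_5_0_0, h_f22_5_1_0, h_f22_6, h_f23_0, h_f23_5, h_f23_7_2_0, h_f23_9, h_f33_0, h_f33_4, h_nF1_8_0, h_p22_33A_4_0, h_tmpp_3_0, s1, s2, s3]
                        · linarith only [h_f11_0, h_f33_2_0_0, h_nF1_9_0, h_p11_33A_2_0]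
                        · linarith only [h_nF1_10_0, h_tmpp_3_0]
                        · linarith only [h_f11_0, h_f11_1, h_f11_2, h_f13_8_1_0, h_f22_5_1_0, h_f22_6, h_f23_9, h_f33_8_1_0, h_nF1_11_0, h_p13_33A_5_0, h_p22_33A_4_0, s3]
                        · linarith only [h_f11_0, h_f11_1, h_f11_2, h_f22_5_1_0, h_f22_6, h_f23_9, h_f33_8_1_0, h_nF1_12_0, h_p22_33A_4_0, h_tmpp_3_0, s3]
                        · linarith only [h_b5, h_nF1_13_0]
              · linarith only [h_f23_5, h_p11_33A_3_0, s2]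
              · linarith only [h_b3, h_b5, h_f11_0, h_f11_1, h_f11_2, h_f23_9, h_f33_8_1_0, h_p11_33A_4_0, s3]
          · rcases h_p13_33A with h_p13_33A_0_0 | h_p13_33A_1_0 | h_p13_33A_2_0 | h_p13_33A_3_0 | h_p13_33A_4_0 | h_p13_33A_5_0
            · linarith only [e0, h_o0, h_p13_33A_0_0]
            · linarith only [e2, h_p13_33A_1_0]
            · linarith only [e3, h_p13_33A_2_0]
            · linarith only [h_a4, h_f11_0, h_f13_2_0_0, h_f23_1, h_f33_2_1_0, h_o0, h_p13_33A_3_0, s1]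
            · linarith only [h_f11_0, h_f11_1, h_f13_2_0_0, h_f13_5_0_0, h_f23_5, h_o0, h_p13_33A_4_0, s2]
            · rcases h_f13_8 with h_f13_8_0_0 | h_f13_8_1_0
              · linarith only [h_b3, h_b5, h_f13_2_0_0, h_f13_5_0_0, h_f13_7, h_f13_8_0_0, h_o0]
              · rcases h_p11_33A with h_p11_33A_0_0 | h_p11_33A_1_0 | h_p11_33A_2_0 | h_p11_33A_3_0 | h_p11_33A_4_0
                · linarith only [e0, h_p11_33A_0_0]
                · linarith only [e3, h_p11_33A_1_0]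
                · rcases h_p13_23A with h_p13_23A_0_0 | h_p13_23A_1_0 | h_p13_23A_2_0 | h_p13_23A_3_0 | h_p13_23A_4_0 | h_p13_23A_5_0
                  · linarith only [e0, h_f11_0, h_f11_1, h_f13_2_0_0, h_f13_4, h_f13_5_0_0, h_f13_8_1_0, h_f23_1, h_f23_5, h_f33_2_1_0, h_f33_4, h_f33_8_1_0, h_p11_33A_2_0, h_p13_23A_0_0, h_p13_33A_5_0, s1, s2]
                  · linarith only [e2, h_p13_23A_1_0]
                  · linarith only [e1, h_p13_23A_2_0]
                  · linarith only [h_f13_2_0_0, h_p11_33A_2_0, h_p13_23A_3_0, s1]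
                  · linarith only [h_f11_1, h_f13_2_0_0, h_f13_5_0_0, h_f23_1, h_f33_2_1_0, h_f33_4, h_p11_33A_2_0, h_p13_23A_4_0, s1, s2]
                  · rcases h_f23_10 with h_f23_10_0_0 | h_f23_10_1_0
                    · rcases h_f23_7 with h_f23_7_0_0 | h_f23_7_1_0 | h_f23_7_2_0
                      · linarith only [h_f11_1, h_f11_2, h_f13_2_0_0, h_f13_4, h_f13_5_0_0, h_f13_8_1_0, h_f23_1, h_f23_10_0_0, h_f23_7_0_0, h_f33_2_1_0, h_f33_4, h_f33_7, h_o2, h_p11_33A_2_0, h_p13_23A_5_0, s1, s2, s3]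
                      · linarith only [h_f11_1, h_f11_2, h_f13_2_0_0, h_f13_4, h_f13_5_0_0, h_f13_8_1_0, h_f23_1, h_f23_10_0_0, h_f23_7_1_0, h_f33_2_1_0, h_f33_7, h_o2, h_p11_33A_2_0, h_p13_23A_5_0, s1, s3]
                      · linarith only [h_f11_1, h_f11_2, h_f13_2_0_0, h_f13_4, h_f13_5_0_0, h_f13_8_1_0, h_f23_1, h_f23_10_0_0, h_f23_7_2_0, h_f33_2_1_0, h_f33_4, h_f33_7, h_o2, h_p11_33A_2_0, h_p13_23A_5_0, s1, s2, s3]
                    · linarith only [h_f13_8_1_0, h_f23_10_1_0, h_o2, h_p13_23A_5_0]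
                · linarith only [h_f23_5, h_p11_33A_3_0, s2]
                · linarith only [h_f13_8_1_0, h_f23_9, h_f33_8_1_0, h_p11_33A_4_0, h_p13_33A_5_0, s3]
    · rcases h_f23_7 with h_f23_7_0_0 | h_f23_7_1_0 | h_f23_7_2_0
      · rcases h_f23_3 with h_f23_3_0_0 | h_f23_3_1_0 | h_f23_3_2_0
        · linarith only [h_a1, h_a3, h_f23_3_0_0, h_f23_5, h_f23_7_0_0]
        · linarith only [h_a2, h_f11_0, h_f11_1, h_f13_0, h_f13_3, h_f13_5_1_0, h_f23_3_1_0, h_f23_5, h_f23_7_0_0, h_f33_4, h_o0, h_o2, s2]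
        · linarith only [h_a2, h_f11_0, h_f11_1, h_f23_3_2_0, h_f23_5, h_f23_7_0_0, h_f33_4, h_o0, h_o2, s2]
      · rcases h_f22_5 with h_f22_5_0_0 | h_f22_5_1_0
        · rcases h_f22_2 with h_f22_2_0_0 | h_f22_2_1_0
          · linarith only [h_a1, h_a3, h_f22_2_0_0, h_f22_4, h_f22_5_0_0, h_o1]
          · linarith only [h_a2, h_f11_0, h_f11_1, h_f13_0, h_f13_3, h_f13_5_1_0, h_f22_2_1_0, h_f22_4, h_f22_5_0_0, h_f23_5, h_f33_4, h_o0, h_o2, s2]
        · rcases h_f13_8 with h_f13_8_0_0 | h_f13_8_1_0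
          · linarith only [h_a4, h_b5, h_f13_5_1_0, h_f13_7, h_f13_8_0_0, h_o1, h_o2]
          · rcases h_f22_2 with h_f22_2_0_0 | h_f22_2_1_0
            · rcases h_p13_22A with h_p13_22A_0_0 | h_p13_22A_1_0 | h_p13_22A_2_0 | h_p13_22A_3_0 | h_p13_22A_4_0 | h_p13_22A_5_0
              · linarith only [e0, h_o0, h_p13_22A_0_0]
              · linarith only [e2, h_p13_22A_1_0]
              · linarith only [e0, h_b1, h_f22_1, h_f22_2_0_0, h_p13_22A_2_0]
              · linarith only [h_f11_0, h_f13_2_0_0, h_f22_2_0_0, h_f23_0, h_f33_0, h_o0, h_p13_22A_3_0, s1]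
              · rcases h_p11_22B with h_p11_22B_0_0 | h_p11_22B_1_0 | h_p11_22B_2_0 | h_p11_22B_3_0 | h_p11_22B_4_0
                · linarith only [e0, h_p11_22B_0_0]
                · linarith only [e0, h_f11_0, h_f22_1, h_f22_2_0_0, h_f23_0, h_f33_0, h_o0, h_p11_22B_1_0, s1]
                · linarith only [h_f11_0, h_f22_2_0_0, h_f23_0, h_f33_0, h_o0, h_p11_22B_2_0, s1]
                · linarith only [h_f13_5_1_0, h_f22_5_1_0, h_f23_5, h_f33_4, h_o2, h_p11_22B_3_0, h_p13_22A_4_0, s2]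
                · linarith only [h_b5, h_f11_2, h_f13_5_1_0, h_f22_5_1_0, h_f22_6, h_f23_5, h_f33_4, h_o2, h_p11_22B_4_0, h_p13_22A_4_0, s2]
              · linarith only [h_b5, h_f13_8_1_0, h_f22_5_1_0, h_f22_6, h_o2, h_p13_22A_5_0]
            · rcases h_tmpp with h_tmpp_0_0 | h_tmpp_1_0 | h_tmpp_2_0 | h_tmpp_3_0
              · linarith only [h_f11_0, h_f23_0, h_f33_0, h_o0, h_tmpp_0_0, s1]
              · rcases h_p11_22B with h_p11_22B_0_0 | h_p11_22B_1_0 | h_p11_22B_2_0 | h_p11_22B_3_0 | h_p11_22B_4_0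
                · linarith only [e0, h_p11_22B_0_0]
                · linarith only [e0, h_b2, h_p11_22B_1_0]
                · rcases h_p11_33A with h_p11_33A_0_0 | h_p11_33A_1_0 | h_p11_33A_2_0 | h_p11_33A_3_0 | h_p11_33A_4_0
                  · linarith only [e0, h_p11_33A_0_0]
                  · linarith only [e3, h_p11_33A_1_0]
                  · linarith only [h_f23_1, h_p11_33A_2_0, h_tmpp_1_0, s1]
                  · linarith only [h_f23_5, h_p11_33A_3_0, s2]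
                  · rcases h_f33_5 with h_f33_5_0_0 | h_f33_5_1_0
                    · linarith only [h_f11_0, h_f13_0, h_f13_3, h_f13_5_1_0, h_f23_1, h_f23_9, h_f33_4, h_f33_5_0_0, h_o0, h_p11_33A_4_0, h_tmpp_1_0, s1, s3]
                    · rcases h_f33_8 with h_f33_8_0_0 | h_f33_8_1_0
                      · linarith only [h_a5, h_f11_0, h_f11_1, h_f11_2, h_f13_0, h_f13_3, h_f13_5_1_0, h_f23_1, h_f23_9, h_f33_1, h_f33_5_1_0, h_f33_8_0_0, h_o0, h_p11_33A_4_0, h_tmpp_1_0, s1, s3]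
                      · linarith only [h_b5, h_f11_0, h_f11_1, h_f11_2, h_f13_0, h_f13_3, h_f13_5_1_0, h_f22_2_1_0, h_f23_1, h_f23_5, h_f23_9, h_f33_1, h_f33_4, h_f33_8_1_0, h_o0, h_p11_22B_2_0, h_p11_33A_4_0, s1, s2, s3]
                · linarith only [h_f11_1, h_f13_0, h_f13_3, h_f13_5_1_0, h_f22_5_1_0, h_f23_1, h_f33_1, h_o1, h_o2, h_p11_22B_3_0, h_tmpp_1_0, s1]
                · linarith only [h_b5, h_f11_1, h_f11_2, h_f13_0, h_f13_3, h_f13_5_1_0, h_f22_5_1_0, h_f22_6, h_f23_1, h_f23_5, h_f23_8, h_f33_1, h_f33_7, h_o1, h_p11_22B_4_0, h_tmpp_1_0, s1, s3]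
              · linarith only [e0, h_tmpp_2_0]
              · rcases h_p13_22A with h_p13_22A_0_0 | h_p13_22A_1_0 | h_p13_22A_2_0 | h_p13_22A_3_0 | h_p13_22A_4_0 | h_p13_22A_5_0
                · linarith only [e0, h_o0, h_p13_22A_0_0]
                · linarith only [e2, h_p13_22A_1_0]
                · linarith only [e0, h_b2, h_p13_22A_2_0]
                · rcases h_p13_23A with h_p13_23A_0_0 | h_p13_23A_1_0 | h_p13_23A_2_0 | h_p13_23A_3_0 | h_p13_23A_4_0 | h_p13_23A_5_0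
                  · linarith only [e0, h_f11_0, h_f11_1, h_f13_2_0_0, h_f13_3, h_f13_5_1_0, h_f22_2_1_0, h_f23_1, h_f23_5, h_f33_1, h_f33_4, h_o2, h_p13_22A_3_0, h_p13_23A_0_0, h_tmpp_3_0, s1, s2]
                  · linarith only [e2, h_p13_23A_1_0]
                  · linarith only [e1, h_p13_23A_2_0]
                  · linarith only [h_f11_0, h_f13_2_0_0, h_f13_3, h_f13_5_1_0, h_f22_2_1_0, h_f33_1, h_o2, h_p13_22A_3_0, h_p13_23A_3_0, h_tmpp_3_0, s1]
                  · linarith only [h_f11_0, h_f11_1, h_f13_2_0_0, h_f13_3, h_f13_5_1_0, h_f22_2_1_0, h_f23_1, h_f33_1, h_f33_4, h_o2, h_p13_22A_3_0, h_p13_23A_4_0, h_tmpp_3_0, s1, s2]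
                  · rcases h_f23_10 with h_f23_10_0_0 | h_f23_10_1_0
                    · linarith only [h_f11_0, h_f11_1, h_f11_2, h_f13_2_0_0, h_f13_3, h_f13_5_1_0, h_f13_8_1_0, h_f22_2_1_0, h_f23_1, h_f23_10_0_0, h_f23_7_1_0, h_f33_1, h_f33_7, h_o2, h_p13_22A_3_0, h_p13_23A_5_0, h_tmpp_3_0, s1, s3]
                    · linarith only [h_f13_8_1_0, h_f23_10_1_0, h_o2, h_p13_23A_5_0]
                · linarith only [h_f11_0, h_f11_1, h_f13_5_1_0, h_f22_5_1_0, h_f23_5, h_f33_4, h_o2, h_p13_22A_4_0, h_tmpp_3_0, s2]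
                · linarith only [h_b5, h_f13_8_1_0, h_f22_5_1_0, h_f22_6, h_o2, h_p13_22A_5_0]
      · linarith only [h_a4, h_f23_5, h_f23_7_2_0, h_o2]
  · linarith only [h_a2, h_a4, h_f13_0, h_f13_2_1_0, h_o2]

theorem c0_11_13_23_k0 {n1 n2 n3 A1 A2 A3 B1 B2 B3 m11_1 m11_2 m11_3 m13_1 m13_2 m13_3 m22_1 m22_2 m22_3 m23_1 m23_2 m23_3 m33_1 m33_2 m33_3 : ℤ}
    (C : Ctx0 n1 n2 n3 A1 A2 A3 B1 B2 B3 m11_1 m11_2 m11_3 m13_1 m13_2 m13_3 m22_1 m22_2 m22_3 m23_1 m23_2 m23_3 m33_1 m33_2 m33_3)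
    (e0 : 0 < B1)
    (e1 : 0 < A1)
    (e2 : 0 < B3)
    (e3 : 0 < A2)
    (s1 : 0 * A1 + 3 * B1 ≤ m11_1 + m13_1 + m23_1)
    (s2 : 0 * A2 + 3 * B2 ≤ m11_2 + m13_2 + m23_2)
    (s3 : 0 * A3 + 3 * B3 ≤ m11_3 + m13_3 + m23_3) : False := by
  have h_t12 : (1 ≤ A1 ∧ A2 + 1 ≤ A1 + n2) ∨ (1 ≤ B1 ∧ B2 + 1 ≤ B1 + n2) := by
    have t := C.t12
    clear s1 s2 s3
    omega
  have h_t23 : (A1 + 1 ≤ A2 ∧ A3 + 1 ≤ A2 + n3) ∨ (B1 + 1 ≤ B2 ∧ B3 + 1 ≤ B2 + n3) := by
    have t := C.t23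
    clear s1 s2 s3
    omega
  have h_f13_2 : (m13_1 + 1 = A1) ∨ (m13_1 + 1 = B3) := by
    have t := C.f13_2
    clear s1 s2 s3
    omega
  have h_f13_5 : (m13_2 = m13_1 + n2) ∨ (m13_2 + 1 = B3) := by
    have t := C.f13_5
    clear s1 s2 s3
    omega
  have h_f22_2 : (m22_1 = n1) ∨ (m22_1 + 1 = B2) := by
    have t := C.f22_2
    clear s1 s2 s3
    omega
  have h_f22_5 : (m22_2 = m22_1 + n2) ∨ (m22_2 + 1 = B2) := by
    have t := C.f22_5
    clear s1 s2 s3
    omega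
  have h_f23_3 : (m23_1 = n1) ∨ (m23_1 + 1 = A2) ∨ (m23_1 + 1 = B3) := by
    have t := C.f23_3
    clear s1 s2 s3
    omega
  have h_f23_7 : (m23_2 = m23_1 + n2) ∨ (m23_2 + 1 = A2) ∨ (m23_2 + 1 = B3) := by
    have t := C.f23_7
    clear s1 s2 s3
    omega
  have h_f33_2 : (m33_1 = n1) ∨ (m33_1 + 1 = A3) := by
    have t := C.f33_2
    clear s1 s2 s3
    omega
  have h_f33_5 : (m33_2 = m33_1 + n2) ∨ (m33_2 + 1 = A3) := by
    have t := C.f33_5
    clear s1 s2 s3
    omega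
  have h_f33_8 : (m33_3 = m33_2 + n3) ∨ (m33_3 + 1 = A3) := by
    have t := C.f33_8
    clear s1 s2 s3
    omega
  have h_p11_13B : (B1 ≤ 0) ∨ (A1 ≤ 0) ∨ (B3 ≤ 0) ∨ (m11_1 + m13_1 + 1 ≤ 2 * B1) ∨ (m11_2 + m13_2 + 1 ≤ 2 * B2) ∨ (m11_3 + m13_3 + 1 ≤ 2 * B3) := by
    have t := C.p11_13B
    clear s1 s2 s3
    omega
  have h_p11_22B : (B1 ≤ 0) ∨ (B2 ≤ 0) ∨ (m11_1 + m22_1 + 1 ≤ 2 * B1) ∨ (m11_2 + m22_2 + 1 ≤ 2 * B2) ∨ (m11_3 + m22_3 + 1 ≤ 2 * B3) := by
    have t := C.p11_22B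
    clear s1 s2 s3
    omega
  have h_p11_23B : (B1 ≤ 0) ∨ (A2 ≤ 0) ∨ (B3 ≤ 0) ∨ (m11_1 + m23_1 + 1 ≤ 2 * B1) ∨ (m11_2 + m23_2 + 1 ≤ 2 * B2) ∨ (m11_3 + m23_3 + 1 ≤ 2 * B3) := by
    have t := C.p11_23B
    clear s1 s2 s3
    omega
  have h_p11_33B : (B1 ≤ 0) ∨ (A3 ≤ 0) ∨ (m11_1 + m33_1 + 1 ≤ 2 * B1) ∨ (m11_2 + m33_2 + 1 ≤ 2 * B2) ∨ (m11_3 + m33_3 + 1 ≤ 2 * B3) := by
    have t := C.p11_33B
    clear s1 s2 s3
    omega
  have h_p13_22B : (A1 ≤ 0) ∨ (B3 ≤ 0) ∨ (B2 ≤ 0) ∨ (m13_1 + m22_1 + 1 ≤ 2 * B1) ∨ (m13_2 + m22_2 + 1 ≤ 2 * B2) ∨ (m13_3 + m22_3 + 1 ≤ 2 * B3) := by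
    have t := C.p13_22B
    clear s1 s2 s3
    omega
  have h_tzpm : (A2 ≤ A1) ∨ (A2 + n3 ≤ A3 + 1) ∨ (B1 + n2 ≤ B2) ∨ (B3 ≤ B2 + 1) ∨ (B2 + 1 ≤ A2 ∧ B3 ≤ A3 + 1) := by
    have t := C.tzpm
    clear s1 s2 s3
    omega
  have h_a1 := C.a1
  have h_a2 := C.a2
  have h_a3 := C.a3
  have h_a4 := C.a4
  have h_b1 := C.b1
  have h_b3 := C.b3
  have h_b5 := C.b5
  have h_o0 := C.o0
  have h_o1 := C.o1
  have h_o2 := C.o2
  have h_f11_0 := C.f11_0
  have h_f11_1 := C.f11_1
  have h_f11_2 := C.f11_2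
  have h_f13_0 := C.f13_0
  have h_f13_3 := C.f13_3
  have h_f13_4 := C.f13_4
  have h_f13_7 := C.f13_7
  have h_f22_1 := C.f22_1
  have h_f22_4 := C.f22_4
  have h_f22_6 := C.f22_6
  have h_f23_0 := C.f23_0
  have h_f23_1 := C.f23_1
  have h_f23_5 := C.f23_5
  have h_f23_9 := C.f23_9
  have h_f33_0 := C.f33_0
  have h_f33_1 := C.f33_1
  have h_f33_4 := C.f33_4
  clear C
  rcases h_f13_2 with h_f13_2_0_0 | h_f13_2_1_0
  · rcases h_t23 with ⟨h_t23_0_0, h_t23_0_1⟩ | ⟨h_t23_1_0, h_t23_1_1⟩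
    · rcases h_f22_2 with h_f22_2_0_0 | h_f22_2_1_0
      · rcases h_f13_5 with h_f13_5_0_0 | h_f13_5_1_0
        · rcases h_f22_5 with h_f22_5_0_0 | h_f22_5_1_0
          · linarith only [h_a1, h_b3, h_f22_2_0_0, h_f22_4, h_f22_5_0_0, h_o0]
          · rcases h_p13_22B with h_p13_22B_0_0 | h_p13_22B_1_0 | h_p13_22B_2_0 | h_p13_22B_3_0 | h_p13_22B_4_0 | h_p13_22B_5_0
            · linarith only [e1, h_p13_22B_0_0]
            · linarith only [e2, h_p13_22B_1_0]
            · linarith only [e1, h_a1, h_f22_1, h_f22_2_0_0, h_p13_22B_2_0]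
            · linarith only [h_a1, h_f13_2_0_0, h_f22_2_0_0, h_o0, h_p13_22B_3_0]
            · linarith only [h_a3, h_f11_0, h_f11_1, h_f13_2_0_0, h_f13_5_0_0, h_f22_5_1_0, h_f23_5, h_o0, h_p13_22B_4_0, s2]
            · rcases h_p11_22B with h_p11_22B_0_0 | h_p11_22B_1_0 | h_p11_22B_2_0 | h_p11_22B_3_0 | h_p11_22B_4_0
              · linarith only [e0, h_p11_22B_0_0]
              · linarith only [e0, h_a1, h_f22_1, h_f22_2_0_0, h_o0, h_p11_22B_1_0]
              · linarith only [h_a1, h_f11_0, h_f22_2_0_0, h_o0, h_p11_22B_2_0]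
              · linarith only [h_f11_2, h_f22_5_1_0, h_f22_6, h_f23_9, h_p11_22B_3_0, h_p13_22B_5_0, s3]
              · linarith only [h_b5, h_f13_7, h_f22_5_1_0, h_f22_6, h_f23_9, h_p11_22B_4_0, s3]
        · rcases h_f22_5 with h_f22_5_0_0 | h_f22_5_1_0
          · linarith only [h_a1, h_a4, h_f11_0, h_f11_1, h_f13_0, h_f13_3, h_f13_5_1_0, h_f22_2_0_0, h_f22_4, h_f22_5_0_0, h_f23_5, h_o0, h_o2, s2]
          · rcases h_p11_23B with h_p11_23B_0_0 | h_p11_23B_1_0 | h_p11_23B_2_0 | h_p11_23B_3_0 | h_p11_23B_4_0 | h_p11_23B_5_0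
            · linarith only [e0, h_p11_23B_0_0]
            · linarith only [e3, h_p11_23B_1_0]
            · linarith only [e2, h_p11_23B_2_0]
            · rcases h_f23_3 with h_f23_3_0_0 | h_f23_3_1_0 | h_f23_3_2_0
              · linarith only [h_a1, h_f11_0, h_f13_0, h_f23_3_0_0, h_p11_23B_3_0, s1]
              · linarith only [h_f11_0, h_f13_0, h_f23_3_1_0, h_p11_23B_3_0, h_t23_0_0, s1]
              · linarith only [h_a4, h_f11_0, h_f13_0, h_f23_3_2_0, h_o2, h_p11_23B_3_0, h_t23_0_0, s1]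
            · rcases h_p11_13B with h_p11_13B_0_0 | h_p11_13B_1_0 | h_p11_13B_2_0 | h_p11_13B_3_0 | h_p11_13B_4_0 | h_p11_13B_5_0
              · linarith only [e0, h_p11_13B_0_0]
              · linarith only [e1, h_p11_13B_1_0]
              · linarith only [e2, h_p11_13B_2_0]
              · rcases h_p13_22B with h_p13_22B_0_0 | h_p13_22B_1_0 | h_p13_22B_2_0 | h_p13_22B_3_0 | h_p13_22B_4_0 | h_p13_22B_5_0
                · linarith only [e1, h_p13_22B_0_0]
                · linarith only [e2, h_p13_22B_1_0]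
                · linarith only [e1, h_a1, h_f22_1, h_f22_2_0_0, h_p13_22B_2_0]
                · linarith only [h_f11_0, h_f22_2_0_0, h_f23_0, h_p13_22B_3_0, s1]
                · linarith only [h_f22_5_1_0, h_p11_23B_4_0, h_p13_22B_4_0, s2]
                · rcases h_f23_7 with h_f23_7_0_0 | h_f23_7_1_0 | h_f23_7_2_0
                  · linarith only [h_f11_0, h_f11_1, h_f11_2, h_f22_5_1_0, h_f22_6, h_f23_7_0_0, h_f23_9, h_p11_13B_3_0, h_p11_23B_4_0, h_p13_22B_5_0, s1, s3]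
                  · linarith only [h_f11_2, h_f22_5_1_0, h_f22_6, h_f23_7_1_0, h_f23_9, h_o1, h_p11_23B_4_0, h_p13_22B_5_0, s3]
                  · linarith only [h_f11_2, h_f13_4, h_f22_5_1_0, h_f22_6, h_f23_7_2_0, h_f23_9, h_p11_23B_4_0, h_p13_22B_5_0, s2, s3]
              · linarith only [h_b3, h_f11_0, h_f11_1, h_p11_13B_4_0, h_p11_23B_4_0, s2]
              · linarith only [h_f23_9, h_p11_13B_5_0, s3]
            · linarith only [h_f13_7, h_p11_23B_5_0, s3]
      · rcases h_f22_5 with h_f22_5_0_0 | h_f22_5_1_0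
        · linarith only [h_a3, h_f22_2_1_0, h_f22_4, h_f22_5_0_0, h_t23_0_0]
        · rcases h_f23_3 with h_f23_3_0_0 | h_f23_3_1_0 | h_f23_3_2_0
          · rcases h_p11_23B with h_p11_23B_0_0 | h_p11_23B_1_0 | h_p11_23B_2_0 | h_p11_23B_3_0 | h_p11_23B_4_0 | h_p11_23B_5_0
            · linarith only [e0, h_p11_23B_0_0]
            · linarith only [e3, h_p11_23B_1_0]
            · linarith only [e2, h_p11_23B_2_0]
            · linarith only [h_a1, h_f11_0, h_f13_0, h_f23_3_0_0, h_p11_23B_3_0, s1]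
            · rcases h_f23_7 with h_f23_7_0_0 | h_f23_7_1_0 | h_f23_7_2_0
              · linarith only [h_a1, h_b3, h_f11_0, h_f11_1, h_f13_0, h_f13_3, h_f23_3_0_0, h_f23_7_0_0, h_p11_23B_4_0, s2]
              · rcases h_p13_22B with h_p13_22B_0_0 | h_p13_22B_1_0 | h_p13_22B_2_0 | h_p13_22B_3_0 | h_p13_22B_4_0 | h_p13_22B_5_0
                · linarith only [e1, h_p13_22B_0_0]
                · linarith only [e2, h_p13_22B_1_0]
                · linarith only [e0, h_a1, h_f11_0, h_f11_1, h_f13_0, h_f13_3, h_f23_1, h_f23_3_0_0, h_f23_7_1_0, h_p11_23B_4_0, h_p13_22B_2_0, s2]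
                · linarith only [h_a1, h_f11_0, h_f11_1, h_f13_0, h_f13_3, h_f22_2_1_0, h_f23_1, h_f23_3_0_0, h_f23_7_1_0, h_p11_23B_4_0, h_p13_22B_3_0, s1, s2]
                · linarith only [h_f22_5_1_0, h_p11_23B_4_0, h_p13_22B_4_0, s2]
                · linarith only [h_f11_2, h_f22_5_1_0, h_f22_6, h_f23_7_1_0, h_f23_9, h_o1, h_p11_23B_4_0, h_p13_22B_5_0, s3]
              · linarith only [h_a4, h_f23_5, h_f23_7_2_0, h_o2]
            · linarith only [h_f13_7, h_p11_23B_5_0, s3]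
          · rcases h_f23_7 with h_f23_7_0_0 | h_f23_7_1_0 | h_f23_7_2_0
            · linarith only [h_a3, h_f23_3_1_0, h_f23_5, h_f23_7_0_0, h_t23_0_0]
            · rcases h_p11_23B with h_p11_23B_0_0 | h_p11_23B_1_0 | h_p11_23B_2_0 | h_p11_23B_3_0 | h_p11_23B_4_0 | h_p11_23B_5_0
              · linarith only [e0, h_p11_23B_0_0]
              · linarith only [e3, h_p11_23B_1_0]
              · linarith only [e2, h_p11_23B_2_0]
              · linarith only [h_f11_0, h_f13_0, h_f23_3_1_0, h_p11_23B_3_0, h_t23_0_0, s1]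
              · rcases h_p13_22B with h_p13_22B_0_0 | h_p13_22B_1_0 | h_p13_22B_2_0 | h_p13_22B_3_0 | h_p13_22B_4_0 | h_p13_22B_5_0
                · linarith only [e1, h_p13_22B_0_0]
                · linarith only [e2, h_p13_22B_1_0]
                · linarith only [e0, h_f11_0, h_f11_1, h_f13_0, h_f13_3, h_f23_7_1_0, h_p11_23B_4_0, h_p13_22B_2_0, h_t23_0_0, s2]
                · linarith only [h_f11_0, h_f11_1, h_f13_0, h_f13_3, h_f22_2_1_0, h_f23_1, h_f23_7_1_0, h_p11_23B_4_0, h_p13_22B_3_0, h_t23_0_0, s1, s2]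
                · linarith only [h_f22_5_1_0, h_p11_23B_4_0, h_p13_22B_4_0, s2]
                · linarith only [h_f11_2, h_f22_5_1_0, h_f22_6, h_f23_7_1_0, h_f23_9, h_o1, h_p11_23B_4_0, h_p13_22B_5_0, s3]
              · linarith only [h_f13_7, h_p11_23B_5_0, s3]
            · linarith only [h_a4, h_f23_5, h_f23_7_2_0, h_o2]
          · linarith only [h_a4, h_f23_1, h_f23_3_2_0, h_o2]
    · rcases h_f22_5 with h_f22_5_0_0 | h_f22_5_1_0
      · rcases h_f22_2 with h_f22_2_0_0 | h_f22_2_1_0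
        · linarith only [h_a1, h_a3, h_b1, h_f11_0, h_f11_1, h_f13_0, h_f13_3, h_f22_2_0_0, h_f22_4, h_f22_5_0_0, h_f23_5, s2]
        · linarith only [h_b3, h_f22_2_1_0, h_f22_4, h_f22_5_0_0, h_t23_1_0]
      · rcases h_t12 with ⟨h_t12_0_0, h_t12_0_1⟩ | ⟨h_t12_1_0, h_t12_1_1⟩
        · rcases h_f13_5 with h_f13_5_0_0 | h_f13_5_1_0
          · rcases h_f23_7 with h_f23_7_0_0 | h_f23_7_1_0 | h_f23_7_2_0
            · rcases h_f23_3 with h_f23_3_0_0 | h_f23_3_1_0 | h_f23_3_2_0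
              · linarith only [h_a1, h_f23_3_0_0, h_f23_5, h_f23_7_0_0, h_t12_0_1]
              · linarith only [h_a2, h_f23_3_1_0, h_f23_5, h_f23_7_0_0, h_t12_0_1]
              · linarith only [h_a2, h_a4, h_f23_3_2_0, h_f23_5, h_f23_7_0_0, h_o2, h_t12_0_1]
            · rcases h_p11_13B with h_p11_13B_0_0 | h_p11_13B_1_0 | h_p11_13B_2_0 | h_p11_13B_3_0 | h_p11_13B_4_0 | h_p11_13B_5_0
              · linarith only [e0, h_p11_13B_0_0]
              · linarith only [e1, h_p11_13B_1_0]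
              · linarith only [e2, h_p11_13B_2_0]
              · rcases h_p11_23B with h_p11_23B_0_0 | h_p11_23B_1_0 | h_p11_23B_2_0 | h_p11_23B_3_0 | h_p11_23B_4_0 | h_p11_23B_5_0
                · linarith only [e0, h_p11_23B_0_0]
                · linarith only [e3, h_p11_23B_1_0]
                · linarith only [e2, h_p11_23B_2_0]
                · linarith only [h_f11_0, h_p11_13B_3_0, h_p11_23B_3_0, s1]
                · rcases h_p13_22B with h_p13_22B_0_0 | h_p13_22B_1_0 | h_p13_22B_2_0 | h_p13_22B_3_0 | h_p13_22B_4_0 | h_p13_22B_5_0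
                  · linarith only [e1, h_p13_22B_0_0]
                  · linarith only [e2, h_p13_22B_1_0]
                  · linarith only [e0, h_f11_0, h_f11_1, h_f13_3, h_f23_1, h_f23_7_1_0, h_p11_13B_3_0, h_p11_23B_4_0, h_p13_22B_2_0, s1, s2]
                  · rcases h_f22_2 with h_f22_2_0_0 | h_f22_2_1_0
                    · linarith only [h_a1, h_f11_0, h_f11_1, h_f13_0, h_f13_3, h_f22_2_0_0, h_f23_7_1_0, h_o1, h_p11_23B_4_0, h_p13_22B_3_0, s2]
                    · linarith only [h_a2, h_f11_0, h_f11_1, h_f13_0, h_f13_3, h_f22_2_1_0, h_f23_1, h_f23_7_1_0, h_p11_23B_4_0, h_p13_22B_3_0, s1, s2]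
                  · linarith only [h_f22_5_1_0, h_p11_23B_4_0, h_p13_22B_4_0, s2]
                  · linarith only [h_f11_2, h_f22_5_1_0, h_f22_6, h_f23_7_1_0, h_f23_9, h_o1, h_p11_23B_4_0, h_p13_22B_5_0, s3]
                · linarith only [h_f13_7, h_p11_23B_5_0, s3]
              · linarith only [h_b3, h_f11_0, h_f11_1, h_f13_2_0_0, h_f13_5_0_0, h_f23_5, h_p11_13B_4_0, h_t12_0_1, s2]
              · linarith only [h_f23_9, h_p11_13B_5_0, s3]
            · linarith only [h_f13_2_0_0, h_f13_4, h_f13_5_0_0, h_f23_5, h_f23_7_2_0, h_t12_0_1]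
          · rcases h_p11_13B with h_p11_13B_0_0 | h_p11_13B_1_0 | h_p11_13B_2_0 | h_p11_13B_3_0 | h_p11_13B_4_0 | h_p11_13B_5_0
            · linarith only [e0, h_p11_13B_0_0]
            · linarith only [e1, h_p11_13B_1_0]
            · linarith only [e2, h_p11_13B_2_0]
            · rcases h_tzpm with h_tzpm_0_0 | h_tzpm_1_0 | h_tzpm_2_0 | h_tzpm_3_0 | ⟨h_tzpm_4_0, h_tzpm_4_1⟩
              · linarith only [h_f11_0, h_f13_2_0_0, h_f23_1, h_p11_13B_3_0, h_tzpm_0_0, s1]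
              · linarith only [h_o1, h_o2, h_t23_1_1, h_tzpm_1_0]
              · linarith only [h_f11_0, h_f11_1, h_f13_2_0_0, h_f13_3, h_f23_5, h_p11_13B_3_0, h_t12_0_1, h_tzpm_2_0, s2]
              · rcases h_p11_23B with h_p11_23B_0_0 | h_p11_23B_1_0 | h_p11_23B_2_0 | h_p11_23B_3_0 | h_p11_23B_4_0 | h_p11_23B_5_0
                · linarith only [e0, h_p11_23B_0_0]
                · linarith only [e3, h_p11_23B_1_0]
                · linarith only [e2, h_p11_23B_2_0]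
                · linarith only [h_f11_0, h_p11_13B_3_0, h_p11_23B_3_0, s1]
                · linarith only [h_f13_4, h_p11_23B_4_0, h_tzpm_3_0, s2]
                · linarith only [h_f13_7, h_p11_23B_5_0, s3]
              · rcases h_p11_23B with h_p11_23B_0_0 | h_p11_23B_1_0 | h_p11_23B_2_0 | h_p11_23B_3_0 | h_p11_23B_4_0 | h_p11_23B_5_0
                · linarith only [e0, h_p11_23B_0_0]
                · linarith only [e3, h_p11_23B_1_0]
                · linarith only [e2, h_p11_23B_2_0]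
                · linarith only [h_f11_0, h_p11_13B_3_0, h_p11_23B_3_0, s1]
                · rcases h_f23_7 with h_f23_7_0_0 | h_f23_7_1_0 | h_f23_7_2_0
                  · linarith only [h_f11_0, h_f11_1, h_f13_2_0_0, h_f23_7_0_0, h_p11_13B_3_0, h_p11_23B_4_0, h_t12_0_1, h_tzpm_4_0, s1]
                  · linarith only [h_f11_0, h_f11_1, h_f13_2_0_0, h_f23_7_1_0, h_p11_13B_3_0, h_p11_23B_4_0, h_t12_0_1, h_tzpm_4_0]
                  · linarith only [h_a4, h_f11_0, h_f11_1, h_f13_2_0_0, h_f23_7_2_0, h_o2, h_p11_13B_3_0, h_p11_23B_4_0, h_t12_0_1, h_tzpm_4_0]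
                · linarith only [h_f13_7, h_p11_23B_5_0, s3]
            · linarith only [h_a4, h_b3, h_f11_0, h_f11_1, h_f13_5_1_0, h_f23_5, h_o2, h_p11_13B_4_0, s2]
            · linarith only [h_f23_9, h_p11_13B_5_0, s3]
        · rcases h_f23_7 with h_f23_7_0_0 | h_f23_7_1_0 | h_f23_7_2_0
          · rcases h_f23_3 with h_f23_3_0_0 | h_f23_3_1_0 | h_f23_3_2_0
            · linarith only [h_a1, h_a3, h_f23_3_0_0, h_f23_5, h_f23_7_0_0]
            · linarith only [h_f23_3_1_0, h_f23_5, h_f23_7_0_0, h_t12_1_1, h_t23_1_0]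
            · linarith only [h_a4, h_f23_3_2_0, h_f23_5, h_f23_7_0_0, h_o2, h_t12_1_1, h_t23_1_0]
          · rcases h_f33_2 with h_f33_2_0_0 | h_f33_2_1_0
            · rcases h_f13_5 with h_f13_5_0_0 | h_f13_5_1_0
              · rcases h_p11_13B with h_p11_13B_0_0 | h_p11_13B_1_0 | h_p11_13B_2_0 | h_p11_13B_3_0 | h_p11_13B_4_0 | h_p11_13B_5_0
                · linarith only [e0, h_p11_13B_0_0]
                · linarith only [e1, h_p11_13B_1_0]
                · linarith only [e2, h_p11_13B_2_0]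
                · rcases h_p11_23B with h_p11_23B_0_0 | h_p11_23B_1_0 | h_p11_23B_2_0 | h_p11_23B_3_0 | h_p11_23B_4_0 | h_p11_23B_5_0
                  · linarith only [e0, h_p11_23B_0_0]
                  · linarith only [e3, h_p11_23B_1_0]
                  · linarith only [e2, h_p11_23B_2_0]
                  · linarith only [h_f11_0, h_p11_13B_3_0, h_p11_23B_3_0, s1]
                  · rcases h_p13_22B with h_p13_22B_0_0 | h_p13_22B_1_0 | h_p13_22B_2_0 | h_p13_22B_3_0 | h_p13_22B_4_0 | h_p13_22B_5_0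
                    · linarith only [e1, h_p13_22B_0_0]
                    · linarith only [e2, h_p13_22B_1_0]
                    · linarith only [e0, h_a2, h_f11_0, h_f11_1, h_f13_0, h_f13_3, h_f23_7_1_0, h_p11_23B_4_0, h_p13_22B_2_0, s2]
                    · rcases h_f22_2 with h_f22_2_0_0 | h_f22_2_1_0
                      · linarith only [h_a1, h_f13_2_0_0, h_f22_2_0_0, h_o0, h_p13_22B_3_0]
                      · linarith only [h_a2, h_f11_0, h_f11_1, h_f13_0, h_f13_3, h_f22_2_1_0, h_f23_1, h_f23_7_1_0, h_p11_23B_4_0, h_p13_22B_3_0, s1, s2]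
                    · linarith only [h_f22_5_1_0, h_p11_23B_4_0, h_p13_22B_4_0, s2]
                    · linarith only [h_f11_2, h_f22_5_1_0, h_f22_6, h_f23_7_1_0, h_f23_9, h_o1, h_p11_23B_4_0, h_p13_22B_5_0, s3]
                  · linarith only [h_f13_7, h_p11_23B_5_0, s3]
                · linarith only [h_a3, h_f11_0, h_f11_1, h_f13_2_0_0, h_f13_5_0_0, h_f23_5, h_p11_13B_4_0, h_t12_1_1, s2]
                · linarith only [h_f23_9, h_p11_13B_5_0, s3]
              · rcases h_f22_2 with h_f22_2_0_0 | h_f22_2_1_0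
                · rcases h_p11_22B with h_p11_22B_0_0 | h_p11_22B_1_0 | h_p11_22B_2_0 | h_p11_22B_3_0 | h_p11_22B_4_0
                  · linarith only [e0, h_p11_22B_0_0]
                  · linarith only [e0, h_a1, h_f22_1, h_f22_2_0_0, h_o0, h_p11_22B_1_0]
                  · linarith only [h_a1, h_f11_0, h_f22_2_0_0, h_o0, h_p11_22B_2_0]
                  · rcases h_p13_22B with h_p13_22B_0_0 | h_p13_22B_1_0 | h_p13_22B_2_0 | h_p13_22B_3_0 | h_p13_22B_4_0 | h_p13_22B_5_0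
                    · linarith only [e1, h_p13_22B_0_0]
                    · linarith only [e2, h_p13_22B_1_0]
                    · linarith only [e0, h_a1, h_f22_1, h_f22_2_0_0, h_o0, h_p13_22B_2_0]
                    · linarith only [h_a1, h_f13_2_0_0, h_f22_2_0_0, h_o0, h_p13_22B_3_0]
                    · linarith only [h_a4, h_f13_5_1_0, h_f22_5_1_0, h_f23_5, h_o2, h_p11_22B_3_0, h_p13_22B_4_0, s2]
                    · linarith only [h_f11_2, h_f22_5_1_0, h_f22_6, h_f23_9, h_p11_22B_3_0, h_p13_22B_5_0, s3]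
                  · linarith only [h_f13_7, h_f22_5_1_0, h_f22_6, h_f23_9, h_p11_22B_4_0, h_t23_1_1, s3]
                · rcases h_p11_33B with h_p11_33B_0_0 | h_p11_33B_1_0 | h_p11_33B_2_0 | h_p11_33B_3_0 | h_p11_33B_4_0
                  · linarith only [e0, h_p11_33B_0_0]
                  · linarith only [e3, h_a4, h_p11_33B_1_0]
                  · linarith only [h_a1, h_f11_0, h_f33_2_0_0, h_o0, h_p11_33B_2_0]
                  · rcases h_p13_22B with h_p13_22B_0_0 | h_p13_22B_1_0 | h_p13_22B_2_0 | h_p13_22B_3_0 | h_p13_22B_4_0 | h_p13_22B_5_0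
                    · linarith only [e1, h_p13_22B_0_0]
                    · linarith only [e2, h_p13_22B_1_0]
                    · linarith only [e0, h_p13_22B_2_0, h_t23_1_0]
                    · linarith only [h_f13_2_0_0, h_f22_2_1_0, h_o0, h_p13_22B_3_0, h_t23_1_0]
                    · rcases h_f33_5 with h_f33_5_0_0 | h_f33_5_1_0
                      · linarith only [h_a1, h_a3, h_f22_5_1_0, h_f23_5, h_f33_2_0_0, h_f33_5_0_0, h_p11_33B_3_0, h_p13_22B_4_0, s2]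
                      · linarith only [h_a4, h_f22_5_1_0, h_f23_5, h_f33_5_1_0, h_p11_33B_3_0, h_p13_22B_4_0, s2]
                    · rcases h_f33_5 with h_f33_5_0_0 | h_f33_5_1_0
                      · linarith only [h_a1, h_f11_0, h_f11_1, h_f33_2_0_0, h_f33_5_0_0, h_o0, h_p11_33B_3_0, h_t12_1_1]
                      · linarith only [h_a4, h_f11_2, h_f22_5_1_0, h_f22_6, h_f23_9, h_f33_5_1_0, h_o1, h_p11_33B_3_0, h_p13_22B_5_0, s3]
                  · rcases h_f33_5 with h_f33_5_0_0 | h_f33_5_1_0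
                    · linarith only [h_a1, h_f13_0, h_f13_3, h_f13_5_1_0, h_f33_2_0_0, h_f33_4, h_f33_5_0_0, h_o2]
                    · rcases h_p13_22B with h_p13_22B_0_0 | h_p13_22B_1_0 | h_p13_22B_2_0 | h_p13_22B_3_0 | h_p13_22B_4_0 | h_p13_22B_5_0
                      · linarith only [e1, h_p13_22B_0_0]
                      · linarith only [e2, h_p13_22B_1_0]
                      · linarith only [e0, h_p13_22B_2_0, h_t23_1_0]
                      · linarith only [h_f13_2_0_0, h_f22_2_1_0, h_o0, h_p13_22B_3_0, h_t23_1_0]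
                      · rcases h_f33_8 with h_f33_8_0_0 | h_f33_8_1_0
                        · linarith only [h_a4, h_f11_2, h_f22_5_1_0, h_f23_5, h_f33_5_1_0, h_f33_8_0_0, h_p11_33B_4_0, h_p13_22B_4_0, h_t23_1_1, s2]
                        · linarith only [h_a4, h_f11_2, h_f13_5_1_0, h_f22_5_1_0, h_f23_5, h_f33_8_1_0, h_p11_33B_4_0, h_p13_22B_4_0, h_t23_1_1, s2]
                      · rcases h_f33_8 with h_f33_8_0_0 | h_f33_8_1_0
                        · linarith only [h_a4, h_f13_7, h_f23_9, h_f33_5_1_0, h_f33_8_0_0, h_o1, h_p11_33B_4_0, h_t23_1_1, s3]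
                        · rcases h_p11_22B with h_p11_22B_0_0 | h_p11_22B_1_0 | h_p11_22B_2_0 | h_p11_22B_3_0 | h_p11_22B_4_0
                          · linarith only [e0, h_p11_22B_0_0]
                          · linarith only [e0, h_p11_22B_1_0, h_t23_1_0]
                          · rcases h_p11_13B with h_p11_13B_0_0 | h_p11_13B_1_0 | h_p11_13B_2_0 | h_p11_13B_3_0 | h_p11_13B_4_0 | h_p11_13B_5_0
                            · linarith only [e0, h_p11_13B_0_0]
                            · linarith only [e1, h_p11_13B_1_0]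
                            · linarith only [e2, h_p11_13B_2_0]
                            · rcases h_p11_23B with h_p11_23B_0_0 | h_p11_23B_1_0 | h_p11_23B_2_0 | h_p11_23B_3_0 | h_p11_23B_4_0 | h_p11_23B_5_0
                              · linarith only [e0, h_p11_23B_0_0]
                              · linarith only [e3, h_p11_23B_1_0]
                              · linarith only [e2, h_p11_23B_2_0]
                              · linarith only [h_f11_0, h_p11_13B_3_0, h_p11_23B_3_0, s1]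
                              · linarith only [h_a1, h_f11_0, h_f11_1, h_f13_0, h_f13_3, h_f13_5_1_0, h_f13_7, h_f22_2_1_0, h_f23_1, h_f23_7_1_0, h_f23_9, h_f33_1, h_f33_2_0_0, h_f33_8_1_0, h_p11_13B_3_0, h_p11_22B_2_0, h_p11_23B_4_0, h_p11_33B_4_0, s1, s3]
                              · linarith only [h_f13_7, h_p11_23B_5_0, s3]
                            · linarith only [h_a1, h_a3, h_f11_0, h_f11_1, h_f13_0, h_f13_3, h_f13_5_1_0, h_f13_7, h_f22_2_1_0, h_f23_1, h_f23_9, h_f33_1, h_f33_2_0_0, h_f33_8_1_0, h_p11_13B_4_0, h_p11_22B_2_0, h_p11_33B_4_0, s1, s3]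
                            · linarith only [h_f23_9, h_p11_13B_5_0, s3]
                          · linarith only [h_f11_2, h_f22_5_1_0, h_f22_6, h_f23_9, h_p11_22B_3_0, h_p13_22B_5_0, s3]
                          · linarith only [h_f13_7, h_f22_5_1_0, h_f22_6, h_f23_9, h_p11_22B_4_0, h_t23_1_1, s3]
            · rcases h_p11_23B with h_p11_23B_0_0 | h_p11_23B_1_0 | h_p11_23B_2_0 | h_p11_23B_3_0 | h_p11_23B_4_0 | h_p11_23B_5_0
              · linarith only [e0, h_p11_23B_0_0]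
              · linarith only [e3, h_p11_23B_1_0]
              · linarith only [e2, h_p11_23B_2_0]
              · rcases h_f23_3 with h_f23_3_0_0 | h_f23_3_1_0 | h_f23_3_2_0
                · linarith only [h_a1, h_f11_0, h_f13_0, h_f23_3_0_0, h_p11_23B_3_0, s1]
                · linarith only [h_a2, h_f11_0, h_f13_0, h_f23_3_1_0, h_p11_23B_3_0, s1]
                · linarith only [h_a2, h_a4, h_f11_0, h_f13_0, h_f23_3_2_0, h_o2, h_p11_23B_3_0, s1]
              · rcases h_p11_13B with h_p11_13B_0_0 | h_p11_13B_1_0 | h_p11_13B_2_0 | h_p11_13B_3_0 | h_p11_13B_4_0 | h_p11_13B_5_0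
                · linarith only [e0, h_p11_13B_0_0]
                · linarith only [e1, h_p11_13B_1_0]
                · linarith only [e2, h_p11_13B_2_0]
                · rcases h_p13_22B with h_p13_22B_0_0 | h_p13_22B_1_0 | h_p13_22B_2_0 | h_p13_22B_3_0 | h_p13_22B_4_0 | h_p13_22B_5_0
                  · linarith only [e1, h_p13_22B_0_0]
                  · linarith only [e2, h_p13_22B_1_0]
                  · linarith only [e0, h_f11_0, h_f11_1, h_f23_1, h_f23_7_1_0, h_p11_13B_3_0, h_p11_23B_4_0, h_p13_22B_2_0, h_t12_1_1, s1]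
                  · rcases h_f22_2 with h_f22_2_0_0 | h_f22_2_1_0
                    · linarith only [h_a4, h_f11_0, h_f22_2_0_0, h_f23_1, h_f33_0, h_f33_2_1_0, h_p13_22B_3_0, s1]
                    · linarith only [h_a2, h_a3, h_f11_0, h_f11_1, h_f13_2_0_0, h_f22_2_1_0, h_f23_1, h_f23_7_1_0, h_p11_23B_4_0, h_p13_22B_3_0, s1]
                  · linarith only [h_f22_5_1_0, h_p11_23B_4_0, h_p13_22B_4_0, s2]
                  · linarith only [h_f11_2, h_f22_5_1_0, h_f22_6, h_f23_7_1_0, h_f23_9, h_o1, h_p11_23B_4_0, h_p13_22B_5_0, s3]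
                · linarith only [h_f11_0, h_f11_1, h_p11_13B_4_0, h_p11_23B_4_0, h_t12_1_1, s2]
                · linarith only [h_f23_9, h_p11_13B_5_0, s3]
              · linarith only [h_f13_7, h_p11_23B_5_0, s3]
          · linarith only [h_a4, h_f23_5, h_f23_7_2_0, h_o2]
  · linarith only [h_a2, h_a4, h_f13_0, h_f13_2_1_0, h_o2]

theorem c0_22_23_33_k3 {n1 n2 n3 A1 A2 A3 B1 B2 B3 m11_1 m11_2 m11_3 m13_1 m13_2 m13_3 m22_1 m22_2 m22_3 m23_1 m23_2 m23_3 m33_1 m33_2 m33_3 : ℤ}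
    (C : Ctx0 n1 n2 n3 A1 A2 A3 B1 B2 B3 m11_1 m11_2 m11_3 m13_1 m13_2 m13_3 m22_1 m22_2 m22_3 m23_1 m23_2 m23_3 m33_1 m33_2 m33_3)
    (e0 : 0 < B2)
    (e1 : 0 < A2)
    (e2 : 0 < B3)
    (e3 : 0 < A3)
    (s1 : 3 * A1 + 0 * B1 ≤ m22_1 + m23_1 + m33_1)
    (s2 : 3 * A2 + 0 * B2 ≤ m22_2 + m23_2 + m33_2)
    (s3 : 3 * A3 + 0 * B3 ≤ m22_3 + m23_3 + m33_3) : False := by
  have h_t12 : (1 ≤ A1 ∧ A2 + 1 ≤ A1 + n2) ∨ (1 ≤ B1 ∧ B2 + 1 ≤ B1 + n2) := by
    have t := C.t12
    clear s1 s2 s3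
    omega
  have h_t23 : (A1 + 1 ≤ A2 ∧ A3 + 1 ≤ A2 + n3) ∨ (B1 + 1 ≤ B2 ∧ B3 + 1 ≤ B2 + n3) := by
    have t := C.t23
    clear s1 s2 s3
    omega
  have h_f13_2 : (m13_1 + 1 = A1) ∨ (m13_1 + 1 = B3) := by
    have t := C.f13_2
    clear s1 s2 s3
    omega
  have h_f13_5 : (m13_2 = m13_1 + n2) ∨ (m13_2 + 1 = B3) := by
    have t := C.f13_5
    clear s1 s2 s3
    omega
  have h_f13_8 : (m13_3 = m13_2 + n3) ∨ (m13_3 + 1 = B3) := by
    have t := C.f13_8
    clear s1 s2 s3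
    omega
  have h_f22_2 : (m22_1 = n1) ∨ (m22_1 + 1 = B2) := by
    have t := C.f22_2
    clear s1 s2 s3
    omega
  have h_f22_5 : (m22_2 = m22_1 + n2) ∨ (m22_2 + 1 = B2) := by
    have t := C.f22_5
    clear s1 s2 s3
    omega
  have h_f23_7 : (m23_2 = m23_1 + n2) ∨ (m23_2 + 1 = A2) ∨ (m23_2 + 1 = B3) := by
    have t := C.f23_7
    clear s1 s2 s3
    omega
  have h_f23_10 : (m23_3 = m23_2 + n3) ∨ (m23_3 + 1 = B3) := by
    have t := C.f23_10
    clear s1 s2 s3
    omega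
  have h_f33_2 : (m33_1 = n1) ∨ (m33_1 + 1 = A3) := by
    have t := C.f33_2
    clear s1 s2 s3
    omega
  have h_f33_8 : (m33_3 = m33_2 + n3) ∨ (m33_3 + 1 = A3) := by
    have t := C.f33_8
    clear s1 s2 s3
    omega
  have h_p11_33B : (B1 ≤ 0) ∨ (A3 ≤ 0) ∨ (m11_1 + m33_1 + 1 ≤ 2 * B1) ∨ (m11_2 + m33_2 + 1 ≤ 2 * B2) ∨ (m11_3 + m33_3 + 1 ≤ 2 * B3) := by
    have t := C.p11_33B
    clear s1 s2 s3
    omega
  have h_p13_23A : (A1 ≤ 0) ∨ (B3 ≤ 0) ∨ (A2 ≤ 0) ∨ (m13_1 + m23_1 + 1 ≤ 2 * A1) ∨ (m13_2 + m23_2 + 1 ≤ 2 * A2) ∨ (m13_3 + m23_3 + 1 ≤ 2 * A3) := by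
    have t := C.p13_23A
    clear s1 s2 s3
    omega
  have h_p13_33A : (A1 ≤ 0) ∨ (B3 ≤ 0) ∨ (A3 ≤ 0) ∨ (m13_1 + m33_1 + 1 ≤ 2 * A1) ∨ (m13_2 + m33_2 + 1 ≤ 2 * A2) ∨ (m13_3 + m33_3 + 1 ≤ 2 * A3) := by
    have t := C.p13_33A
    clear s1 s2 s3
    omega
  have h_p22_33A : (B2 ≤ 0) ∨ (A3 ≤ 0) ∨ (m22_1 + m33_1 + 1 ≤ 2 * A1) ∨ (m22_2 + m33_2 + 1 ≤ 2 * A2) ∨ (m22_3 + m33_3 + 1 ≤ 2 * A3) := by
    have t := C.p22_33A
    clear s1 s2 s3
    omega
  have h_tpmm : (A1 ≤ 0) ∨ (A1 + n2 ≤ A2 + 1) ∨ (n1 ≤ B1) ∨ (B2 ≤ B1 + 1) ∨ (B3 ≤ A3 + 1) := by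
    have t := C.tpmm
    clear s1 s2 s3
    omega
  have h_a1 := C.a1
  have h_a2 := C.a2
  have h_a3 := C.a3
  have h_a5 := C.a5
  have h_b0 := C.b0
  have h_b2 := C.b2
  have h_b3 := C.b3
  have h_b4 := C.b4
  have h_b5 := C.b5
  have h_o0 := C.o0
  have h_o1 := C.o1
  have h_o2 := C.o2
  have h_f11_0 := C.f11_0
  have h_f11_1 := C.f11_1
  have h_f11_2 := C.f11_2
  have h_f13_0 := C.f13_0
  have h_f13_3 := C.f13_3
  have h_f13_7 := C.f13_7
  have h_f22_1 := C.f22_1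
  have h_f22_4 := C.f22_4
  have h_f22_6 := C.f22_6
  have h_f23_0 := C.f23_0
  have h_f23_1 := C.f23_1
  have h_f23_5 := C.f23_5
  have h_f23_9 := C.f23_9
  have h_f33_0 := C.f33_0
  have h_f33_3 := C.f33_3
  have h_f33_4 := C.f33_4
  have h_f33_7 := C.f33_7
  clear C
  rcases h_f13_5 with h_f13_5_0_0 | h_f13_5_1_0
  · rcases h_f13_2 with h_f13_2_0_0 | h_f13_2_1_0
    · rcases h_f33_2 with h_f33_2_0_0 | h_f33_2_1_0
      · rcases h_f13_8 with h_f13_8_0_0 | h_f13_8_1_0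
        · linarith only [h_b3, h_b5, h_f13_2_0_0, h_f13_5_0_0, h_f13_7, h_f13_8_0_0, h_o0]
        · rcases h_t12 with ⟨h_t12_0_0, h_t12_0_1⟩ | ⟨h_t12_1_0, h_t12_1_1⟩
          · rcases h_f33_8 with h_f33_8_0_0 | h_f33_8_1_0
            · linarith only [h_b5, h_f22_4, h_f23_5, h_f33_7, h_f33_8_0_0, h_o1, h_o2, s2]
            · rcases h_p22_33A with h_p22_33A_0_0 | h_p22_33A_1_0 | h_p22_33A_2_0 | h_p22_33A_3_0 | h_p22_33A_4_0
              · linarith only [e0, h_p22_33A_0_0]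
              · linarith only [e3, h_p22_33A_1_0]
              · rcases h_p13_33A with h_p13_33A_0_0 | h_p13_33A_1_0 | h_p13_33A_2_0 | h_p13_33A_3_0 | h_p13_33A_4_0 | h_p13_33A_5_0
                · linarith only [h_p13_33A_0_0, h_t12_0_0]
                · linarith only [e2, h_p13_33A_1_0]
                · linarith only [e3, h_p13_33A_2_0]
                · linarith only [h_f13_2_0_0, h_f23_0, h_f33_2_0_0, h_p13_33A_3_0, h_p22_33A_2_0, s1]
                · linarith only [h_b3, h_f13_2_0_0, h_f13_5_0_0, h_f22_4, h_f23_5, h_o0, h_p13_33A_4_0, s2]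
                · rcases h_f22_2 with h_f22_2_0_0 | h_f22_2_1_0
                  · linarith only [h_f22_2_0_0, h_f23_0, h_f33_2_0_0, h_p22_33A_2_0, s1]
                  · rcases h_f23_10 with h_f23_10_0_0 | h_f23_10_1_0
                    · rcases h_f23_7 with h_f23_7_0_0 | h_f23_7_1_0 | h_f23_7_2_0
                      · linarith only [h_f13_8_1_0, h_f22_2_1_0, h_f22_4, h_f22_6, h_f23_0, h_f23_1, h_f23_10_0_0, h_f23_7_0_0, h_f23_9, h_f33_2_0_0, h_f33_3, h_f33_8_1_0, h_p13_33A_5_0, h_p22_33A_2_0, s1, s2, s3]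
                      · linarith only [h_f13_8_1_0, h_f22_2_1_0, h_f22_4, h_f22_6, h_f23_0, h_f23_1, h_f23_10_0_0, h_f23_7_1_0, h_f23_9, h_f33_2_0_0, h_f33_8_1_0, h_p13_33A_5_0, h_p22_33A_2_0, s1, s3]
                      · linarith only [h_f13_8_1_0, h_f22_2_1_0, h_f22_4, h_f22_6, h_f23_0, h_f23_1, h_f23_10_0_0, h_f23_7_2_0, h_f23_9, h_f33_2_0_0, h_f33_4, h_f33_8_1_0, h_p13_33A_5_0, h_p22_33A_2_0, s1, s2, s3]
                    · rcases h_p13_23A with h_p13_23A_0_0 | h_p13_23A_1_0 | h_p13_23A_2_0 | h_p13_23A_3_0 | h_p13_23A_4_0 | h_p13_23A_5_0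
                      · linarith only [h_p13_23A_0_0, h_t12_0_0]
                      · linarith only [e2, h_p13_23A_1_0]
                      · linarith only [e1, h_p13_23A_2_0]
                      · linarith only [h_f13_2_0_0, h_p13_23A_3_0, h_p22_33A_2_0, s1]
                      · linarith only [h_f13_2_0_0, h_f13_5_0_0, h_f22_2_1_0, h_f22_4, h_f23_1, h_f33_3, h_p13_23A_4_0, h_p22_33A_2_0, s1, s2]
                      · linarith only [h_f13_8_1_0, h_f23_10_1_0, h_o2, h_p13_23A_5_0]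
              · linarith only [h_f23_5, h_p22_33A_3_0, s2]
              · rcases h_f22_5 with h_f22_5_0_0 | h_f22_5_1_0
                · rcases h_f22_2 with h_f22_2_0_0 | h_f22_2_1_0
                  · linarith only [h_a5, h_f22_2_0_0, h_f22_5_0_0, h_f22_6, h_f23_0, h_f33_0, h_f33_8_1_0, h_p22_33A_4_0, h_t12_0_1, s1]
                  · linarith only [h_a2, h_b5, h_f22_2_1_0, h_f22_5_0_0, h_f22_6, h_f23_9, h_f33_8_1_0, h_p22_33A_4_0, h_t12_0_1, s3]
                · linarith only [h_b5, h_f22_5_1_0, h_f22_6, h_f23_9, h_f33_8_1_0, h_p22_33A_4_0, s3]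
          · rcases h_f22_2 with h_f22_2_0_0 | h_f22_2_1_0
            · rcases h_p22_33A with h_p22_33A_0_0 | h_p22_33A_1_0 | h_p22_33A_2_0 | h_p22_33A_3_0 | h_p22_33A_4_0
              · linarith only [e0, h_p22_33A_0_0]
              · linarith only [e3, h_p22_33A_1_0]
              · linarith only [h_f22_2_0_0, h_f23_0, h_f33_2_0_0, h_p22_33A_2_0, s1]
              · linarith only [h_f23_5, h_p22_33A_3_0, s2]
              · rcases h_f33_8 with h_f33_8_0_0 | h_f33_8_1_0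
                · linarith only [h_b5, h_f22_4, h_f23_5, h_f33_7, h_f33_8_0_0, h_o1, h_o2, s2]
                · rcases h_f22_5 with h_f22_5_0_0 | h_f22_5_1_0
                  · linarith only [h_b5, h_f22_2_0_0, h_f22_5_0_0, h_f22_6, h_f23_5, h_f23_9, h_f33_0, h_f33_3, h_f33_8_1_0, h_o1, h_p22_33A_4_0, s2, s3]
                  · linarith only [h_b5, h_f22_5_1_0, h_f22_6, h_f23_9, h_f33_8_1_0, h_p22_33A_4_0, s3]
            · rcases h_f22_5 with h_f22_5_0_0 | h_f22_5_1_0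
              · linarith only [h_b2, h_f22_2_1_0, h_f22_4, h_f22_5_0_0, h_t12_1_1]
              · rcases h_f33_8 with h_f33_8_0_0 | h_f33_8_1_0
                · linarith only [h_b5, h_f22_4, h_f23_5, h_f33_7, h_f33_8_0_0, h_o1, h_o2, s2]
                · rcases h_p22_33A with h_p22_33A_0_0 | h_p22_33A_1_0 | h_p22_33A_2_0 | h_p22_33A_3_0 | h_p22_33A_4_0
                  · linarith only [e0, h_p22_33A_0_0]
                  · linarith only [e3, h_p22_33A_1_0]
                  · rcases h_p11_33B with h_p11_33B_0_0 | h_p11_33B_1_0 | h_p11_33B_2_0 | h_p11_33B_3_0 | h_p11_33B_4_0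
                    · linarith only [h_p11_33B_0_0, h_t12_1_0]
                    · linarith only [e3, h_p11_33B_1_0]
                    · linarith only [h_b2, h_f11_0, h_f22_2_1_0, h_f23_0, h_f33_2_0_0, h_p11_33B_2_0, h_p22_33A_2_0, s1]
                    · linarith only [h_f11_0, h_f11_1, h_f22_2_1_0, h_f22_4, h_f23_0, h_f23_1, h_f23_5, h_f33_2_0_0, h_p11_33B_3_0, h_p22_33A_2_0, h_t12_1_1, s1, s2]
                    · rcases h_p13_23A with h_p13_23A_0_0 | h_p13_23A_1_0 | h_p13_23A_2_0 | h_p13_23A_3_0 | h_p13_23A_4_0 | h_p13_23A_5_0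
                      · linarith only [e0, h_f22_2_1_0, h_f23_0, h_f33_2_0_0, h_p13_23A_0_0, h_p22_33A_2_0, s1]
                      · linarith only [e2, h_p13_23A_1_0]
                      · linarith only [e1, h_p13_23A_2_0]
                      · linarith only [h_f13_2_0_0, h_p13_23A_3_0, h_p22_33A_2_0, s1]
                      · linarith only [h_f13_2_0_0, h_f13_5_0_0, h_f22_2_1_0, h_f22_4, h_f23_1, h_f33_3, h_p13_23A_4_0, h_p22_33A_2_0, s1, s2]
                      · rcases h_f23_10 with h_f23_10_0_0 | h_f23_10_1_0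
                        · rcases h_f23_7 with h_f23_7_0_0 | h_f23_7_1_0 | h_f23_7_2_0
                          · linarith only [h_f11_0, h_f11_1, h_f11_2, h_f13_8_1_0, h_f22_2_1_0, h_f22_4, h_f22_6, h_f23_0, h_f23_1, h_f23_10_0_0, h_f23_7_0_0, h_f33_2_0_0, h_f33_3, h_f33_7, h_p11_33B_4_0, h_p13_23A_5_0, h_p22_33A_2_0, h_t12_1_1, s1, s2, s3]
                          · linarith only [h_f11_0, h_f11_1, h_f11_2, h_f13_8_1_0, h_f22_2_1_0, h_f22_4, h_f22_6, h_f23_0, h_f23_1, h_f23_10_0_0, h_f23_7_1_0, h_f33_2_0_0, h_f33_7, h_p11_33B_4_0, h_p13_23A_5_0, h_p22_33A_2_0, h_t12_1_1, s1, s3]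
                          · linarith only [h_f11_0, h_f11_1, h_f11_2, h_f13_8_1_0, h_f22_2_1_0, h_f22_4, h_f22_6, h_f23_0, h_f23_1, h_f23_10_0_0, h_f23_7_2_0, h_f33_2_0_0, h_f33_4, h_f33_7, h_p11_33B_4_0, h_p13_23A_5_0, h_p22_33A_2_0, h_t12_1_1, s1, s2, s3]
                        · linarith only [h_f11_0, h_f11_1, h_f11_2, h_f13_8_1_0, h_f22_4, h_f22_6, h_f23_10_1_0, h_p11_33B_4_0, h_p13_23A_5_0, h_t12_1_1, s3]
                  · linarith only [h_f23_5, h_p22_33A_3_0, s2]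
                  · linarith only [h_b5, h_f22_5_1_0, h_f22_6, h_f23_9, h_f33_8_1_0, h_p22_33A_4_0, s3]
      · rcases h_f13_8 with h_f13_8_0_0 | h_f13_8_1_0
        · linarith only [h_b3, h_b5, h_f13_2_0_0, h_f13_5_0_0, h_f13_7, h_f13_8_0_0, h_o0]
        · rcases h_f22_2 with h_f22_2_0_0 | h_f22_2_1_0
          · linarith only [h_f22_1, h_f22_2_0_0, h_f22_4, h_f23_5, h_f33_0, h_f33_2_1_0, h_f33_4, h_o1, s2]
          · rcases h_p13_33A with h_p13_33A_0_0 | h_p13_33A_1_0 | h_p13_33A_2_0 | h_p13_33A_3_0 | h_p13_33A_4_0 | h_p13_33A_5_0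
            · linarith only [h_b0, h_o0, h_p13_33A_0_0]
            · linarith only [e2, h_p13_33A_1_0]
            · linarith only [e3, h_p13_33A_2_0]
            · linarith only [h_f13_2_0_0, h_f22_1, h_f22_4, h_f23_1, h_f23_5, h_f33_2_1_0, h_f33_4, h_o1, h_p13_33A_3_0, s1, s2]
            · linarith only [h_b3, h_f13_2_0_0, h_f13_5_0_0, h_f22_4, h_f23_5, h_o0, h_p13_33A_4_0, s2]
            · rcases h_p22_33A with h_p22_33A_0_0 | h_p22_33A_1_0 | h_p22_33A_2_0 | h_p22_33A_3_0 | h_p22_33A_4_0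
              · linarith only [e0, h_p22_33A_0_0]
              · linarith only [e3, h_p22_33A_1_0]
              · linarith only [h_a2, h_f22_2_1_0, h_f22_4, h_f23_5, h_f33_2_1_0, h_f33_4, h_p22_33A_2_0, s2]
              · linarith only [h_f23_5, h_p22_33A_3_0, s2]
              · rcases h_f33_8 with h_f33_8_0_0 | h_f33_8_1_0
                · linarith only [h_b5, h_f22_4, h_f23_5, h_f33_7, h_f33_8_0_0, h_o1, h_o2, s2]
                · linarith only [h_f13_8_1_0, h_f23_9, h_f33_8_1_0, h_p13_33A_5_0, h_p22_33A_4_0, s3]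
    · linarith only [h_a2, h_f13_0, h_f13_2_1_0, h_f22_4, h_f23_5, h_f33_4, h_o1, h_o2, s2]
  · rcases h_f22_5 with h_f22_5_0_0 | h_f22_5_1_0
    · rcases h_f22_2 with h_f22_2_0_0 | h_f22_2_1_0
      · linarith only [h_a3, h_f22_2_0_0, h_f22_4, h_f22_5_0_0, h_f23_0, h_f33_0, h_o1, s1]
      · linarith only [h_a2, h_f13_0, h_f13_3, h_f13_5_1_0, h_f22_2_1_0, h_f22_4, h_f22_5_0_0, h_f23_5, h_f33_4, h_o1, h_o2, s2]
    · rcases h_f22_2 with h_f22_2_0_0 | h_f22_2_1_0
      · rcases h_tpmm with h_tpmm_0_0 | h_tpmm_1_0 | h_tpmm_2_0 | h_tpmm_3_0 | h_tpmm_4_0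
        · linarith only [h_b0, h_o0, h_tpmm_0_0]
        · linarith only [h_b4, h_f13_0, h_f13_3, h_f13_5_1_0, h_f22_4, h_f23_5, h_f33_4, h_o2, h_tpmm_1_0, s2]
        · linarith only [h_a1, h_o0, h_tpmm_2_0]
        · linarith only [h_a1, h_f22_1, h_f22_2_0_0, h_o0, h_tpmm_3_0]
        · rcases h_p22_33A with h_p22_33A_0_0 | h_p22_33A_1_0 | h_p22_33A_2_0 | h_p22_33A_3_0 | h_p22_33A_4_0
          · linarith only [e0, h_p22_33A_0_0]
          · linarith only [e3, h_p22_33A_1_0]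
          · rcases h_f33_2 with h_f33_2_0_0 | h_f33_2_1_0
            · linarith only [h_f22_2_0_0, h_f23_0, h_f33_2_0_0, h_p22_33A_2_0, s1]
            · linarith only [h_f22_1, h_f22_2_0_0, h_f22_4, h_f23_0, h_f23_5, h_f33_2_1_0, h_f33_4, h_o1, h_p22_33A_2_0, s1, s2]
          · linarith only [h_f23_5, h_p22_33A_3_0, s2]
          · linarith only [h_f23_9, h_p22_33A_4_0, h_tpmm_4_0, s3]
      · rcases h_f33_2 with h_f33_2_0_0 | h_f33_2_1_0
        · rcases h_f13_8 with h_f13_8_0_0 | h_f13_8_1_0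
          · linarith only [h_a5, h_f13_5_1_0, h_f13_7, h_f13_8_0_0, h_f22_4, h_f23_5, h_f33_4, h_o1, s2]
          · rcases h_t23 with ⟨h_t23_0_0, h_t23_0_1⟩ | ⟨h_t23_1_0, h_t23_1_1⟩
            · rcases h_f13_2 with h_f13_2_0_0 | h_f13_2_1_0
              · rcases h_p22_33A with h_p22_33A_0_0 | h_p22_33A_1_0 | h_p22_33A_2_0 | h_p22_33A_3_0 | h_p22_33A_4_0
                · linarith only [e0, h_p22_33A_0_0]
                · linarith only [e3, h_p22_33A_1_0]
                · rcases h_p13_23A with h_p13_23A_0_0 | h_p13_23A_1_0 | h_p13_23A_2_0 | h_p13_23A_3_0 | h_p13_23A_4_0 | h_p13_23A_5_0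
                  · linarith only [e0, h_f22_2_1_0, h_f23_0, h_f33_2_0_0, h_p13_23A_0_0, h_p22_33A_2_0, s1]
                  · linarith only [e2, h_p13_23A_1_0]
                  · linarith only [e1, h_p13_23A_2_0]
                  · linarith only [h_f13_2_0_0, h_p13_23A_3_0, h_p22_33A_2_0, s1]
                  · linarith only [h_f13_5_1_0, h_f22_2_1_0, h_f22_4, h_f23_0, h_f23_1, h_f33_2_0_0, h_f33_4, h_o2, h_p13_23A_4_0, h_p22_33A_2_0, s1, s2]
                  · rcases h_f23_10 with h_f23_10_0_0 | h_f23_10_1_0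
                    · rcases h_f23_7 with h_f23_7_0_0 | h_f23_7_1_0 | h_f23_7_2_0
                      · linarith only [h_f13_0, h_f13_3, h_f13_5_1_0, h_f13_8_1_0, h_f22_2_1_0, h_f22_4, h_f22_6, h_f23_0, h_f23_1, h_f23_10_0_0, h_f23_7_0_0, h_f33_2_0_0, h_f33_4, h_f33_7, h_o2, h_p13_23A_5_0, h_p22_33A_2_0, s1, s2, s3]
                      · linarith only [h_f13_8_1_0, h_f22_2_1_0, h_f22_4, h_f22_6, h_f23_0, h_f23_1, h_f23_10_0_0, h_f23_7_1_0, h_f33_2_0_0, h_f33_7, h_o2, h_p13_23A_5_0, h_p22_33A_2_0, s1, s3]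
                      · linarith only [h_f13_8_1_0, h_f22_2_1_0, h_f22_4, h_f22_6, h_f23_0, h_f23_1, h_f23_10_0_0, h_f23_7_2_0, h_f33_2_0_0, h_f33_4, h_f33_7, h_o2, h_p13_23A_5_0, h_p22_33A_2_0, s1, s2, s3]
                    · linarith only [h_f13_8_1_0, h_f23_10_1_0, h_o2, h_p13_23A_5_0]
                · linarith only [h_f23_5, h_p22_33A_3_0, s2]
                · rcases h_f33_8 with h_f33_8_0_0 | h_f33_8_1_0
                  · linarith only [h_b5, h_f22_6, h_f23_5, h_f23_9, h_f33_8_0_0, h_o1, h_p22_33A_4_0, s2, s3]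
                  · linarith only [h_b5, h_f22_5_1_0, h_f22_6, h_f23_9, h_f33_8_1_0, h_p22_33A_4_0, s3]
              · linarith only [h_b4, h_f13_0, h_f13_2_1_0, h_f22_4, h_f23_5, h_f33_4, h_o2, h_t23_0_0, s2]
            · rcases h_f33_8 with h_f33_8_0_0 | h_f33_8_1_0
              · linarith only [h_f22_4, h_f23_5, h_f33_7, h_f33_8_0_0, h_o1, h_o2, h_t23_1_1, s2]
              · rcases h_p22_33A with h_p22_33A_0_0 | h_p22_33A_1_0 | h_p22_33A_2_0 | h_p22_33A_3_0 | h_p22_33A_4_0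
                · linarith only [e0, h_p22_33A_0_0]
                · linarith only [e3, h_p22_33A_1_0]
                · rcases h_p13_23A with h_p13_23A_0_0 | h_p13_23A_1_0 | h_p13_23A_2_0 | h_p13_23A_3_0 | h_p13_23A_4_0 | h_p13_23A_5_0
                  · linarith only [e0, h_f22_2_1_0, h_f23_0, h_f33_2_0_0, h_p13_23A_0_0, h_p22_33A_2_0, s1]
                  · linarith only [e2, h_p13_23A_1_0]
                  · linarith only [e1, h_p13_23A_2_0]
                  · rcases h_f13_2 with h_f13_2_0_0 | h_f13_2_1_0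
                    · linarith only [h_f13_2_0_0, h_p13_23A_3_0, h_p22_33A_2_0, s1]
                    · linarith only [h_f13_2_1_0, h_f22_2_1_0, h_f22_4, h_f23_0, h_f23_1, h_f23_5, h_f33_2_0_0, h_f33_4, h_o2, h_p13_23A_3_0, h_p22_33A_2_0, s1, s2]
                  · linarith only [h_f13_5_1_0, h_f22_2_1_0, h_f22_4, h_f23_0, h_f23_1, h_f33_2_0_0, h_f33_4, h_o2, h_p13_23A_4_0, h_p22_33A_2_0, s1, s2]
                  · rcases h_f23_10 with h_f23_10_0_0 | h_f23_10_1_0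
                    · rcases h_f23_7 with h_f23_7_0_0 | h_f23_7_1_0 | h_f23_7_2_0
                      · linarith only [h_f13_0, h_f13_3, h_f13_5_1_0, h_f13_8_1_0, h_f22_2_1_0, h_f22_4, h_f22_6, h_f23_0, h_f23_1, h_f23_10_0_0, h_f23_7_0_0, h_f33_2_0_0, h_f33_4, h_f33_7, h_o2, h_p13_23A_5_0, h_p22_33A_2_0, s1, s2, s3]
                      · linarith only [h_f13_8_1_0, h_f22_2_1_0, h_f22_4, h_f22_6, h_f23_0, h_f23_1, h_f23_10_0_0, h_f23_7_1_0, h_f33_2_0_0, h_f33_7, h_o2, h_p13_23A_5_0, h_p22_33A_2_0, s1, s3]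
                      · linarith only [h_f13_8_1_0, h_f22_2_1_0, h_f22_4, h_f22_6, h_f23_0, h_f23_1, h_f23_10_0_0, h_f23_7_2_0, h_f33_2_0_0, h_f33_4, h_f33_7, h_o2, h_p13_23A_5_0, h_p22_33A_2_0, s1, s2, s3]
                    · linarith only [h_f13_8_1_0, h_f23_10_1_0, h_o2, h_p13_23A_5_0]
                · linarith only [h_f23_5, h_p22_33A_3_0, s2]
                · linarith only [h_f22_5_1_0, h_f22_6, h_f33_8_1_0, h_o2, h_p22_33A_4_0, h_t23_1_1]
        · rcases h_p22_33A with h_p22_33A_0_0 | h_p22_33A_1_0 | h_p22_33A_2_0 | h_p22_33A_3_0 | h_p22_33A_4_0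
          · linarith only [e0, h_p22_33A_0_0]
          · linarith only [e3, h_p22_33A_1_0]
          · linarith only [h_a2, h_f22_2_1_0, h_f22_4, h_f23_5, h_f33_2_1_0, h_f33_4, h_p22_33A_2_0, s2]
          · linarith only [h_f23_5, h_p22_33A_3_0, s2]
          · rcases h_f33_8 with h_f33_8_0_0 | h_f33_8_1_0
            · linarith only [h_a5, h_f22_6, h_f23_5, h_f33_8_0_0, h_p22_33A_4_0, s2]
            · linarith only [h_b5, h_f22_5_1_0, h_f22_6, h_f23_9, h_f33_8_1_0, h_p22_33A_4_0, s3]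

theorem c2_11_22_33_k0 {n1 n2 n3 A1 A2 A3 B1 B2 B3 m11_1 m11_2 m11_3 m12_1 m12_2 m12_3 m13_1 m13_2 m13_3 m22_1 m22_2 m22_3 m33_1 m33_2 m33_3 : ℤ}
    (C : Ctx2 n1 n2 n3 A1 A2 A3 B1 B2 B3 m11_1 m11_2 m11_3 m12_1 m12_2 m12_3 m13_1 m13_2 m13_3 m22_1 m22_2 m22_3 m33_1 m33_2 m33_3)
    (e0 : 0 < B1)
    (e1 : 0 < A2)
    (e2 : 0 < A3)
    (s1 : 0 * A1 + 3 * B1 ≤ m11_1 + m22_1 + m33_1)
    (s2 : 0 * A2 + 3 * B2 ≤ m11_2 + m22_2 + m33_2)
    (s3 : 0 * A3 + 3 * B3 ≤ m11_3 + m22_3 + m33_3) : False := by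
  have h_t23 : (A1 + 1 ≤ A2 ∧ A3 + 1 ≤ A2 + n3) ∨ (B1 + 1 ≤ B2 ∧ B3 + 1 ≤ B2 + n3) := by
    have t := C.t23
    clear s1 s2 s3
    omega
  have h_f12_2 : (m12_1 + 1 = A1) ∨ (m12_1 + 1 = B2) := by
    have t := C.f12_2
    clear s1 s2 s3
    omega
  have h_f12_5 : (m12_2 = m12_1 + n2) ∨ (m12_2 + 1 = B2) := by
    have t := C.f12_5
    clear s1 s2 s3
    omega
  have h_f13_2 : (m13_1 + 1 = A1) ∨ (m13_1 + 1 = B3) := by
    have t := C.f13_2
    clear s1 s2 s3
    omega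
  have h_f13_5 : (m13_2 = m13_1 + n2) ∨ (m13_2 + 1 = B3) := by
    have t := C.f13_5
    clear s1 s2 s3
    omega
  have h_f13_8 : (m13_3 = m13_2 + n3) ∨ (m13_3 + 1 = B3) := by
    have t := C.f13_8
    clear s1 s2 s3
    omega
  have h_f22_2 : (m22_1 = n1) ∨ (m22_1 + 1 = A2) := by
    have t := C.f22_2
    clear s1 s2 s3
    omega
  have h_f33_2 : (m33_1 = n1) ∨ (m33_1 + 1 = A3) := by
    have t := C.f33_2
    clear s1 s2 s3
    omega
  have h_f33_8 : (m33_3 = m33_2 + n3) ∨ (m33_3 + 1 = A3) := by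
    have t := C.f33_8
    clear s1 s2 s3
    omega
  have h_p11_13B : (B1 ≤ 0) ∨ (A1 ≤ 0) ∨ (B3 ≤ 0) ∨ (m11_1 + m13_1 + 1 ≤ 2 * B1) ∨ (m11_2 + m13_2 + 1 ≤ 2 * B2) ∨ (m11_3 + m13_3 + 1 ≤ 2 * B3) := by
    have t := C.p11_13B
    clear s1 s2 s3
    omega
  have h_p11_22B : (B1 ≤ 0) ∨ (A2 ≤ 0) ∨ (m11_1 + m22_1 + 1 ≤ 2 * B1) ∨ (m11_2 + m22_2 + 1 ≤ 2 * B2) ∨ (m11_3 + m22_3 + 1 ≤ 2 * B3) := by
    have t := C.p11_22B
    clear s1 s2 s3
    omega
  have h_p11_33A : (B1 ≤ 0) ∨ (A3 ≤ 0) ∨ (m11_1 + m33_1 + 1 ≤ 2 * A1) ∨ (m11_2 + m33_2 + 1 ≤ 2 * A2) ∨ (m11_3 + m33_3 + 1 ≤ 2 * A3) := by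
    have t := C.p11_33A
    clear s1 s2 s3
    omega
  have h_p11_33B : (B1 ≤ 0) ∨ (A3 ≤ 0) ∨ (m11_1 + m33_1 + 1 ≤ 2 * B1) ∨ (m11_2 + m33_2 + 1 ≤ 2 * B2) ∨ (m11_3 + m33_3 + 1 ≤ 2 * B3) := by
    have t := C.p11_33B
    clear s1 s2 s3
    omega
  have h_p12_13B : (A1 ≤ 0) ∨ (B2 ≤ 0) ∨ (B3 ≤ 0) ∨ (m12_1 + m13_1 + 1 ≤ 2 * B1) ∨ (m12_2 + m13_2 + 1 ≤ 2 * B2) ∨ (m12_3 + m13_3 + 1 ≤ 2 * B3) := by
    have t := C.p12_13B
    clear s1 s2 s3
    omega
  have h_tzmp : (A1 + n2 ≤ A2) ∨ (A3 ≤ A2 + 1) ∨ (B2 ≤ B1) ∨ (B2 + n3 ≤ B3 + 1) := by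
    have t := C.tzmp
    clear s1 s2 s3
    omega
  have h_tzpm : (A2 ≤ A1) ∨ (A2 + n3 ≤ A3 + 1) ∨ (B1 + n2 ≤ B2) ∨ (B3 ≤ B2 + 1) := by
    have t := C.tzpm
    clear s1 s2 s3
    omega
  have h_a1 := C.a1
  have h_a2 := C.a2
  have h_a3 := C.a3
  have h_a4 := C.a4
  have h_b3 := C.b3
  have h_b4 := C.b4
  have h_b5 := C.b5
  have h_o0 := C.o0
  have h_o1 := C.o1
  have h_o2 := C.o2
  have h_f11_0 := C.f11_0
  have h_f11_1 := C.f11_1
  have h_f11_2 := C.f11_2
  have h_f12_0 := C.f12_0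
  have h_f12_4 := C.f12_4
  have h_f12_6 := C.f12_6
  have h_f13_0 := C.f13_0
  have h_f13_4 := C.f13_4
  have h_f13_7 := C.f13_7
  have h_f22_1 := C.f22_1
  have h_f22_4 := C.f22_4
  have h_f22_6 := C.f22_6
  have h_f33_0 := C.f33_0
  have h_f33_3 := C.f33_3
  have h_f33_4 := C.f33_4
  have h_f33_7 := C.f33_7
  clear C
  rcases h_f12_2 with h_f12_2_0_0 | h_f12_2_1_0
  · rcases h_f12_5 with h_f12_5_0_0 | h_f12_5_1_0
    · linarith only [h_b3, h_f12_2_0_0, h_f12_4, h_f12_5_0_0, h_o0]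
    · rcases h_f13_2 with h_f13_2_0_0 | h_f13_2_1_0
      · rcases h_t23 with ⟨h_t23_0_0, h_t23_0_1⟩ | ⟨h_t23_1_0, h_t23_1_1⟩
        · rcases h_f13_8 with h_f13_8_0_0 | h_f13_8_1_0
          · rcases h_f13_5 with h_f13_5_0_0 | h_f13_5_1_0
            · linarith only [h_a3, h_f11_0, h_f11_1, h_f11_2, h_f13_2_0_0, h_f13_5_0_0, h_f13_7, h_f13_8_0_0, h_f22_4, h_f22_6, h_f33_7, h_o0, h_o2, s3]
            · linarith only [h_a4, h_f13_5_1_0, h_f13_7, h_f13_8_0_0, h_t23_0_1]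
          · rcases h_f13_5 with h_f13_5_0_0 | h_f13_5_1_0
            · rcases h_f33_2 with h_f33_2_0_0 | h_f33_2_1_0
              · rcases h_p11_33B with h_p11_33B_0_0 | h_p11_33B_1_0 | h_p11_33B_2_0 | h_p11_33B_3_0 | h_p11_33B_4_0
                · linarith only [e0, h_p11_33B_0_0]
                · linarith only [e2, h_p11_33B_1_0]
                · linarith only [h_a1, h_f11_0, h_f33_2_0_0, h_o0, h_p11_33B_2_0]
                · linarith only [h_f22_4, h_o1, h_p11_33B_3_0, s2]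
                · rcases h_f33_8 with h_f33_8_0_0 | h_f33_8_1_0
                  · linarith only [h_f11_2, h_f22_4, h_f22_6, h_f33_8_0_0, h_o1, h_p11_33B_4_0, s2, s3]
                  · rcases h_p11_33A with h_p11_33A_0_0 | h_p11_33A_1_0 | h_p11_33A_2_0 | h_p11_33A_3_0 | h_p11_33A_4_0
                    · linarith only [e0, h_p11_33A_0_0]
                    · linarith only [e2, h_p11_33A_1_0]
                    · rcases h_p12_13B with h_p12_13B_0_0 | h_p12_13B_1_0 | h_p12_13B_2_0 | h_p12_13B_3_0 | h_p12_13B_4_0 | h_p12_13B_5_0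
                      · linarith only [e0, h_a1, h_f11_0, h_f33_2_0_0, h_p11_33A_2_0, h_p12_13B_0_0]
                      · linarith only [e1, h_o1, h_p12_13B_1_0]
                      · linarith only [e1, h_f11_2, h_f22_4, h_f22_6, h_f33_4, h_f33_8_1_0, h_o1, h_p11_33B_4_0, h_p12_13B_2_0, s2, s3]
                      · linarith only [h_f12_2_0_0, h_f13_2_0_0, h_o0, h_p12_13B_3_0]
                      · linarith only [h_f11_1, h_f12_5_1_0, h_f13_2_0_0, h_f13_5_0_0, h_f22_4, h_f33_3, h_o1, h_p11_33A_2_0, h_p12_13B_4_0, s2]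
                      · linarith only [h_f12_5_1_0, h_f12_6, h_f13_8_1_0, h_f22_4, h_f22_6, h_o1, h_p11_33B_4_0, h_p12_13B_5_0, s3]
                    · linarith only [h_f22_4, h_o1, h_p11_33A_3_0, s2]
                    · linarith only [h_b3, h_f11_0, h_f11_1, h_f11_2, h_f22_4, h_f22_6, h_f33_8_1_0, h_o1, h_p11_33A_4_0, h_p11_33B_4_0, s3]
              · rcases h_tzpm with h_tzpm_0_0 | h_tzpm_1_0 | h_tzpm_2_0 | h_tzpm_3_0
                · linarith only [h_t23_0_0, h_tzpm_0_0]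
                · rcases h_f22_2 with h_f22_2_0_0 | h_f22_2_1_0
                  · linarith only [h_b5, h_f11_0, h_f11_1, h_f13_2_0_0, h_f13_4, h_f13_5_0_0, h_f22_1, h_f22_2_0_0, h_f22_4, h_f33_0, h_f33_2_1_0, h_f33_4, h_o0, h_o1, h_tzpm_1_0, s2]
                  · rcases h_p11_22B with h_p11_22B_0_0 | h_p11_22B_1_0 | h_p11_22B_2_0 | h_p11_22B_3_0 | h_p11_22B_4_0
                    · linarith only [e0, h_p11_22B_0_0]
                    · linarith only [e1, h_p11_22B_1_0]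
                    · linarith only [h_f11_0, h_f22_2_1_0, h_o0, h_p11_22B_2_0, h_t23_0_0]
                    · rcases h_p11_33A with h_p11_33A_0_0 | h_p11_33A_1_0 | h_p11_33A_2_0 | h_p11_33A_3_0 | h_p11_33A_4_0
                      · linarith only [e0, h_p11_33A_0_0]
                      · linarith only [e2, h_p11_33A_1_0]
                      · linarith only [h_f11_1, h_f11_2, h_f13_2_0_0, h_f13_4, h_f13_5_0_0, h_f22_4, h_f22_6, h_f33_2_1_0, h_f33_7, h_o2, h_p11_33A_2_0, h_t23_0_0, h_tzpm_1_0, s3]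
                      · linarith only [h_f11_2, h_f22_4, h_f22_6, h_f33_7, h_o2, h_p11_22B_3_0, h_p11_33A_3_0, h_tzpm_1_0, s2, s3]
                      · linarith only [h_f22_4, h_f22_6, h_o2, h_p11_33A_4_0, h_tzpm_1_0, s3]
                    · linarith only [h_f33_7, h_o2, h_p11_22B_4_0, s3]
                · rcases h_p11_33B with h_p11_33B_0_0 | h_p11_33B_1_0 | h_p11_33B_2_0 | h_p11_33B_3_0 | h_p11_33B_4_0
                  · linarith only [e0, h_p11_33B_0_0]
                  · linarith only [e2, h_p11_33B_1_0]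
                  · linarith only [h_f11_1, h_f22_1, h_f22_4, h_f33_2_1_0, h_f33_4, h_o1, h_p11_33B_2_0, h_tzpm_2_0, s1, s2]
                  · linarith only [h_f22_4, h_o1, h_p11_33B_3_0, s2]
                  · rcases h_f33_8 with h_f33_8_0_0 | h_f33_8_1_0
                    · linarith only [h_f11_0, h_f11_1, h_f22_4, h_f33_7, h_f33_8_0_0, h_o1, h_t23_0_1, h_tzpm_2_0, s2]
                    · rcases h_p11_33A with h_p11_33A_0_0 | h_p11_33A_1_0 | h_p11_33A_2_0 | h_p11_33A_3_0 | h_p11_33A_4_0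
                      · linarith only [e0, h_p11_33A_0_0]
                      · linarith only [e2, h_p11_33A_1_0]
                      · rcases h_p11_13B with h_p11_13B_0_0 | h_p11_13B_1_0 | h_p11_13B_2_0 | h_p11_13B_3_0 | h_p11_13B_4_0 | h_p11_13B_5_0
                        · linarith only [e0, h_p11_13B_0_0]
                        · linarith only [e0, h_f11_1, h_f22_4, h_f33_2_1_0, h_f33_4, h_o1, h_p11_13B_1_0, h_p11_33A_2_0, h_t23_0_0, h_tzpm_2_0, s2]
                        · linarith only [e0, h_f11_1, h_f11_2, h_f22_4, h_f22_6, h_f33_2_1_0, h_f33_4, h_f33_8_1_0, h_o1, h_p11_13B_2_0, h_p11_33A_2_0, h_p11_33B_4_0, h_t23_0_0, h_tzpm_2_0, s2, s3]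
                        · linarith only [h_f11_0, h_f11_1, h_f13_2_0_0, h_f22_4, h_f33_2_1_0, h_f33_4, h_o1, h_p11_13B_3_0, h_p11_33A_2_0, h_t23_0_0, h_tzpm_2_0, s2]
                        · linarith only [h_b3, h_f11_0, h_f13_2_0_0, h_f13_5_0_0, h_f22_4, h_f33_2_1_0, h_f33_4, h_o1, h_p11_13B_4_0, h_p11_33A_2_0, h_t23_0_0, s2]
                        · linarith only [h_b3, h_f11_0, h_f11_1, h_f11_2, h_f13_8_1_0, h_f22_4, h_f22_6, h_o1, h_p11_13B_5_0, h_p11_33B_4_0, s3]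
                      · linarith only [h_f22_4, h_o1, h_p11_33A_3_0, s2]
                      · linarith only [h_b3, h_f11_0, h_f11_1, h_f11_2, h_f22_4, h_f22_6, h_f33_8_1_0, h_o1, h_p11_33A_4_0, h_p11_33B_4_0, s3]
                · linarith only [h_f11_0, h_f11_1, h_f13_2_0_0, h_f13_4, h_f13_5_0_0, h_f22_4, h_f33_4, h_o0, h_o1, h_o2, h_tzpm_3_0, s2]
            · rcases h_p11_22B with h_p11_22B_0_0 | h_p11_22B_1_0 | h_p11_22B_2_0 | h_p11_22B_3_0 | h_p11_22B_4_0
              · linarith only [e0, h_p11_22B_0_0]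
              · linarith only [e1, h_p11_22B_1_0]
              · rcases h_f22_2 with h_f22_2_0_0 | h_f22_2_1_0
                · linarith only [h_a1, h_f11_0, h_f22_2_0_0, h_o0, h_p11_22B_2_0]
                · linarith only [h_f11_0, h_f22_2_1_0, h_o0, h_p11_22B_2_0, h_t23_0_0]
              · rcases h_p12_13B with h_p12_13B_0_0 | h_p12_13B_1_0 | h_p12_13B_2_0 | h_p12_13B_3_0 | h_p12_13B_4_0 | h_p12_13B_5_0
                · linarith only [e0, h_o0, h_p12_13B_0_0]
                · linarith only [e0, h_o0, h_o1, h_p12_13B_1_0, h_t23_0_0]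
                · linarith only [e0, h_f33_4, h_o0, h_o1, h_o2, h_p11_22B_3_0, h_p12_13B_2_0, h_t23_0_0, s2]
                · linarith only [h_f12_2_0_0, h_f13_2_0_0, h_o0, h_p12_13B_3_0]
                · linarith only [h_f12_5_1_0, h_f13_5_1_0, h_f33_4, h_o2, h_p11_22B_3_0, h_p12_13B_4_0, s2]
                · linarith only [h_f11_2, h_f12_5_1_0, h_f12_6, h_f13_8_1_0, h_f22_6, h_f33_7, h_o2, h_p11_22B_3_0, h_p12_13B_5_0, s3]
              · linarith only [h_f33_7, h_o2, h_p11_22B_4_0, s3]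
        · rcases h_tzmp with h_tzmp_0_0 | h_tzmp_1_0 | h_tzmp_2_0 | h_tzmp_3_0
          · linarith only [h_b3, h_o0, h_o1, h_tzmp_0_0]
          · rcases h_p11_33B with h_p11_33B_0_0 | h_p11_33B_1_0 | h_p11_33B_2_0 | h_p11_33B_3_0 | h_p11_33B_4_0
            · linarith only [e0, h_p11_33B_0_0]
            · linarith only [e2, h_p11_33B_1_0]
            · rcases h_f33_2 with h_f33_2_0_0 | h_f33_2_1_0
              · linarith only [h_a1, h_f11_0, h_f33_2_0_0, h_o0, h_p11_33B_2_0]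
              · linarith only [h_a4, h_f11_0, h_f22_1, h_f33_2_1_0, h_p11_33B_2_0, s1]
            · linarith only [h_f22_4, h_o1, h_p11_33B_3_0, s2]
            · rcases h_f13_8 with h_f13_8_0_0 | h_f13_8_1_0
              · rcases h_f13_5 with h_f13_5_0_0 | h_f13_5_1_0
                · linarith only [h_f11_0, h_f11_1, h_f13_2_0_0, h_f13_5_0_0, h_f13_7, h_f13_8_0_0, h_f22_4, h_f22_6, h_f33_4, h_o0, h_o1, h_p11_33B_4_0, h_tzmp_1_0, s2, s3]
                · linarith only [h_b4, h_f13_5_1_0, h_f13_7, h_f13_8_0_0, h_f22_4, h_f22_6, h_o1, h_p11_33B_4_0, s3]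
              · rcases h_f33_8 with h_f33_8_0_0 | h_f33_8_1_0
                · linarith only [h_f11_2, h_f22_4, h_f22_6, h_f33_8_0_0, h_o1, h_p11_33B_4_0, s2, s3]
                · rcases h_p12_13B with h_p12_13B_0_0 | h_p12_13B_1_0 | h_p12_13B_2_0 | h_p12_13B_3_0 | h_p12_13B_4_0 | h_p12_13B_5_0
                  · linarith only [e0, h_o0, h_p12_13B_0_0]
                  · linarith only [e1, h_o1, h_p12_13B_1_0]
                  · linarith only [e1, h_f11_2, h_f22_4, h_f22_6, h_f33_4, h_f33_8_1_0, h_o1, h_p11_33B_4_0, h_p12_13B_2_0, s2, s3]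
                  · linarith only [h_f12_2_0_0, h_f13_2_0_0, h_o0, h_p12_13B_3_0]
                  · rcases h_f13_5 with h_f13_5_0_0 | h_f13_5_1_0
                    · linarith only [h_f11_0, h_f11_1, h_f12_5_1_0, h_f13_2_0_0, h_f13_5_0_0, h_f22_4, h_f33_4, h_o0, h_o1, h_p12_13B_4_0, h_tzmp_1_0, s2]
                    · linarith only [h_f11_2, h_f12_5_1_0, h_f13_5_1_0, h_f22_4, h_f22_6, h_f33_4, h_f33_8_1_0, h_o1, h_p11_33B_4_0, h_p12_13B_4_0, s2, s3]
                  · linarith only [h_f12_5_1_0, h_f12_6, h_f13_8_1_0, h_f22_4, h_f22_6, h_o1, h_p11_33B_4_0, h_p12_13B_5_0, s3]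
          · linarith only [h_t23_1_0, h_tzmp_2_0]
          · rcases h_p11_33B with h_p11_33B_0_0 | h_p11_33B_1_0 | h_p11_33B_2_0 | h_p11_33B_3_0 | h_p11_33B_4_0
            · linarith only [e0, h_p11_33B_0_0]
            · linarith only [e2, h_p11_33B_1_0]
            · rcases h_f33_2 with h_f33_2_0_0 | h_f33_2_1_0
              · linarith only [h_a1, h_f11_0, h_f33_2_0_0, h_o0, h_p11_33B_2_0]
              · linarith only [h_a4, h_f11_0, h_f22_1, h_f33_2_1_0, h_p11_33B_2_0, s1]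
            · linarith only [h_f22_4, h_o1, h_p11_33B_3_0, s2]
            · linarith only [h_f22_4, h_f22_6, h_o1, h_p11_33B_4_0, h_tzmp_3_0, s3]
      · linarith only [h_a2, h_a4, h_f13_0, h_f13_2_1_0, h_o2]
  · linarith only [h_a2, h_f12_0, h_f12_2_1_0, h_o1]

theorem c2_11_33_33_k3 {n1 n2 n3 A1 A2 A3 B1 B2 B3 m11_1 m11_2 m11_3 m12_1 m12_2 m12_3 m13_1 m13_2 m13_3 m22_1 m22_2 m22_3 m33_1 m33_2 m33_3 : ℤ}
    (C : Ctx2 n1 n2 n3 A1 A2 A3 B1 B2 B3 m11_1 m11_2 m11_3 m12_1 m12_2 m12_3 m13_1 m13_2 m13_3 m22_1 m22_2 m22_3 m33_1 m33_2 m33_3)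
    (e0 : 0 < B1)
    (e1 : 0 < A3)
    (s1 : 3 * A1 + 0 * B1 ≤ m11_1 + m33_1 + m33_1)
    (s2 : 3 * A2 + 0 * B2 ≤ m11_2 + m33_2 + m33_2)
    (s3 : 3 * A3 + 0 * B3 ≤ m11_3 + m33_3 + m33_3) : False := by
  have h_t23 : (A1 + 1 ≤ A2 ∧ A3 + 1 ≤ A2 + n3) ∨ (B1 + 1 ≤ B2 ∧ B3 + 1 ≤ B2 + n3) := by
    have t := C.t23
    clear s1 s2 s3
    omega
  have h_f12_2 : (m12_1 + 1 = A1) ∨ (m12_1 + 1 = B2) := by
    have t := C.f12_2
    clear s1 s2 s3
    omega
  have h_f12_5 : (m12_2 = m12_1 + n2) ∨ (m12_2 + 1 = B2) := by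
    have t := C.f12_5
    clear s1 s2 s3
    omega
  have h_f13_2 : (m13_1 + 1 = A1) ∨ (m13_1 + 1 = B3) := by
    have t := C.f13_2
    clear s1 s2 s3
    omega
  have h_f13_5 : (m13_2 = m13_1 + n2) ∨ (m13_2 + 1 = B3) := by
    have t := C.f13_5
    clear s1 s2 s3
    omega
  have h_f13_8 : (m13_3 = m13_2 + n3) ∨ (m13_3 + 1 = B3) := by
    have t := C.f13_8
    clear s1 s2 s3
    omega
  have h_f33_5 : (m33_2 = m33_1 + n2) ∨ (m33_2 + 1 = A3) := by
    have t := C.f33_5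
    clear s1 s2 s3
    omega
  have h_f33_8 : (m33_3 = m33_2 + n3) ∨ (m33_3 + 1 = A3) := by
    have t := C.f33_8
    clear s1 s2 s3
    omega
  have h_p12_33A : (A1 ≤ 0) ∨ (B2 ≤ 0) ∨ (A3 ≤ 0) ∨ (m12_1 + m33_1 + 1 ≤ 2 * A1) ∨ (m12_2 + m33_2 + 1 ≤ 2 * A2) ∨ (m12_3 + m33_3 + 1 ≤ 2 * A3) := by
    have t := C.p12_33A
    clear s1 s2 s3
    omega
  have h_p13_33A : (A1 ≤ 0) ∨ (B3 ≤ 0) ∨ (A3 ≤ 0) ∨ (m13_1 + m33_1 + 1 ≤ 2 * A1) ∨ (m13_2 + m33_2 + 1 ≤ 2 * A2) ∨ (m13_3 + m33_3 + 1 ≤ 2 * A3) := by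
    have t := C.p13_33A
    clear s1 s2 s3
    omega
  have h_tmpp : (n1 ≤ A1) ∨ (A2 ≤ A1 + 1) ∨ (B1 ≤ 0) ∨ (B1 + n2 ≤ B2 + 1) := by
    have t := C.tmpp
    clear s1 s2 s3
    omega
  have h_a2 := C.a2
  have h_a3 := C.a3
  have h_a4 := C.a4
  have h_a5 := C.a5
  have h_b3 := C.b3
  have h_b4 := C.b4
  have h_b5 := C.b5
  have h_o0 := C.o0
  have h_o1 := C.o1
  have h_o2 := C.o2
  have h_f11_0 := C.f11_0
  have h_f11_1 := C.f11_1
  have h_f11_2 := C.f11_2
  have h_f12_0 := C.f12_0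
  have h_f12_4 := C.f12_4
  have h_f12_6 := C.f12_6
  have h_f13_0 := C.f13_0
  have h_f13_3 := C.f13_3
  have h_f13_4 := C.f13_4
  have h_f33_0 := C.f33_0
  have h_f33_1 := C.f33_1
  have h_f33_4 := C.f33_4
  have h_f33_7 := C.f33_7
  clear C
  rcases h_f12_2 with h_f12_2_0_0 | h_f12_2_1_0
  · rcases h_f12_5 with h_f12_5_0_0 | h_f12_5_1_0
    · linarith only [h_b3, h_f12_2_0_0, h_f12_4, h_f12_5_0_0, h_o0]
    · rcases h_f13_2 with h_f13_2_0_0 | h_f13_2_1_0
      · rcases h_f13_5 with h_f13_5_0_0 | h_f13_5_1_0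
        · rcases h_p13_33A with h_p13_33A_0_0 | h_p13_33A_1_0 | h_p13_33A_2_0 | h_p13_33A_3_0 | h_p13_33A_4_0 | h_p13_33A_5_0
          · linarith only [e0, h_o0, h_p13_33A_0_0]
          · linarith only [e0, h_a2, h_a3, h_f13_2_0_0, h_f13_4, h_f13_5_0_0, h_o0, h_p13_33A_1_0]
          · linarith only [e1, h_p13_33A_2_0]
          · linarith only [h_f11_0, h_f13_2_0_0, h_o0, h_p13_33A_3_0, s1]
          · linarith only [h_b3, h_f11_0, h_f11_1, h_f13_2_0_0, h_f13_5_0_0, h_o0, h_o1, h_p13_33A_4_0, s2]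
          · rcases h_p12_33A with h_p12_33A_0_0 | h_p12_33A_1_0 | h_p12_33A_2_0 | h_p12_33A_3_0 | h_p12_33A_4_0 | h_p12_33A_5_0
            · linarith only [e0, h_o0, h_p12_33A_0_0]
            · linarith only [e0, h_a2, h_o0, h_o1, h_p12_33A_1_0]
            · linarith only [e1, h_p12_33A_2_0]
            · linarith only [h_f11_0, h_f12_2_0_0, h_o0, h_p12_33A_3_0, s1]
            · rcases h_f33_5 with h_f33_5_0_0 | h_f33_5_1_0
              · linarith only [h_f11_0, h_f11_1, h_f12_5_1_0, h_f33_5_0_0, h_o0, h_o1, h_p12_33A_4_0, s1, s2]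
              · rcases h_f13_8 with h_f13_8_0_0 | h_f13_8_1_0
                · linarith only [h_b5, h_f11_0, h_f11_1, h_f11_2, h_f12_5_1_0, h_f13_2_0_0, h_f13_4, h_f13_5_0_0, h_f13_8_0_0, h_f33_5_1_0, h_o0, h_o1, h_p12_33A_4_0, h_p13_33A_5_0, s2, s3]
                · rcases h_f33_8 with h_f33_8_0_0 | h_f33_8_1_0
                  · linarith only [h_f11_0, h_f11_1, h_f11_2, h_f12_5_1_0, h_f13_2_0_0, h_f13_4, h_f13_5_0_0, h_f13_8_1_0, h_f33_5_1_0, h_f33_8_0_0, h_o0, h_o1, h_p12_33A_4_0, h_p13_33A_5_0, s2, s3]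
                  · linarith only [h_f11_0, h_f11_1, h_f12_5_1_0, h_f13_2_0_0, h_f13_4, h_f13_5_0_0, h_f13_8_1_0, h_f33_5_1_0, h_f33_8_1_0, h_o0, h_o1, h_p12_33A_4_0, h_p13_33A_5_0, s2]
            · rcases h_t23 with ⟨h_t23_0_0, h_t23_0_1⟩ | ⟨h_t23_1_0, h_t23_1_1⟩
              · rcases h_f33_8 with h_f33_8_0_0 | h_f33_8_1_0
                · rcases h_f33_5 with h_f33_5_0_0 | h_f33_5_1_0
                  · linarith only [h_f11_0, h_f11_1, h_f12_5_1_0, h_f12_6, h_f33_5_0_0, h_f33_8_0_0, h_o0, h_o1, h_p12_33A_5_0, h_t23_0_1, s1, s2]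
                  · linarith only [h_b5, h_f11_0, h_f11_1, h_f12_5_1_0, h_f12_6, h_f13_2_0_0, h_f13_4, h_f13_5_0_0, h_f33_5_1_0, h_f33_8_0_0, h_o0, h_o1, h_p12_33A_5_0, h_t23_0_1, s2]
                · linarith only [h_f12_5_1_0, h_f12_6, h_f33_8_1_0, h_o1, h_p12_33A_5_0, h_t23_0_1]
              · rcases h_f33_8 with h_f33_8_0_0 | h_f33_8_1_0
                · rcases h_f33_5 with h_f33_5_0_0 | h_f33_5_1_0
                  · linarith only [h_f11_0, h_f11_1, h_f11_2, h_f12_5_1_0, h_f12_6, h_f33_5_0_0, h_f33_8_0_0, h_o0, h_o2, h_p12_33A_5_0, h_t23_1_1, s1, s3]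
                  · linarith only [h_f11_0, h_f11_1, h_f11_2, h_f12_5_1_0, h_f12_6, h_f13_2_0_0, h_f13_4, h_f13_5_0_0, h_f33_5_1_0, h_f33_8_0_0, h_o0, h_o2, h_p12_33A_5_0, h_t23_1_1, s3]
                · linarith only [h_f12_5_1_0, h_f12_6, h_f33_8_1_0, h_o2, h_p12_33A_5_0, h_t23_1_1]
        · rcases h_f33_5 with h_f33_5_0_0 | h_f33_5_1_0
          · linarith only [h_f11_0, h_f13_0, h_f13_3, h_f13_5_1_0, h_f33_4, h_f33_5_0_0, h_o0, h_o2, s1]
          · rcases h_t23 with ⟨h_t23_0_0, h_t23_0_1⟩ | ⟨h_t23_1_0, h_t23_1_1⟩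
            · rcases h_f33_8 with h_f33_8_0_0 | h_f33_8_1_0
              · linarith only [h_a4, h_f33_5_1_0, h_f33_7, h_f33_8_0_0, h_t23_0_1]
              · rcases h_p12_33A with h_p12_33A_0_0 | h_p12_33A_1_0 | h_p12_33A_2_0 | h_p12_33A_3_0 | h_p12_33A_4_0 | h_p12_33A_5_0
                · linarith only [e0, h_o0, h_p12_33A_0_0]
                · linarith only [e0, h_o0, h_o1, h_p12_33A_1_0, h_t23_0_0]
                · linarith only [e1, h_p12_33A_2_0]
                · linarith only [h_f11_0, h_f12_2_0_0, h_o0, h_p12_33A_3_0, s1]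
                · rcases h_tmpp with h_tmpp_0_0 | h_tmpp_1_0 | h_tmpp_2_0 | h_tmpp_3_0
                  · linarith only [h_f11_0, h_f33_0, h_o0, h_tmpp_0_0, s1]
                  · linarith only [h_f11_0, h_f12_5_1_0, h_f33_1, h_f33_5_1_0, h_o0, h_o1, h_p12_33A_4_0, h_tmpp_1_0, s1]
                  · linarith only [e0, h_tmpp_2_0]
                  · linarith only [h_f11_0, h_f11_1, h_f12_5_1_0, h_o1, h_p12_33A_4_0, h_tmpp_3_0, s2]
                · linarith only [h_f12_5_1_0, h_f12_6, h_f33_8_1_0, h_o1, h_p12_33A_5_0, h_t23_0_1]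
            · rcases h_p12_33A with h_p12_33A_0_0 | h_p12_33A_1_0 | h_p12_33A_2_0 | h_p12_33A_3_0 | h_p12_33A_4_0 | h_p12_33A_5_0
              · linarith only [e0, h_o0, h_p12_33A_0_0]
              · linarith only [e0, h_a2, h_o0, h_o1, h_p12_33A_1_0]
              · linarith only [e1, h_p12_33A_2_0]
              · linarith only [h_f11_0, h_f12_2_0_0, h_o0, h_p12_33A_3_0, s1]
              · rcases h_tmpp with h_tmpp_0_0 | h_tmpp_1_0 | h_tmpp_2_0 | h_tmpp_3_0
                · linarith only [h_f11_0, h_f33_0, h_o0, h_tmpp_0_0, s1]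
                · linarith only [h_f11_0, h_f12_5_1_0, h_f33_1, h_f33_5_1_0, h_o0, h_o1, h_p12_33A_4_0, h_tmpp_1_0, s1]
                · linarith only [e0, h_tmpp_2_0]
                · linarith only [h_f11_0, h_f11_1, h_f12_5_1_0, h_o1, h_p12_33A_4_0, h_tmpp_3_0, s2]
              · rcases h_f33_8 with h_f33_8_0_0 | h_f33_8_1_0
                · linarith only [h_a5, h_b4, h_f12_5_1_0, h_f12_6, h_f33_5_1_0, h_f33_8_0_0, h_o1, h_p12_33A_5_0, h_t23_1_1]
                · linarith only [h_f12_5_1_0, h_f12_6, h_f33_8_1_0, h_o2, h_p12_33A_5_0, h_t23_1_1]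
      · linarith only [h_f11_0, h_f13_0, h_f13_2_1_0, h_f33_1, h_o0, h_o2, s1]
  · linarith only [h_a2, h_f12_0, h_f12_2_1_0, h_o1]

theorem c0_11_22_23_k3 {n1 n2 n3 A1 A2 A3 B1 B2 B3 m11_1 m11_2 m11_3 m13_1 m13_2 m13_3 m22_1 m22_2 m22_3 m23_1 m23_2 m23_3 m33_1 m33_2 m33_3 : ℤ}
    (C : Ctx0 n1 n2 n3 A1 A2 A3 B1 B2 B3 m11_1 m11_2 m11_3 m13_1 m13_2 m13_3 m22_1 m22_2 m22_3 m23_1 m23_2 m23_3 m33_1 m33_2 m33_3)
    (e0 : 0 < B1)
    (e1 : 0 < B2)
    (e2 : 0 < A2)
    (e3 : 0 < B3)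
    (s1 : 3 * A1 + 0 * B1 ≤ m11_1 + m22_1 + m23_1)
    (s2 : 3 * A2 + 0 * B2 ≤ m11_2 + m22_2 + m23_2)
    (s3 : 3 * A3 + 0 * B3 ≤ m11_3 + m22_3 + m23_3) : False := by
  have h_f22_2 : (m22_1 = n1) ∨ (m22_1 + 1 = B2) := by
    have t := C.f22_2
    clear s1 s2 s3
    omega
  have h_f23_10 : (m23_3 = m23_2 + n3) ∨ (m23_3 + 1 = B3) := by
    have t := C.f23_10
    clear s1 s2 s3
    omega
  have h_p11_22B : (B1 ≤ 0) ∨ (B2 ≤ 0) ∨ (m11_1 + m22_1 + 1 ≤ 2 * B1) ∨ (m11_2 + m22_2 + 1 ≤ 2 * B2) ∨ (m11_3 + m22_3 + 1 ≤ 2 * B3) := by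
    have t := C.p11_22B
    clear s1 s2 s3
    omega
  have h_p11_23A : (B1 ≤ 0) ∨ (A2 ≤ 0) ∨ (B3 ≤ 0) ∨ (m11_1 + m23_1 + 1 ≤ 2 * A1) ∨ (m11_2 + m23_2 + 1 ≤ 2 * A2) ∨ (m11_3 + m23_3 + 1 ≤ 2 * A3) := by
    have t := C.p11_23A
    clear s1 s2 s3
    omega
  have h_b5 := C.b5
  have h_o0 := C.o0
  have h_o1 := C.o1
  have h_o2 := C.o2
  have h_f11_0 := C.f11_0
  have h_f11_2 := C.f11_2
  have h_f22_4 := C.f22_4
  have h_f22_6 := C.f22_6
  have h_f23_0 := C.f23_0
  have h_f23_1 := C.f23_1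
  have h_f23_5 := C.f23_5
  clear C
  rcases h_p11_22B with h_p11_22B_0_0 | h_p11_22B_1_0 | h_p11_22B_2_0 | h_p11_22B_3_0 | h_p11_22B_4_0
  · linarith only [e0, h_p11_22B_0_0]
  · linarith only [e1, h_p11_22B_1_0]
  · rcases h_f22_2 with h_f22_2_0_0 | h_f22_2_1_0
    · linarith only [h_f11_0, h_f22_2_0_0, h_f23_0, h_o0, h_p11_22B_2_0, s1]
    · rcases h_p11_23A with h_p11_23A_0_0 | h_p11_23A_1_0 | h_p11_23A_2_0 | h_p11_23A_3_0 | h_p11_23A_4_0 | h_p11_23A_5_0
      · linarith only [e0, h_p11_23A_0_0]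
      · linarith only [e2, h_p11_23A_1_0]
      · linarith only [e3, h_p11_23A_2_0]
      · linarith only [h_f11_0, h_o0, h_p11_22B_2_0, h_p11_23A_3_0, s1]
      · linarith only [h_f11_0, h_f22_2_1_0, h_f22_4, h_f23_1, h_o0, h_p11_22B_2_0, h_p11_23A_4_0, s1, s2]
      · rcases h_f23_10 with h_f23_10_0_0 | h_f23_10_1_0
        · linarith only [h_f11_0, h_f11_2, h_f22_2_1_0, h_f22_4, h_f22_6, h_f23_1, h_f23_10_0_0, h_o0, h_p11_22B_2_0, h_p11_23A_5_0, s1, s2, s3]
        · linarith only [h_f11_0, h_f11_2, h_f22_2_1_0, h_f22_4, h_f22_6, h_f23_1, h_f23_10_1_0, h_f23_5, h_o0, h_o2, h_p11_22B_2_0, h_p11_23A_5_0, s1, s2, s3]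
  · linarith only [h_f23_5, h_o1, h_p11_22B_3_0, s2]
  · linarith only [h_b5, h_f11_2, h_f22_6, h_f23_5, h_o1, h_p11_22B_4_0, s2]


end Pool.Agent.Helper81.TQ
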