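/- MP_5465ec_co, Q2: the 27 hard integer lemmas (collected). -/
import Pool.Agent.Helper81.TQ.H1
import Pool.Agent.Helper81.TQ.H2
import Pool.Agent.Helper81.TQ.H3
import Pool.Agent.Helper81.TQ.H4
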